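import Pool.Agent.Work.MP_1ce445_pl3.Interface

/-!
THE FIRST PLATEAU, LOWER HALF without the construction, and the two-sided statement (helper94). The construction is LWE
(helper66). `κ = 3k/n`, `ρ = rh n k = log n/(- log κ)`, `TTm m q` = `8 ∏ ((q + 3m + j)/3)`. For `28 ≤ k ≤ n/120`:
`N^(k-3) (N/3 + 2 (1-ε) ρ)³ ≤ P n k ≤ N^(k-3) (N/3 + 2 (1+ε) ρ + 2)³`.

Files `Pool/Agent/Work/MP_1ce445_pl3/<ID>.lean`, `import Pool.Agent.Work.MP_1ce445_pl3.Interface2`, `namespace` and `open` lines as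
in this file, theorem `stmt_<ID>` with exactly the statements of the column `uses` as hypotheses, in this order.
-/

namespace Pool.Agent.Work.MP_1ce445_pl3

open Finset Pool.Agent.Work.MP_1ce445_co_56 Pool.Agent.Work.MP_1ce445_lin
  Pool.Agent.Work.MP_1ce445_fx

/-- LWE (helper66): the construction for `k ≥ n^(1-ε/8)`. -/
def Stmt_LWE : Prop :=
  ∀ ε : ℝ, 0 < ε → ε < 1 → ∃ q0 : ℕ, ∀ q k r : ℕ, q0 ≤ q → (2 * (q : ℝ)) ^ (1 - ε / 8) ≤ k →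
    60 * k ≤ q → 1 ≤ r → 1 ≤ (2 * (q : ℝ)) ^ (1 - ε) * (3 * (k : ℝ) / (2 * q)) ^ (r - 1) →
    (2 * q) ^ (k - 3) * TTm r q ≤ P (2 * q) k

/-- LTT (60 lines; uses NUN), real numbers, uniform in `r`. `27 TTm r q ≥ 8 (q + 3r)³ - 24 (q + 3r + 1)` (see `Stmt_NUN`, `Stmt_NUM`:
`TTm r q = TT (q + 3r - 6)`). With `x = (2q + 6r)/3`: `TTm ≥ x³ - (4/3) x - 8/9 ≥ (x - c)³` for large `x`, since
` (x - c)³ = x³ - 3 c x² + 3 c² x - c³`. -/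
def Stmt_LTT : Prop :=
  ∀ c : ℝ, 0 < c → ∃ q0 : ℕ, ∀ q r : ℕ, q0 ≤ q → (2 * (q : ℝ) / 3 + 2 * r - c) ^ 3 ≤ (TTm r q : ℝ)

/-- LSM (150 lines; uses LOM LOU LTT). `- log κ ≥ δ log n - log 3 ≥ (δ/2) log n`, so `ρ ≤ 2/δ`; `ρ ≥ 1`. If ` (1-ε/2) ρ ≤ 2`: LOU
(`TT q = TTm 2 q`, `rfl`) and LTT with `r = 2`, `c = ε`: `4 - ε ≥ 2 (1-ε) ρ`, as ` (1-ε) ρ ≤ 2 (1-ε)/(1-ε/2) ≤ 2 (1 - ε/2)`. Otherwise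
`m = ⌈(1-ε/2) ρ⌉`, `3 ≤ m ≤ 2/δ + 1`: finitely many `m`, let `C` be the maximum of the `C(m)` of LOM and `n0` the maximum of its
`n0(m)`; `m - 1 < (1-ε/2) ρ`, so `n κ^(m-1) ≥ exp (log n (1 - (m-1)/ρ)) ≥ n^(ε/2)`, `n (k/n)^(m-1) ≥ 3^(-m) n^(ε/2) ≥ C`, i.e.
`C n^(m-2) ≤ k^(m-1)`; and `C ≤ k` for large `n` (`k^(m-1) ≥ n^(m-2) ≥ n`). LTT with `r = m`, `c = ε`:
`2 m - ε ≥ 2 (1-ε/2) ρ - ε ≥ 2 (1-ε) ρ`. `5 k ≤ n` for large `n`. -/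
def Stmt_LSM : Prop :=
  ∀ ε δ : ℝ, 0 < ε → ε < 1 → 0 < δ → δ < 1 → ∃ n0 : ℕ, ∀ n k : ℕ, n0 ≤ n → Even n → 28 ≤ k →
    (k : ℝ) ≤ (n : ℝ) ^ (1 - δ) →
    (n : ℝ) ^ (k - 3) * ((n : ℝ) / 3 + 2 * (1 - ε) * rh n k) ^ 3 ≤ (P n k : ℝ)

/-- LWG (100 lines; uses LWE LSM LTT), even `n = 2 q`. If `k ≤ n^(1-ε/16)`: LSM with `δ = ε/16`. Otherwise LWE with `ε/2` and
`r = ⌊(1-ε/2) ρ⌋ + 1`: `n^(1-ε/2) κ^(r-1) = exp ((1-ε/2) log n - (r-1)(- log κ)) ≥ 1` as `r - 1 ≤ (1-ε/2) ρ`; LTT with `c = ε`: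
`2 r - ε ≥ 2 (1-ε/2) ρ - ε ≥ 2 (1-ε) ρ` (`ρ ≥ 1`). -/
def Stmt_LWG : Prop :=
  ∀ ε : ℝ, 0 < ε → ε < 1 → ∃ n0 : ℕ, ∀ n k : ℕ, n0 ≤ n → Even n → 28 ≤ k → 120 * k ≤ n →
    (n : ℝ) ^ (k - 3) * ((n : ℝ) / 3 + 2 * (1 - ε) * rh n k) ^ 3 ≤ (P n k : ℝ)

/-- LWF (60 lines; uses LWG CLN), all `n`. Odd `n = 2 q + 1`: `P (2q) k ≤ P n k` (CLN), `NN n = 2 q`, `120 k ≤ 2 q`, and
`rh n k ≤ rh (2q) k`, because `log x/(log x - log (3k))` is decreasing in `x > 3k` (`log (3k) ≥ 0`). -/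
def Stmt_LWF : Prop :=
  ∀ ε : ℝ, 0 < ε → ε < 1 → ∃ n0 : ℕ, ∀ n k : ℕ, n0 ≤ n → 28 ≤ k → 120 * k ≤ n →
    (NN n : ℝ) ^ (k - 3) * ((NN n : ℝ) / 3 + 2 * (1 - ε) * rh n k) ^ 3 ≤ (P n k : ℝ)

/-- PL1 (60 lines; uses UPY LWF), the two-sided statement. `R = (P n k/N^(k-3))^(1/3) - N/3` (`Real.rpow`, or an intermediate
value argument); the cube is strictly increasing on nonnegative numbers. -/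
def Stmt_PL1 : Prop :=
  ∀ ε : ℝ, 0 < ε → ε < 1 → ∃ n0 : ℕ, ∀ n k : ℕ, n0 ≤ n → 28 ≤ k → 120 * k ≤ n →
    ∃ R : ℝ, (P n k : ℝ) = (NN n : ℝ) ^ (k - 3) * ((NN n : ℝ) / 3 + R) ^ 3 ∧
      2 * (1 - ε) * rh n k ≤ R ∧ R ≤ 2 * (1 + ε) * rh n k + 2

end Pool.Agent.Work.MP_1ce445_pl3
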