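import Pool.Agent.Work.MP_1ce445_pl3.Interface
import Pool.Agent.Work.MP_1ce445_fx.TSM
import Pool.Agent.Work.MP_1ce445_fx.ADM

/-! # Block ADB: the main estimate on the first plateau, a large degree -/

namespace Pool.Agent.Work.MP_1ce445_pl3

open Finset Pool.Agent.Work.MP_1ce445_co_56 Pool.Agent.Work.MP_1ce445_lin
  Pool.Agent.Work.MP_1ce445_fx

lemma ADB_dd {n k : ℕ} (G : Fin k → SimpleGraph (Fin n)) (e : Fin 3 → Fin k) (θ : ℝ)
    (hθ : 0 < θ) : ∑ v, (ddw G e θ v : ℝ) ≤ 3 * θ * (n : ℝ) ^ 2 := by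
  unfold ddw
  push_cast
  rw [Finset.sum_comm]
  calc ∑ i : Fin 3, ∑ v, (dg (G (e i)) (low (G (e i)) θ) v : ℝ) ≤
      ∑ _i : Fin 3, θ * (n : ℝ) ^ 2 := Finset.sum_le_sum fun i _ => TSM_low _ _ hθ
    _ = 3 * θ * (n : ℝ) ^ 2 := by
        rw [Finset.sum_const, Finset.card_univ, Fintype.card_fin, nsmul_eq_mul]
        push_cast
        ring

lemma ADB_cnt {n k : ℕ} (G : Fin k → SimpleGraph (Fin n)) (e : Fin 3 → Fin k) (θ ω : ℝ)
    (hn : (0 : ℝ) < n) (hθ : 0 < θ) (hω : 0 < ω) :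
    3 * ((univ.filter (fun v => ω / 12 * n < (ddw G e θ v : ℝ))).card : ℝ) ≤
      108 * θ / ω * n := by
  have h1 := ADB_dd G e θ hθ
  set B := univ.filter (fun v => ω / 12 * n < (ddw G e θ v : ℝ)) with hB
  have h2 : (B.card : ℝ) * (ω / 12 * n) ≤ ∑ v, (ddw G e θ v : ℝ) := by
    calc (B.card : ℝ) * (ω / 12 * n) = ∑ _v ∈ B, (ω / 12 * n) := by
          rw [Finset.sum_const, nsmul_eq_mul]
      _ ≤ ∑ v ∈ B, (ddw G e θ v : ℝ) := Finset.sum_le_sum fun v hv => by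
          rw [hB] at hv
          exact (Finset.mem_filter.mp hv).2.le
      _ ≤ ∑ v, (ddw G e θ v : ℝ) := Finset.sum_le_sum_of_subset_of_nonneg
          (Finset.subset_univ _) (fun v _ _ => by positivity)
  have h3 : (B.card : ℝ) * ω ≤ 36 * θ * n := by
    have h4 : ((B.card : ℝ) * ω) * n ≤ (36 * θ * n) * n := by nlinarith
    exact le_of_mul_le_mul_right h4 hn
  rw [div_mul_eq_mul_div, le_div_iff₀ hω]
  linarith

/-- The gain. -/
lemma ADB_gain {n k : ℕ} (G : Fin k → SimpleGraph (Fin n)) (e : Fin 3 → Fin k) (θ : ℝ) (m : ℕ)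
    (hS : Sit G e θ) (i0 : Fin 3) (z : Fin n) :
    (dg (G (e i0)) (low (G (e i0)) θ) z : ℝ) * (1 - 2 * m * (5 * θ)) ≤
      ∑ v ∈ nb (G (e i0)) z, am G e θ m i0 v := by
  classical
  have hθ := hS.th
  have hθ' := hS.th'
  have hsub : (low (G (e i0)) θ).filter (fun w => (G (e i0)).Adj z w) ⊆
      nb (G (e i0)) z := by
    intro w hw
    unfold MP_1ce445_fx.nb
    rw [Finset.mem_filter] at hw ⊢
    exact ⟨Finset.mem_univ _, hw.2⟩
  have h7 : ∑ v ∈ (low (G (e i0)) θ).filter (fun w => (G (e i0)).Adj z w), am G e θ m i0 v ≤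
      ∑ v ∈ nb (G (e i0)) z, am G e θ m i0 v := by
    apply Finset.sum_le_sum_of_subset_of_nonneg hsub
    intro v _ _
    exact ADM_am G e θ m i0 v
  refine le_trans ?_ h7
  have h8 : ∀ v ∈ (low (G (e i0)) θ).filter (fun w => (G (e i0)).Adj z w),
      1 - 2 * m * (5 * θ) ≤ am G e θ m i0 v := by
    intro v hv
    have hv1 := (Finset.mem_filter.mp hv).1
    exact ADM_pow m (5 * θ) _ _ (by linarith) (by linarith)
      (ADD_A G e θ hS i0 (i0 + 1) v hv1) (ADD_A G e θ hS i0 (i0 + 2) v hv1)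
  have h9 := Finset.card_nsmul_le_sum _ _ _ h8
  rw [nsmul_eq_mul] at h9
  have h10 : ((low (G (e i0)) θ).filter (fun w => (G (e i0)).Adj z w)).card =
      dg (G (e i0)) (low (G (e i0)) θ) z := by
    unfold MP_1ce445_fx.dg
    congr
  rw [h10] at h9
  exact h9

/-- Block ADB. -/
theorem stmt_ADB (hSMM : Stmt_SMM) (hTAU : Stmt_TAU) (hGDP : Stmt_GDP) (hBDP : Stmt_BDP) :
    Stmt_ADB := by
  intro ω hω hω'
  obtain ⟨r0, hr0⟩ := exists_pow_lt_of_lt_one (show (0 : ℝ) < ω / 3600 by positivity)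
    (show (1 / 8 : ℝ) < 1 by norm_num)
  obtain ⟨r, hr⟩ : ∃ r : ℕ, r = r0 + 1 := ⟨_, rfl⟩
  have hr1 : 1 ≤ r := by omega
  have hr8 : (1 / 8 : ℝ) ^ r ≤ ω / 3600 := by
    rw [hr, pow_succ]
    have h : (0 : ℝ) ≤ (1 / 8 : ℝ) ^ r0 := by positivity
    linarith
  have hrpos : (0 : ℝ) < r := by exact_mod_cast hr1
  refine ⟨min (1 / (40 * r)) (ω ^ 2 / 40000), by positivity, ⌈100 * (6 * (r : ℝ) + 1) / ω⌉₊, ?_⟩
  intro n k G e θ s hP hθ0 hs hn0 hex
  have hSit := hP.sit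
  have hn : (0 : ℝ) < n := by exact_mod_cast hSit.pos
  have hθ := hSit.th
  have hs0 := hP.s0
  obtain ⟨i0, z, hz⟩ := hex
  obtain ⟨s1, s2, s3⟩ := hSMM r n k G e θ hr1 hSit
  obtain ⟨-, hta⟩ := hTAU n k G e θ hSit
  have h5 := s3 i0 z
  have h6 := ADB_gain G e θ r hSit i0 z
  have hB1 := ADB_cnt G e θ ω hn hθ hω
  have hB2 := hBDP n k G e θ s ω hP hω hs
  -- one vertex
  have hk8 : 3 * (k : ℝ) / n + ω ≤ 1 / 8 := by
    have h : 3 * (k : ℝ) / n ≤ 1 / 40 := by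
      rw [div_le_iff₀ hn]
      linarith [hP.kn]
    linarith
  have hk0 : 0 ≤ 3 * (k : ℝ) / n + ω := by positivity
  have h7 : ∀ v, ∑ i, am G e θ r i v ≤ 1 + ω / 3600 +
      (if ω / 12 * n < (ddw G e θ v : ℝ) then 3 else 0) +
      (if ω / 12 * n < (EEw G e v : ℝ) then 3 else 0) := by
    intro v
    have ha := s1 v
    have hb : ∑ i, ta G e θ i v ^ r ≤ 3 := by
      calc ∑ i, ta G e θ i v ^ r ≤ ∑ _i : Fin 3, (1 : ℝ) := Finset.sum_le_sum fun i _ =>
            pow_le_one₀ (hta i v).1 (hta i v).2.1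
        _ = 3 := by simp
    split_ifs with hc hd hd
    · linarith
    · linarith
    · linarith
    · push Not at hc hd
      have hg := hGDP n k r G e θ s ω hP hω hω' (by linarith) hr1 v (by linarith)
      have hp : (3 * (k : ℝ) / n + ω) ^ r ≤ (1 / 8) ^ r := pow_le_pow_left₀ hk0 hk8 r
      linarith
  have h8 : ∑ v, ∑ i, am G e θ r i v ≤ n * (1 + ω / 3600) +
      3 * ((univ.filter (fun v => ω / 12 * n < (ddw G e θ v : ℝ))).card : ℝ) +
      3 * ((univ.filter (fun v => ω / 12 * n < (EEw G e v : ℝ))).card : ℝ) := by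
    calc ∑ v, ∑ i, am G e θ r i v ≤ ∑ v, (1 + ω / 3600 +
        (if ω / 12 * n < (ddw G e θ v : ℝ) then 3 else 0) +
        (if ω / 12 * n < (EEw G e v : ℝ) then 3 else 0)) := Finset.sum_le_sum fun v _ => h7 v
      _ = _ := by
        rw [Finset.sum_add_distrib, Finset.sum_add_distrib, ← Finset.sum_filter,
          ← Finset.sum_filter, Finset.sum_const, Finset.sum_const, Finset.sum_const,
          Finset.card_univ, Fintype.card_fin]
        simp only [nsmul_eq_mul]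
        ring
  -- constants
  have hθ1 : 40 * r * θ ≤ 1 := by
    have h : θ ≤ 1 / (40 * r) := hθ0.trans (min_le_left _ _)
    rw [le_div_iff₀ (by positivity)] at h
    linarith
  have hθ2 : 40000 * θ ≤ ω ^ 2 := by
    have h : θ ≤ ω ^ 2 / 40000 := hθ0.trans (min_le_right _ _)
    linarith
  have h9 : ω / 36 * n * (3 / 4) ≤
      (dg (G (e i0)) (low (G (e i0)) θ) z : ℝ) * (1 - 2 * r * (5 * θ)) := by
    apply mul_le_mul hz.le (by linarith) (by norm_num) (by positivity)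
  have h10 : 108 * θ / ω * n ≤ 27 / 10000 * ω * n := by
    apply mul_le_mul_of_nonneg_right _ hn.le
    rw [div_le_iff₀ hω]
    nlinarith
  have h11 : 6 * (r : ℝ) + 1 ≤ ω / 100 * n := by
    have h := Nat.ceil_le.mp hn0
    rw [div_le_iff₀ hω] at h
    linarith
  have h12 : 0 < ω * n := by positivity
  nlinarith

end Pool.Agent.Work.MP_1ce445_pl3
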