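import Pool.Agent.Work.MP_1ce445_pl3.Interface
import Pool.Agent.Work.MP_1ce445_fx.ADM

/-! # Block ADX: the main estimate for two random vertices in each set, with the gain -/

namespace Pool.Agent.Work.MP_1ce445_pl3

open Finset Pool.Agent.Work.MP_1ce445_co_56 Pool.Agent.Work.MP_1ce445_lin
  Pool.Agent.Work.MP_1ce445_fx

/-- Block ADX. -/
theorem stmt_ADX (h1 : Stmt_SMM) (_h0 : Stmt_TAU) (h2 : Stmt_TSM) : Stmt_ADX := by
  classical
  intro n k Δ G e θ hθm hU hall hex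
  have hS := hU.sit
  obtain ⟨s1, s2, s3⟩ := h1 2 n k G e θ (by norm_num) hS
  obtain ⟨t1, t2⟩ := h2 2 n k G e θ le_rfl hU
  have hθ := hS.th
  have hθ' := hS.th'
  have htot : ∑ v, ∑ i, am G e θ 2 i v ≤ n + ∑ v, ∑ i, ta G e θ i v ^ 2 := by
    have h : ∑ v, ∑ i, am G e θ 2 i v ≤ ∑ v : Fin n, (1 + ∑ i, ta G e θ i v ^ 2) :=
      Finset.sum_le_sum fun v _ => s1 v
    rw [Finset.sum_add_distrib, Finset.sum_const, Finset.card_univ, Fintype.card_fin, nsmul_eq_mul,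
      mul_one] at h
    exact h
  obtain ⟨i0, z, hΔ⟩ := hex
  have h4 := t2 Δ hall
  have h5 := s3 i0 z
  have h6 : (Δ : ℝ) * (1 - 2 * (2 : ℕ) * (5 * θ)) ≤ ∑ v ∈ nb (G (e i0)) z, am G e θ 2 i0 v := by
    have hsub : (low (G (e i0)) θ).filter (fun w => (G (e i0)).Adj z w) ⊆
        nb (G (e i0)) z := by
      intro w hw
      unfold MP_1ce445_fx.nb
      rw [Finset.mem_filter] at hw ⊢
      exact ⟨Finset.mem_univ _, hw.2⟩
    have h7 : ∑ v ∈ (low (G (e i0)) θ).filter (fun w => (G (e i0)).Adj z w), am G e θ 2 i0 v ≤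
        ∑ v ∈ nb (G (e i0)) z, am G e θ 2 i0 v := by
      apply Finset.sum_le_sum_of_subset_of_nonneg hsub
      intro v _ _
      exact ADM_am G e θ 2 i0 v
    refine le_trans ?_ h7
    have h8 : ∀ v ∈ (low (G (e i0)) θ).filter (fun w => (G (e i0)).Adj z w),
        1 - 2 * (2 : ℕ) * (5 * θ) ≤ am G e θ 2 i0 v := by
      intro v hv
      have hv1 := (Finset.mem_filter.mp hv).1
      exact ADM_pow 2 (5 * θ) _ _ (by linarith) (by linarith)
        (ADD_A G e θ hS i0 (i0 + 1) v hv1) (ADD_A G e θ hS i0 (i0 + 2) v hv1)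
    have h9 := Finset.card_nsmul_le_sum _ _ _ h8
    rw [nsmul_eq_mul] at h9
    have h10 : ((low (G (e i0)) θ).filter (fun w => (G (e i0)).Adj z w)).card = Δ := by
      rw [← hΔ]
      unfold MP_1ce445_fx.dg
      congr
    rw [h10] at h9
    exact h9
  have hΔ0 : (0 : ℝ) ≤ Δ := Nat.cast_nonneg _
  have h11 : 3 * 15 ^ 2 * θ + 20 * θ ≤ 1 / 2 := by linarith
  have h12 : (Δ : ℝ) * (3 * 15 ^ 2 * θ + 20 * θ) ≤ Δ * (1 / 2) :=
    mul_le_mul_of_nonneg_left h11 hΔ0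
  have h13 : 3 * 15 ^ 2 * θ * Δ - (Δ : ℝ) * (1 - 2 * (2 : ℕ) * (5 * θ)) =
      (Δ : ℝ) * (3 * 15 ^ 2 * θ + 20 * θ) - Δ := by
    push_cast
    ring
  push_cast at h5
  linarith

end Pool.Agent.Work.MP_1ce445_pl3
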