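import Pool.Agent.Work.MP_1ce445_pl3.Interface

/-!
Block GDP of the first plateau, upper half: good vertices.
-/

namespace Pool.Agent.Work.MP_1ce445_pl3

open Finset Pool.Agent.Work.MP_1ce445_co_56 Pool.Agent.Work.MP_1ce445_lin
  Pool.Agent.Work.MP_1ce445_fx

lemma GDP_dis {n : ℕ} (H : SimpleGraph (Fin n)) (Y : Fin 3 → Finset (Fin n))
    (hd : ∀ i j v, i ≠ j → v ∈ Y i → v ∉ Y j) (v : Fin n) :
    ∑ j, dg H (Y j) v ≤ dg H univ v := by
  classical
  unfold MP_1ce445_fx.dg
  rw [← card_biUnion]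
  · apply card_le_card
    intro w hw
    rw [mem_biUnion] at hw
    obtain ⟨j, _, hj⟩ := hw
    rw [mem_filter] at hj ⊢
    exact ⟨mem_univ _, hj.2⟩
  · intro i _ j _ hij
    rw [Function.onFun, Finset.disjoint_left]
    intro w h1 h2
    rw [mem_filter] at h1 h2
    exact hd i j w hij h1.1 h2.1

lemma GDP_oth {k : ℕ} (e : Fin 3 → Fin k) (he : Function.Injective e) :
    (oth e).card + 3 ≤ k := by
  have hdis : Disjoint (oth e) (univ.image e) := by
    rw [Finset.disjoint_left]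
    intro l h1 h2
    rw [mem_image] at h2
    obtain ⟨i, _, hi⟩ := h2
    rw [oth, mem_filter] at h1
    exact h1.2 i hi.symm
  have h1 := card_union_of_disjoint hdis
  rw [card_image_of_injective _ he, card_univ, Fintype.card_fin] at h1
  have h2 := card_le_univ (oth e ∪ univ.image e)
  rw [Fintype.card_fin] at h2
  omega

lemma GDP_pow (t : Fin 3 → ℝ) (h0 : ∀ j, 0 ≤ t j) (m : ℕ) (hm : 1 ≤ m) :
    ∑ j, t j ^ m ≤ (∑ j, t j) ^ m := by
  obtain ⟨r, rfl⟩ : ∃ r, m = r + 1 := ⟨m - 1, by omega⟩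
  have h1 : ∀ j, t j ≤ ∑ i, t i := fun j =>
    single_le_sum (fun i _ => h0 i) (mem_univ j)
  calc ∑ j, t j ^ (r + 1) ≤ ∑ j, (∑ i, t i) ^ r * t j := by
        apply sum_le_sum
        intro j _
        rw [pow_succ]
        exact mul_le_mul_of_nonneg_right (pow_le_pow_left₀ (h0 j) (h1 j) r) (h0 j)
    _ = (∑ j, t j) ^ (r + 1) := by
        rw [← mul_sum, pow_succ]

theorem stmt_GDP : Stmt_TAU → Stmt_TA2 → Stmt_GDP := by
  intro hTAU hTA2 n k m G e θ s ω hS hω hω1 hsω hm v hv
  have hn : (0:ℝ) < n := by exact_mod_cast hS.sit.pos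
  have hT := (hTAU n k G e θ hS.sit).2
  have ht0 : ∀ j, 0 ≤ ta G e θ j v := fun j => (hT j v).1
  have hA := fun j => hTA2 n k G e θ hS.sit j v
  -- the sum of the `τ_j |Y_j|`
  have hB : (1 / 3 - s) * n * ∑ j, ta G e θ j v ≤
      ∑ j, ta G e θ j v * ((low (G (e j)) θ).card : ℝ) := by
    rw [mul_sum]
    apply sum_le_sum
    intro j _
    rw [mul_comm]
    exact mul_le_mul_of_nonneg_left (hS.siz j) (ht0 j)
  have hC := sum_le_sum (fun j (_ : j ∈ (univ : Finset (Fin 3))) => hA j)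
  rw [sum_add_distrib, sum_add_distrib] at hC
  -- at most one `Y_j` contains `v`
  have hD := hS.dis
  have hone : ∑ j : Fin 3, (if v ∈ low (G (e j)) θ then (1:ℝ) else 0) ≤ 1 := by
    rw [Fin.sum_univ_three]
    by_cases h0 : v ∈ low (G (e 0)) θ
    · have h1 := hD 0 1 v (by decide) h0
      have h2 := hD 0 2 v (by decide) h0
      rw [if_pos h0, if_neg h1, if_neg h2]
      norm_num
    · by_cases h1 : v ∈ low (G (e 1)) θ
      · have h2 := hD 1 2 v (by decide) h1
        rw [if_neg h0, if_pos h1, if_neg h2]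
        norm_num
      · rw [if_neg h0, if_neg h1]
        split_ifs <;> norm_num
  -- the other colours
  have hE : ∑ j : Fin 3, ∑ l ∈ oth e, (dg (G l) (low (G (e j)) θ) v : ℝ) ≤
      ∑ l ∈ oth e, (dg (G l) univ v : ℝ) := by
    rw [sum_comm]
    apply sum_le_sum
    intro l _
    exact_mod_cast GDP_dis (G l) (fun j => low (G (e j)) θ) (fun i j w => hD i j w) v
  have hF : ∑ l ∈ oth e, (dg (G l) univ v : ℝ) ≤ (oth e).card + EEw G e v := by
    have h1 : ∑ l ∈ oth e, dg (G l) univ v ≤ (oth e).card + EEw G e v := by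
      unfold EEw
      calc ∑ l ∈ oth e, dg (G l) univ v ≤ ∑ l ∈ oth e, (1 + (dg (G l) univ v - 1)) := by
            apply sum_le_sum
            intro l _
            omega
        _ = (oth e).card + ∑ l ∈ oth e, (dg (G l) univ v - 1) := by
            rw [sum_add_distrib, sum_const, smul_eq_mul, mul_one]
    exact_mod_cast h1
  have hG : ((oth e).card : ℝ) + 3 ≤ k := by
    exact_mod_cast GDP_oth e hS.sit.inj
  have hdd : ∑ j : Fin 3, (dg (G (e j)) (low (G (e j)) θ) v : ℝ) = (ddw G e θ v : ℝ) := by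
    unfold ddw
    push_cast
    rfl
  rw [hdd] at hC
  have hsum : (1 / 3 - s) * n * ∑ j, ta G e θ j v ≤ k + ω / 6 * n := by
    have h1 := hB.trans hC
    linarith
  have hkn := hS.kn
  have hs0 := hS.s0
  have hs1 := hS.s1
  -- the sum of the `τ_j`
  have hfin : ∑ j, ta G e θ j v ≤ 3 * (k : ℝ) / n + ω := by
    have hpos : 0 < (1 / 3 - s) * n := by
      apply mul_pos _ hn
      linarith
    have h2 : (1 / 3 - s) * n * (3 * (k : ℝ) / n + ω) = k + ω / 3 * n - s * (3 * k + ω * n) := by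
      field_simp
    have h3 : s * (3 * k + ω * n) ≤ ω / 6 * n := by
      have h4 : 3 * (k : ℝ) + ω * n ≤ n / 8 := by
        have h5 : ω * n ≤ 1 / 10 * n := mul_le_mul_of_nonneg_right hω1 hn.le
        linarith
      calc s * (3 * k + ω * n) ≤ s * (n / 8) := mul_le_mul_of_nonneg_left h4 hs0.le
        _ ≤ (ω / 2) * (n / 8) := by
            apply mul_le_mul_of_nonneg_right _ (by positivity)
            linarith
        _ ≤ ω / 6 * n := by
            have h6 : 0 < ω * n := mul_pos hω hn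
            linarith
    have h7 : (1 / 3 - s) * n * ∑ j, ta G e θ j v ≤ (1 / 3 - s) * n * (3 * (k : ℝ) / n + ω) := by
      rw [h2]
      linarith
    exact le_of_mul_le_mul_left h7 hpos
  calc ∑ j, ta G e θ j v ^ m ≤ (∑ j, ta G e θ j v) ^ m := GDP_pow _ ht0 m hm
    _ ≤ (3 * (k : ℝ) / n + ω) ^ m :=
        pow_le_pow_left₀ (sum_nonneg fun j _ => ht0 j) hfin m

end Pool.Agent.Work.MP_1ce445_pl3
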