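import Pool.Agent.Work.MP_1ce445_pl3.Interface
import Pool.Agent.Work.MP_1ce445_fx.STU

/-!
# Block STP: stability on the first plateau (after `MP_1ce445_fx/STU.lean`)
-/

namespace Pool.Agent.Work.MP_1ce445_pl3

open Finset Pool.Agent.Work.MP_1ce445_co_56 Pool.Agent.Work.MP_1ce445_lin
  Pool.Agent.Work.MP_1ce445_fx

theorem STP_third {x y z σ ϑ : ℝ} (hx : 0 ≤ x) (hy : 0 ≤ y) (hz : 0 ≤ z) (hs : x + y + z ≤ 1)
    (hσ : 0 < σ) (hϑ : ϑ ≤ σ ^ 2) (hp : 1 / 27 - ϑ / 200 ≤ x * y * z) : 1 / 3 - σ / 2 ≤ x := by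
  by_contra hcon
  push Not at hcon
  have h1 : y * z ≤ (1 - x) ^ 2 / 4 := by nlinarith [sq_nonneg (y - z)]
  have h2 : x * (y * z) ≤ x * ((1 - x) ^ 2 / 4) := mul_le_mul_of_nonneg_left h1 hx
  set u : ℝ := 1 / 3 - x with hu
  have hxu : x = 1 / 3 - u := by rw [hu]; ring
  have hu0 : σ / 2 < u := by linarith
  have h3 : x * ((1 - x) ^ 2 / 4) = 1 / 27 - u ^ 2 / 4 - u ^ 3 / 4 := by
    rw [hxu]
    ring
  have h4 : 0 < u ^ 3 := by
    have : 0 < u := by linarith
    positivity
  have h5 : σ ^ 2 / 4 ≤ u ^ 2 := by nlinarith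
  have h6 : x * (y * z) = x * y * z := by ring
  have h7 : 0 < σ ^ 2 := by positivity
  linarith

theorem STP_deg {n k : ℕ} (G : Fin k → SimpleGraph (Fin n)) (hG : IsFactorization G) (v : Fin n) :
    ∑ l, MP_1ce445_fx.dg (G l) univ v + 1 = n := by
  classical
  have h := sum_degree hG v
  rw [Fintype.card_fin] at h
  have hn : 0 < n := lt_of_le_of_lt (Nat.zero_le _) v.isLt
  have h1 : ∑ l, MP_1ce445_fx.dg (G l) univ v = n - 1 := by
    rw [← h]
    apply sum_congr rfl
    intro l _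
    unfold MP_1ce445_fx.dg
    congr
  omega

theorem STP_sq {x : ℝ} (h0 : 0 ≤ x) (h1 : x ≤ 1) : x ^ 2 ≤ x := by nlinarith

theorem STP_num {x s : ℝ} (h0 : 0 ≤ x) (hs : 0 ≤ s) (h : s ≤ x / 2) :
    (1 / 3 - x) ≤ (1 / 3 - x / 2) * (1 - s) := by nlinarith [mul_nonneg h0 hs]

theorem STP_dis (hDG : Stmt_DG2) {n k : ℕ} (G : Fin k → SimpleGraph (Fin n)) (hG : IsFactorization G)
    (e : Fin 3 → Fin k) (hinj : Function.Injective e) (θ : ℝ) (hθ1 : θ ≤ 1 / 1000)
    (hn : (1000 : ℝ) ≤ n) (hkR : 120 * (k : ℝ) ≤ n) (hγN : ∀ j, gammaT (G j) ≤ NN n)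
    (hprod : 1 / 27 * (NN n : ℝ) ^ k ≤ ∏ j, (gammaT (G j) : ℝ)) (hleN : (n : ℝ) ≤ NN n + 1)
    (hsn : (sn G e : ℝ) ≤ 1 / 3000 * n)
    (i j : Fin 3) (v : Fin n) (hij : i ≠ j) (hvi : v ∈ low (G (e i)) θ) (hvj : v ∈ low (G (e j)) θ) :
    False := by
  classical
  obtain ⟨m, hmi, hmj, hm⟩ : ∃ m : Fin 3, m ≠ i ∧ m ≠ j ∧ ∀ x, x = i ∨ x = j ∨ x = m := by
    clear hvi hvj
    revert hij
    revert i j
    decide
  have huniv : (univ : Finset (Fin 3)) = {i, j, m} := by
    ext x
    simp only [mem_univ, mem_insert, mem_singleton, true_iff]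
    exact hm x
  have hdeg := STP_deg G hG v
  have hNn : NN n ≤ n := by unfold NN; omega
  have hnN : n ≤ NN n + 1 := by unfold NN; omega
  have hd : ∀ l, MP_1ce445_fx.dg (G l) univ v ≤ n - gammaT (G l) + 1 := fun l =>
    (hDG n (G l) (fun w => hG.minDeg l w)).1 v
  -- the sum over all colours
  have hdisj : Disjoint (univ.image e) (oth e) := by
    rw [disjoint_left]
    intro l h2 h3
    obtain ⟨x, -, rfl⟩ := mem_image.1 h2
    unfold oth at h3
    exact (mem_filter.1 h3).2 x rfl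
  have hun : univ.image e ∪ oth e = univ := by
    ext l
    unfold oth
    simp only [mem_union, mem_image, mem_univ, true_and, mem_filter, iff_true]
    by_cases h2 : ∃ x, e x = l
    · exact Or.inl h2
    · right
      intro x hx
      exact h2 ⟨x, hx.symm⟩
  have hsum : ∑ l, MP_1ce445_fx.dg (G l) univ v = (MP_1ce445_fx.dg (G (e i)) univ v +
      (MP_1ce445_fx.dg (G (e j)) univ v + MP_1ce445_fx.dg (G (e m)) univ v)) +
      ∑ l ∈ oth e, MP_1ce445_fx.dg (G l) univ v := by
    rw [← hun, sum_union hdisj, sum_image (fun x _ y _ hxy => hinj hxy), huniv,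
      sum_insert (by simp only [mem_insert, mem_singleton, not_or]; exact ⟨hij, hmi.symm⟩),
      sum_insert (by rw [mem_singleton]; exact hmj.symm), sum_singleton]
  have hoth : ∑ l ∈ oth e, MP_1ce445_fx.dg (G l) univ v ≤ sn G e + 2 * k := by
    have h1 : ∑ l ∈ oth e, MP_1ce445_fx.dg (G l) univ v ≤ ∑ l ∈ oth e, ((NN n - gammaT (G l)) + 2) := by
      apply sum_le_sum
      intro l _
      have h2 := hd l
      have h3 := hγN l
      omega
    have h4 : ∑ l ∈ oth e, ((NN n - gammaT (G l)) + 2) = sn G e + 2 * (oth e).card := by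
      rw [sum_add_distrib, sum_const, smul_eq_mul, mul_comm _ 2]
      rfl
    have h5 : (oth e).card ≤ k := by
      have := card_le_univ (oth e)
      rwa [Fintype.card_fin] at this
    omega
  have hdi : (MP_1ce445_fx.dg (G (e i)) univ v : ℝ) < θ * n := by
    unfold low at hvi
    exact (mem_filter.1 hvi).2
  have hdj : (MP_1ce445_fx.dg (G (e j)) univ v : ℝ) < θ * n := by
    unfold low at hvj
    exact (mem_filter.1 hvj).2
  have hγm : gammaT (G (e m)) + MP_1ce445_fx.dg (G (e m)) univ v ≤ n + 1 := by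
    have h2 := hd (e m)
    have h3 := hγN (e m)
    omega
  have hγR : (gammaT (G (e m)) : ℝ) ≤ 2 + 2 * (θ * n) + sn G e + 2 * k := by
    have h1 : ((MP_1ce445_fx.dg (G (e i)) univ v : ℝ) + (MP_1ce445_fx.dg (G (e j)) univ v +
        MP_1ce445_fx.dg (G (e m)) univ v)) + (∑ l ∈ oth e, MP_1ce445_fx.dg (G l) univ v : ℕ) + 1 = n := by
      exact_mod_cast (by rw [← hsum]; exact hdeg)
    have h2 : ((∑ l ∈ oth e, MP_1ce445_fx.dg (G l) univ v : ℕ) : ℝ) ≤ sn G e + 2 * k := by
      exact_mod_cast hoth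
    have h3 : (gammaT (G (e m)) : ℝ) + MP_1ce445_fx.dg (G (e m)) univ v ≤ n + 1 := by exact_mod_cast hγm
    linarith
  have hθn : θ * n ≤ 1 / 1000 * n := mul_le_mul_of_nonneg_right hθ1 (by linarith)
  have hNpos : (0 : ℝ) < NN n := by linarith
  have hk1 : 1 ≤ k := by
    have := (e m).isLt
    omega
  have hpr : ∏ l, (gammaT (G l) : ℝ) ≤ gammaT (G (e m)) * (NN n : ℝ) ^ (k - 1) := by
    rw [← mul_prod_erase univ _ (mem_univ (e m))]
    refine mul_le_mul_of_nonneg_left ?_ (Nat.cast_nonneg _)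
    have h1 : (univ.erase (e m)).card = k - 1 := by
      rw [card_erase_of_mem (mem_univ _), card_univ, Fintype.card_fin]
    rw [← h1, ← prod_const]
    apply prod_le_prod
    · intro l _
      exact Nat.cast_nonneg _
    · intro l _
      exact_mod_cast hγN l
  have hNk : (NN n : ℝ) ^ k = NN n * (NN n : ℝ) ^ (k - 1) := by
    rw [← pow_succ']
    congr 1
    omega
  have h1 : (1 / 27 * NN n) * (NN n : ℝ) ^ (k - 1) ≤ gammaT (G (e m)) * (NN n : ℝ) ^ (k - 1) := by
    have h2 := hprod.trans hpr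
    rw [hNk] at h2
    linarith
  have h2 : 1 / 27 * (NN n : ℝ) ≤ gammaT (G (e m)) := le_of_mul_le_mul_right h1 (by positivity)
  linarith

theorem stmt_STP (h1 : Stmt_CR3) (h2 : Stmt_S3S) (hDG : Stmt_DG2) : Stmt_STP := by
  intro θ σ hθ hθ1 hσ hσ1
  obtain ⟨ϑ, hϑ, hϑθ, hϑσ⟩ : ∃ ϑ : ℝ, 0 < ϑ ∧ ϑ ≤ θ ∧ ϑ ≤ σ ^ 2 :=
    ⟨min θ (σ ^ 2), by positivity, min_le_left _ _, min_le_right _ _⟩
  have hϑ1 : ϑ ≤ 1 / 1000 := hϑθ.trans hθ1
  obtain ⟨s, e1, t, R, K, hs0, hsϑ, he0, heϑ, ht0, htϑ, hK, hft, htK, hR⟩ := STU_const hϑ hϑ1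
  have hsθ : s ≤ θ / 10000 := by linarith
  have heθ : e1 ≤ θ / 10000 := by linarith
  have htθ : t ≤ θ / 10000 := by linarith
  have hs1 : s ≤ 1 := by linarith
  set τ : ℝ := s ^ 2 / 30 with hτ
  have hτ0 : 0 < τ := by positivity
  have hτs : τ ≤ s := by
    rw [hτ]
    nlinarith
  have hτ1 : τ ≤ 1 := hτs.trans hs1
  have hτ2 : τ ^ 2 ≤ θ := by
    have h3 : τ * τ ≤ τ * 1 := mul_le_mul_of_nonneg_left hτ1 hτ0.le
    rw [sq]
    linarith
  obtain ⟨N1, hN1⟩ := exists_nat_gt (2 * R / t)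
  obtain ⟨N2, hN2⟩ := exists_nat_gt (1 / τ)
  obtain ⟨N3, hN3⟩ := exists_nat_gt (2 / t)
  refine ⟨N1 + N2 + N3 + 1000, fun n k hn hk3 hku G hG hprod => ?_⟩
  have hnR : ((N1 : ℝ) + N2 + N3 + 1000) ≤ n := by exact_mod_cast hn
  have hkR : 120 * (k : ℝ) ≤ n := by exact_mod_cast hku
  have hN1' : (0 : ℝ) ≤ N1 := Nat.cast_nonneg _
  have hN2' : (0 : ℝ) ≤ N2 := Nat.cast_nonneg _
  have hN3' : (0 : ℝ) ≤ N3 := Nat.cast_nonneg _
  have hnpos : (0 : ℝ) < n := by linarith
  have hn2 : 2 ≤ n := by omega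
  have hnge : (1000 : ℝ) ≤ n := by linarith
  have hn0 : 0 < n := by omega
  have hτn : 1 ≤ τ * n := by
    have h5 : 1 / τ < n := by linarith
    rw [div_lt_iff₀ hτ0] at h5
    linarith
  have hRn : (R : ℝ) / n ≤ t / 2 := by
    have h5 : 2 * R / t < n := by linarith
    rw [div_lt_iff₀ ht0] at h5
    rw [div_le_iff₀ hnpos]
    linarith
  have hwt : 2 / (n : ℝ) ≤ t := by
    have h5 : 2 / t < n := by linarith
    rw [div_lt_iff₀ ht0] at h5
    rw [div_le_iff₀ hnpos]
    linarith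
  have htn : 2 ≤ t * n := by
    rwa [div_le_iff₀ hnpos] at hwt
  have hw0 : 0 ≤ 2 / (n : ℝ) := by positivity
  have hsn : 1 ≤ s * n := hτn.trans (mul_le_mul_of_nonneg_right hτs hnpos.le)
  have hkn : k ≤ n := by omega
  have hNle : (NN n : ℝ) ≤ n := by
    have : NN n ≤ n := by unfold NN; omega
    exact_mod_cast this
  have hleN : (n : ℝ) ≤ NN n + 1 := by
    have : n ≤ NN n + 1 := by unfold NN; omega
    exact_mod_cast this
  have hNpos' : 0 < NN n := by unfold NN; omega
  have hNpos : (0 : ℝ) < NN n := by exact_mod_cast hNpos'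
  have hNk : (0 : ℝ) < (NN n : ℝ) ^ k := by positivity
  rcases h1 n k R G s t hG hs0 hs1 hτn hkn (by rw [← hτ]; linarith) with
    h5 | ⟨M, Vg, hM, hVg, hlo, hγ, hγN⟩
  · exfalso
    have h6 := hprod.trans h5
    have h7 := le_of_mul_le_mul_right h6 hNk
    have h8 : Real.exp (-4) < 1 / 27 := by
      have h1 : (2.7 : ℝ) ≤ Real.exp 1 := by
        have := Real.exp_one_gt_d9
        norm_num at this ⊢
        linarith
      have h2 : Real.exp 4 = Real.exp 1 ^ 4 := by
        rw [← Real.exp_nat_mul]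
        norm_num
      have h3 : (27 : ℝ) < Real.exp 4 := by
        rw [h2]
        have h4 := pow_le_pow_left₀ (by norm_num) h1 4
        norm_num at h4 ⊢
        linarith
      rw [Real.exp_neg, inv_eq_one_div]
      exact one_div_lt_one_div_of_lt (by norm_num) h3
    linarith
  rw [← hτ] at hM hlo hγ
  set T : Fin n → Finset (Fin k) := thk G M (τ ^ 2) with hT
  have hTM : ∀ v, T v ⊆ M := by
    intro v j hj
    rw [hT, STU_mem] at hj
    exact hj.1
  have hMK : M.card ≤ K := by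
    have h5 : (M.card : ℝ) ≤ K := hM.trans hK
    exact_mod_cast h5
  have hMKR : (M.card : ℝ) ≤ K := by exact_mod_cast hMK
  have hVpos : (0 : ℝ) < Vg.card := by
    have : 0 < (1 - s) * n := mul_pos (by linarith) hnpos
    linarith
  have hVn : (Vg.card : ℝ) ≤ n := by
    have : Vg.card ≤ n := by simpa using card_le_univ Vg
    exact_mod_cast this
  have hall := h2 (V := Vg) M (fun v => T v.1) (1 / 100) (by
    rw [Fintype.card_coe]
    exact_mod_cast hVpos) (fun v => hTM v.1) (by norm_num) le_rfl (by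
    intro v
    have h5 := Pool.Agent.Work.MP_1ce445_sm.UP3_few n k T Vg s v.1 (hlo v.1 v.2)
    refine h5.trans ?_
    rw [Fintype.card_coe]
    have h6 : (1 / 100 : ℝ) * ((1 - s) * n) ≤ 1 / 100 * Vg.card :=
      mul_le_mul_of_nonneg_left hVg (by norm_num)
    have h7 : s * n ≤ 1 / 10000 * n := mul_le_mul_of_nonneg_right (by linarith) hnpos.le
    linarith)
  set q : Fin k → ℝ := fun j => prU (V := Vg) (fun v => T v.1) j with hq
  have hq' : ∀ j, q j = ((Vg.filter (fun v => j ∈ T v)).card : ℝ) / Vg.card := by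
    intro j
    simp only [hq, prU]
    rw [Pool.Agent.Work.MP_1ce445_sm.UP3_card Vg (fun v => j ∈ T v), Fintype.card_coe]
  have hq0 : ∀ j, 0 ≤ q j := fun j => by
    rw [hq']
    positivity
  have hq1 : ∀ j, q j ≤ 1 := fun j => by
    rw [hq', div_le_one hVpos]
    have h5 : (Vg.filter (fun v => j ∈ T v)).card ≤ Vg.card := card_filter_le _ _
    exact_mod_cast h5
  set p : Fin k → ℝ := fun j => ((univ.filter (fun v => j ∈ T v)).card : ℝ) / n with hp
  have hp1 : ∀ j, p j ≤ 1 := fun j => by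
    simp only [hp]
    rw [div_le_one hnpos]
    have h5 : (univ.filter (fun v => j ∈ T v)).card ≤ n := by
      have h6 := card_filter_le (univ : Finset (Fin n)) (fun v => j ∈ T v)
      simpa using h6
    exact_mod_cast h5
  have hpq : ∀ j, (1 - s) * q j ≤ p j := by
    intro j
    simp only [hp]
    rw [le_div_iff₀ hnpos]
    have h5 : (Vg.filter (fun v => j ∈ T v)).card ≤ (univ.filter (fun v => j ∈ T v)).card :=
      card_le_card (filter_subset_filter _ (subset_univ _))
    have h5' : ((Vg.filter (fun v => j ∈ T v)).card : ℝ) ≤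
        (univ.filter (fun v => j ∈ T v)).card := by
      exact_mod_cast h5
    have h6 : q j * Vg.card = ((Vg.filter (fun v => j ∈ T v)).card : ℝ) := by
      rw [hq', div_mul_cancel₀ _ hVpos.ne']
    have h7 : q j * ((1 - s) * n) ≤ q j * Vg.card := mul_le_mul_of_nonneg_left hVg (hq0 j)
    linarith
  have hpow : ∀ x : ℝ, 0 ≤ x → x ≤ t → ∀ m : ℕ, m ≤ K → (1 + x) ^ m ≤ 1 + e1 := by
    intro x hx hxt m hm
    have h5 : (1 + x) ^ m ≤ (1 + x) ^ K := pow_le_pow_right₀ (by linarith) hm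
    have h6 : (1 + x) ^ K < 1 + e1 := hft x hx hxt
    linarith
  rcases hall with hall | ⟨a, b, c, hab, hac, hbc, haM, hbM, hcM, htwo⟩
  · -- no triangle: contradiction
    exfalso
    have htM : t * M.card ≤ t * K := mul_le_mul_of_nonneg_left hMKR ht0.le
    have hbd := Pool.Agent.Work.MP_1ce445_sm.UP3_bd M p q s t (1 / 27 - 1 / 2000) hs0.le hs1 ht0.le
      hq0 hq1 hpq hp1 hall (by linarith)
    have hadd : ∏ j ∈ M, (1 - p j + t) ≤ 1 / 27 - 1 / 4000 := by
      refine hbd.trans (max_le ?_ ?_)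
      · have h1 : (2.7 : ℝ) ≤ Real.exp 1 := by
          have := Real.exp_one_gt_d9
          norm_num at this ⊢
          linarith
        have h2 : Real.exp 4 = Real.exp 1 ^ 4 := by
          rw [← Real.exp_nat_mul]
          norm_num
        have h3 : (50 : ℝ) ≤ Real.exp 4 := by
          rw [h2]
          have h4 := pow_le_pow_left₀ (by norm_num) h1 4
          norm_num at h4 ⊢
          linarith
        rw [Real.exp_neg]
        have h4 : (Real.exp 4)⁻¹ ≤ (50 : ℝ)⁻¹ := inv_anti₀ (by norm_num) h3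
        refine h4.trans (by norm_num)
      · have h5 := hpow t ht0.le le_rfl M.card hMK
        linarith
    have hin : ∏ j ∈ M, (gammaT (G j) : ℝ) ≤
        (1 / 27 - 1 / 4000) * ((1 + e1) * (NN n : ℝ) ^ M.card) := by
      calc ∏ j ∈ M, (gammaT (G j) : ℝ) ≤ ∏ j ∈ M, ((1 - p j + t) * n) := by
            apply prod_le_prod
            · intro j _
              exact Nat.cast_nonneg _
            · intro j hj
              exact hγ j hj
        _ = (∏ j ∈ M, (1 - p j + t)) * (n : ℝ) ^ M.card := by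
            rw [prod_mul_distrib, prod_const]
        _ ≤ (1 / 27 - 1 / 4000) * (n : ℝ) ^ M.card :=
            mul_le_mul_of_nonneg_right hadd (by positivity)
        _ ≤ (1 / 27 - 1 / 4000) * ((1 + e1) * (NN n : ℝ) ^ M.card) := by
            apply mul_le_mul_of_nonneg_left _ (by norm_num)
            calc (n : ℝ) ^ M.card ≤ ((1 + 2 / n) * NN n) ^ M.card :=
                  pow_le_pow_left₀ hnpos.le (Pool.Agent.Work.MP_1ce445_sm.UP3_NN n hn2) _
              _ = (1 + 2 / (n : ℝ)) ^ M.card * (NN n : ℝ) ^ M.card := mul_pow _ _ _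
              _ ≤ (1 + e1) * (NN n : ℝ) ^ M.card :=
                  mul_le_mul_of_nonneg_right (hpow _ hw0 hwt _ hMK) (by positivity)
    have hout : ∏ j ∈ Mᶜ, (gammaT (G j) : ℝ) ≤ (NN n : ℝ) ^ (Mᶜ).card := by
      rw [← prod_const]
      apply prod_le_prod
      · intro j _
        exact Nat.cast_nonneg _
      · intro j _
        exact_mod_cast hγN j
    have hcard : M.card + (Mᶜ).card = k := by
      have h5 := card_add_card_compl M
      rw [Fintype.card_fin] at h5
      exact h5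
    have hfin : (∏ j, (gammaT (G j) : ℝ)) ≤
        ((1 / 27 - 1 / 4000) * (1 + e1)) * (NN n : ℝ) ^ k := by
      calc (∏ j, (gammaT (G j) : ℝ))
          = (∏ j ∈ M, (gammaT (G j) : ℝ)) * ∏ j ∈ Mᶜ, (gammaT (G j) : ℝ) :=
            (prod_mul_prod_compl M _).symm
        _ ≤ ((1 / 27 - 1 / 4000) * ((1 + e1) * (NN n : ℝ) ^ M.card)) *
              (NN n : ℝ) ^ (Mᶜ).card := by
            apply mul_le_mul hin hout
            · exact prod_nonneg fun j _ => Nat.cast_nonneg _
            · have : (0 : ℝ) ≤ 1 / 27 - 1 / 4000 := by norm_num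
              positivity
        _ = ((1 / 27 - 1 / 4000) * (1 + e1)) * (NN n : ℝ) ^ (M.card + (Mᶜ).card) := by
            rw [pow_add]
            ring
        _ = _ := by rw [hcard]
    have h6 := hprod.trans hfin
    have h7 := le_of_mul_le_mul_right h6 hNk
    linarith
  -- the triangle
  have hcount : ∀ j, ((Vg.filter (fun v => j ∉ T v)).card : ℝ) = (1 - q j) * Vg.card := by
    intro j
    have h4 : ((Vg.filter (fun v => j ∈ T v)).card : ℝ) +
        (Vg.filter (fun v => j ∉ T v)).card = Vg.card := by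
      exact_mod_cast card_filter_add_card_filter_not (s := Vg) (fun v => j ∈ T v)
    rw [hq']
    field_simp
    linarith
  have htri : ∀ v ∈ Vg, (a ∈ T v ∧ b ∈ T v) ∨ (a ∈ T v ∧ c ∈ T v) ∨ (b ∈ T v ∧ c ∈ T v) := by
    intro v hv
    have h5 := htwo ⟨v, hv⟩
    simp only at h5
    by_contra hcon
    have h6 : (T v ∩ {a, b, c}).card ≤ 1 := by
      rw [card_le_one]
      intro x hx y hy
      simp only [mem_inter, mem_insert, mem_singleton] at hx hy
      obtain ⟨hx1, hx2⟩ := hx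
      obtain ⟨hy1, hy2⟩ := hy
      rcases hx2 with rfl | rfl | rfl <;> rcases hy2 with rfl | rfl | rfl <;>
        first
          | rfl
          | (exfalso; apply hcon; tauto)
    omega
  have hall3 : (1 - q a) * Vg.card + (1 - q b) * Vg.card + (1 - q c) * Vg.card +
      ((Vg.filter (fun v => a ∈ T v ∧ b ∈ T v ∧ c ∈ T v)).card : ℝ) = Vg.card := by
    rw [← hcount, ← hcount, ← hcount]
    have h1 : Vg = Vg.filter (fun v => a ∉ T v) ∪ (Vg.filter (fun v => b ∉ T v) ∪
        (Vg.filter (fun v => c ∉ T v) ∪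
          Vg.filter (fun v => a ∈ T v ∧ b ∈ T v ∧ c ∈ T v))) := by
      ext v
      simp only [mem_union, mem_filter]
      tauto
    have h2 : Vg.card = (Vg.filter (fun v => a ∉ T v)).card +
        ((Vg.filter (fun v => b ∉ T v)).card + ((Vg.filter (fun v => c ∉ T v)).card +
          (Vg.filter (fun v => a ∈ T v ∧ b ∈ T v ∧ c ∈ T v)).card)) := by
      rw [← card_union_of_disjoint, ← card_union_of_disjoint, ← card_union_of_disjoint, ← h1]
      · rw [disjoint_left]
        intro v hv hv'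
        simp only [mem_union, mem_filter] at hv hv'
        have := htri v hv.1
        tauto
      · rw [disjoint_left]
        intro v hv hv'
        simp only [mem_union, mem_filter] at hv hv'
        have := htri v hv.1
        tauto
      · rw [disjoint_left]
        intro v hv hv'
        simp only [mem_filter] at hv hv'
        tauto
    have h3 : (Vg.card : ℝ) = (Vg.filter (fun v => a ∉ T v)).card +
        ((Vg.filter (fun v => b ∉ T v)).card + ((Vg.filter (fun v => c ∉ T v)).card +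
          (Vg.filter (fun v => a ∈ T v ∧ b ∈ T v ∧ c ∈ T v)).card)) := by
      exact_mod_cast h2
    rw [h3]; ring
  have hx0 : ∀ j, 0 ≤ 1 - q j := fun j => by have := hq1 j; linarith
  have hsum1 : (1 - q a) + (1 - q b) + (1 - q c) ≤ 1 := by
    have h1 : (0 : ℝ) ≤ ((Vg.filter (fun v => a ∈ T v ∧ b ∈ T v ∧ c ∈ T v)).card : ℝ) :=
      Nat.cast_nonneg _
    have h2 : ((1 - q a) + (1 - q b) + (1 - q c)) * Vg.card ≤ 1 * Vg.card := by linarith
    exact le_of_mul_le_mul_right h2 hVpos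
  set e : Fin 3 → Fin k := ![a, b, c] with he
  obtain ⟨hsplit, hcard3⟩ := STU_split G a b c hab hac hbc
  rw [← he] at hsplit hcard3
  have hoth := STU_oth e hNpos' hγN
  obtain ⟨E, hE⟩ : ∃ E, E = Real.exp (-((sn G e : ℝ) / NN n)) := ⟨_, rfl⟩
  rw [← hE] at hoth
  have hE0 : 0 ≤ E := by rw [hE]; exact (Real.exp_pos _).le
  have hE1 : E ≤ 1 := by
    rw [hE, Real.exp_le_one_iff]
    have : 0 ≤ (sn G e : ℝ) / NN n := by positivity
    linarith
  have hgam3 : ∀ j ∈ M, (gammaT (G j) : ℝ) ≤ ((1 - q j) + (s + t)) * n := by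
    intro j hj
    refine (hγ j hj).trans ?_
    apply mul_le_mul_of_nonneg_right _ hnpos.le
    have h1 := hpq j
    have h2 : s * q j ≤ s * 1 := mul_le_mul_of_nonneg_left (hq1 j) hs0.le
    simp only [hp] at h1
    linarith
  have hreal : 1 / 27 ≤ ((1 - q a) + (s + t)) * ((1 - q b) + (s + t)) * ((1 - q c) + (s + t)) *
      ((1 + e1) * E) := by
    have h1 : (gammaT (G a) * gammaT (G b) * gammaT (G c) : ℝ) ≤
        (((1 - q a) + (s + t)) * n) * (((1 - q b) + (s + t)) * n) * (((1 - q c) + (s + t)) * n) := by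
      apply mul_le_mul _ (hgam3 c hcM) (Nat.cast_nonneg _)
      · have := hx0 a
        have := hx0 b
        positivity
      · exact mul_le_mul (hgam3 a haM) (hgam3 b hbM) (Nat.cast_nonneg _) (by
          have := hx0 a
          positivity)
    have h2 : (n : ℝ) ^ 3 ≤ (1 + e1) * (NN n : ℝ) ^ 3 := by
      by_cases hK3 : 3 ≤ K
      · calc (n : ℝ) ^ 3 ≤ ((1 + 2 / n) * NN n) ^ 3 :=
              pow_le_pow_left₀ hnpos.le (Pool.Agent.Work.MP_1ce445_sm.UP3_NN n hn2) _
          _ = (1 + 2 / (n : ℝ)) ^ 3 * (NN n : ℝ) ^ 3 := mul_pow _ _ _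
          _ ≤ (1 + e1) * (NN n : ℝ) ^ 3 :=
              mul_le_mul_of_nonneg_right (hpow _ hw0 hwt 3 hK3) (by positivity)
      · exfalso
        apply hK3
        have h3 : 3 ≤ M.card := by
          have h4 : ({a, b, c} : Finset (Fin k)).card = 3 := by
            rw [card_insert_of_notMem (by simp [hab, hac]), card_insert_of_notMem (by simp [hbc]),
              card_singleton]
          rw [← h4]
          apply card_le_card
          intro x hx
          simp only [mem_insert, mem_singleton] at hx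
          rcases hx with rfl | rfl | rfl
          · exact haM
          · exact hbM
          · exact hcM
        exact h3.trans hMK
    obtain ⟨X, hX⟩ : ∃ X, X = ((1 - q a) + (s + t)) * ((1 - q b) + (s + t)) *
        ((1 - q c) + (s + t)) := ⟨_, rfl⟩
    have hX0 : 0 ≤ X := by
      rw [hX]
      have := hx0 a
      have := hx0 b
      have := hx0 c
      positivity
    have h3 : (gammaT (G a) * gammaT (G b) * gammaT (G c) : ℝ) ≤ X * ((1 + e1) * (NN n : ℝ) ^ 3) := by
      refine h1.trans ?_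
      have h4 : (((1 - q a) + (s + t)) * n) * (((1 - q b) + (s + t)) * n) *
          (((1 - q c) + (s + t)) * n) = X * (n : ℝ) ^ 3 := by rw [hX]; ring
      rw [h4]
      exact mul_le_mul_of_nonneg_left h2 hX0
    have h4 : 1 / 27 * (NN n : ℝ) ^ k ≤ (X * ((1 + e1) * E)) * (NN n : ℝ) ^ k := by
      refine hprod.trans ?_
      rw [hsplit]
      refine (mul_le_mul h3 hoth (prod_nonneg fun j _ => Nat.cast_nonneg _) (by positivity)).trans
        (le_of_eq ?_)
      have h5 : (NN n : ℝ) ^ k = (NN n : ℝ) ^ 3 * (NN n : ℝ) ^ (oth e).card := by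
        rw [← pow_add]; congr 1; omega
      rw [h5]; ring
    rw [← hX]
    exact le_of_mul_le_mul_right h4 hNk
  have hη1 : ϑ / 200 ≤ 1 / 1000 := by linarith
  obtain ⟨hpr3, hEη⟩ := STU_real (hx0 a) (hx0 b) (hx0 c) hsum1 (u := s + t) (e1 := e1) (E := E)
    (η := ϑ / 200) (by positivity) (by linarith) he0.le hE0 (by linarith) hη1 hreal hE1
  obtain ⟨ha4, hs27, _⟩ := three_real (hx0 a) (hx0 b) (hx0 c) hsum1 hη1 hpr3
  obtain ⟨hb4, _, _⟩ := three_real (hx0 b) (hx0 a) (hx0 c) (by linarith) hη1 (by linarith)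
  obtain ⟨hc4, _, _⟩ := three_real (hx0 c) (hx0 a) (hx0 b) (by linarith) hη1 (by linarith)
  -- the sum of the deficits
  have hsnb : (sn G e : ℝ) ≤ ϑ / 3 * n := by
    have h1 : (sn G e : ℝ) / NN n ≤ ϑ / 3 := by
      have h2 := Real.add_one_le_exp ((sn G e : ℝ) / NN n)
      have h3 : E * Real.exp ((sn G e : ℝ) / NN n) = 1 := by
        rw [hE, ← Real.exp_add]; simp
      have h4 : E * ((sn G e : ℝ) / NN n + 1) ≤ 1 := by
        have := mul_le_mul_of_nonneg_left h2 hE0
        linarith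
      have h5 : 0 ≤ (sn G e : ℝ) / NN n := by positivity
      have h6 : (1 - 27 * (ϑ / 200)) * ((sn G e : ℝ) / NN n + 1) ≤
          E * ((sn G e : ℝ) / NN n + 1) := mul_le_mul_of_nonneg_right hEη (by linarith)
      have h7 : 27 * (ϑ / 200) * ((sn G e : ℝ) / NN n) ≤
          1 / 100 * ((sn G e : ℝ) / NN n) := mul_le_mul_of_nonneg_right (by linarith) h5
      linarith
    rw [div_le_iff₀ hNpos] at h1
    have h2 : ϑ / 3 * (NN n : ℝ) ≤ ϑ / 3 * n := mul_le_mul_of_nonneg_left hNle (by positivity)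
    linarith
  have hbig : ∀ j ∈ M, 1 / 4 ≤ 1 - q j → (n : ℝ) / 5 ≤ ((low (G j) θ).card : ℝ) := by
    intro j hjM hj
    have h1 : Vg.filter (fun v => j ∉ T v) ⊆ low (G j) θ := by
      intro v hv
      have hv2 := (mem_filter.1 hv).2
      unfold low
      rw [mem_filter]
      refine ⟨mem_univ _, ?_⟩
      by_contra hcon
      push Not at hcon
      apply hv2
      rw [hT, STU_mem]
      refine ⟨hjM, ?_⟩
      have : τ ^ 2 * n ≤ θ * n := mul_le_mul_of_nonneg_right hτ2 hnpos.le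
      linarith
    have h2 : ((Vg.filter (fun v => j ∉ T v)).card : ℝ) ≤ ((low (G j) θ).card : ℝ) := by
      exact_mod_cast card_le_card h1
    rw [hcount] at h2
    have h3 : 1 / 4 * (Vg.card : ℝ) ≤ (1 - q j) * Vg.card :=
      mul_le_mul_of_nonneg_right hj hVpos.le
    have h4 : s * n ≤ 1 / 10000 * n := mul_le_mul_of_nonneg_right (by linarith) hnpos.le
    linarith
  have hthird : ∀ j ∈ M, 1 / 3 - σ / 2 ≤ 1 - q j → (1 / 3 - σ) * n ≤ ((low (G j) θ).card : ℝ) := by
    intro j hjM hj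
    have h1 : Vg.filter (fun v => j ∉ T v) ⊆ low (G j) θ := by
      intro v hv
      have hv2 := (mem_filter.1 hv).2
      unfold low
      rw [mem_filter]
      refine ⟨mem_univ _, ?_⟩
      by_contra hcon
      push Not at hcon
      apply hv2
      rw [hT, STU_mem]
      refine ⟨hjM, ?_⟩
      have : τ ^ 2 * n ≤ θ * n := mul_le_mul_of_nonneg_right hτ2 hnpos.le
      linarith
    have h2 : ((Vg.filter (fun v => j ∉ T v)).card : ℝ) ≤ ((low (G j) θ).card : ℝ) := by
      exact_mod_cast card_le_card h1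
    rw [hcount] at h2
    have h3 : (1 / 3 - σ / 2) * (Vg.card : ℝ) ≤ (1 - q j) * Vg.card :=
      mul_le_mul_of_nonneg_right hj hVpos.le
    have h4 : (1 / 3 - σ / 2) * ((1 - s) * n) ≤ (1 / 3 - σ / 2) * Vg.card :=
      mul_le_mul_of_nonneg_left hVg (by linarith)
    have h5 : (1 / 3 - σ) * n ≤ (1 / 3 - σ / 2) * ((1 - s) * n) := by
      have h7 : s ≤ σ / 2 := by
        have h8 : σ ^ 2 ≤ σ := STP_sq hσ.le (by linarith)
        linarith
      have h6 : (1 / 3 - σ) ≤ (1 / 3 - σ / 2) * (1 - s) := STP_num hσ.le hs0.le h7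
      have h9 := mul_le_mul_of_nonneg_right h6 hnpos.le
      rw [mul_assoc] at h9
      exact h9
    linarith
  have hrst : ((univ.filter (fun v => ∀ i, v ∉ low (G (e i)) θ)).card : ℝ) ≤ θ / 2 * n := by
    have h1 : (univ.filter (fun v => ∀ i, v ∉ low (G (e i)) θ)) ⊆
        (univ \ Vg) ∪ Vg.filter (fun v => a ∈ T v ∧ b ∈ T v ∧ c ∈ T v) := by
      intro v hv
      have hv2 := (mem_filter.1 hv).2
      have h2 : ∀ j ∈ M, v ∉ low (G j) θ → j ∈ T v := by
        intro j hjM hj
        unfold low at hj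
        rw [mem_filter] at hj
        push Not at hj
        have h3 := hj (mem_univ _)
        rw [hT, STU_mem]
        refine ⟨hjM, ?_⟩
        have : τ ^ 2 * n ≤ θ * n := mul_le_mul_of_nonneg_right hτ2 hnpos.le
        linarith
      rw [mem_union]
      by_cases hvS : v ∈ Vg
      · right
        rw [mem_filter]
        exact ⟨hvS, h2 a haM (hv2 0), h2 b hbM (hv2 1), h2 c hcM (hv2 2)⟩
      · left
        simp [hvS]
    have h2 := (card_le_card h1).trans (card_union_le _ _)
    have h3 : (univ \ Vg).card + Vg.card = n := by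
      have := card_sdiff_add_card_eq_card (subset_univ Vg)
      rw [card_univ, Fintype.card_fin] at this
      exact this
    have h4 : ((univ \ Vg).card : ℝ) + Vg.card = n := by exact_mod_cast h3
    have h5 : ((univ.filter (fun v => ∀ i, v ∉ low (G (e i)) θ)).card : ℝ) ≤
        (univ \ Vg).card + (Vg.filter (fun v => a ∈ T v ∧ b ∈ T v ∧ c ∈ T v)).card := by
      exact_mod_cast h2
    refine h5.trans ?_
    have h6 : ((Vg.filter (fun v => a ∈ T v ∧ b ∈ T v ∧ c ∈ T v)).card : ℝ) ≤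
        27 * (ϑ / 200) * n := by
      have h7 : ((Vg.filter (fun v => a ∈ T v ∧ b ∈ T v ∧ c ∈ T v)).card : ℝ) =
          (1 - ((1 - q a) + (1 - q b) + (1 - q c))) * Vg.card := by linarith
      rw [h7]
      have h8 : (1 - ((1 - q a) + (1 - q b) + (1 - q c))) * (Vg.card : ℝ) ≤
          27 * (ϑ / 200) * Vg.card := mul_le_mul_of_nonneg_right (by linarith) hVpos.le
      have h9 : 27 * (ϑ / 200) * (Vg.card : ℝ) ≤ 27 * (ϑ / 200) * n :=
        mul_le_mul_of_nonneg_left hVn (by positivity)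
      linarith
    have h8 : s * n ≤ θ / 10000 * n := mul_le_mul_of_nonneg_right hsθ hnpos.le
    have h9 : 0 ≤ θ * n := by positivity
    have h10 : ϑ * n ≤ θ * n := mul_le_mul_of_nonneg_right hϑθ hnpos.le
    linarith
  have hθn : 0 ≤ θ * n := by positivity
  have hinj : Function.Injective e := by
    intro i j hij
    simp only [he] at hij
    fin_cases i <;> fin_cases j <;> simp_all
  have hϑn : ϑ * n ≤ θ * n := mul_le_mul_of_nonneg_right hϑθ hnpos.le
  have hϑn2 : ϑ / 3 * n ≤ 1 / 3000 * n := mul_le_mul_of_nonneg_right (by linarith) hnpos.le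
  have hsn3000 : (sn G e : ℝ) ≤ 1 / 3000 * n := hsnb.trans hϑn2
  have hd1 : ∀ i j v, i ≠ j → v ∈ low (G (e i)) θ → v ∉ low (G (e j)) θ := by
    intro i j v hij hvi hvj
    exact STP_dis hDG G hG e hinj θ hθ1 hnge hkR hγN hprod hleN hsn3000 i j v hij hvi hvj
  refine ⟨e, ⟨⟨hn0, hG, hinj, hθ, hθ1, ?_, ?_, ?_⟩, hγN, hσ, hσ1, ?_, ?_, hd1, hkR⟩⟩
  · intro i
    fin_cases i
    · exact hbig a haM ha4
    · exact hbig b hbM hb4
    · exact hbig c hcM hc4
  · intro l hl
    have hlo : l ∈ oth e := by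
      unfold oth
      rw [mem_filter]
      exact ⟨mem_univ _, hl⟩
    have h1 : NN n - gammaT (G l) ≤ sn G e := by
      unfold sn
      exact single_le_sum (f := fun l => NN n - gammaT (G l)) (fun _ _ => Nat.zero_le _) hlo
    have h2 : NN n ≤ gammaT (G l) + sn G e := by omega
    have h3 : (NN n : ℝ) ≤ gammaT (G l) + sn G e := by exact_mod_cast h2
    have h4 : t * n ≤ θ / 10000 * n := mul_le_mul_of_nonneg_right htθ hnpos.le
    linarith
  · linarith
  · have h8 : σ ^ 2 ≤ σ := STP_sq hσ.le (by linarith)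
    have h9 : ϑ / 3 * n ≤ σ * n := mul_le_mul_of_nonneg_right (by linarith) hnpos.le
    linarith
  · intro i
    fin_cases i
    · exact hthird a haM (STP_third (hx0 a) (hx0 b) (hx0 c) hsum1 hσ hϑσ hpr3)
    · exact hthird b hbM (STP_third (hx0 b) (hx0 a) (hx0 c) (by linarith) hσ hϑσ (by linarith))
    · exact hthird c hcM (STP_third (hx0 c) (hx0 a) (hx0 b) (by linarith) hσ hϑσ (by linarith))

end Pool.Agent.Work.MP_1ce445_pl3
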