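import Pool.Agent.Work.MP_1ce445_pl3.Interface
import Pool.Agent.Work.MP_1ce445_fx.TAU

/-!
Block TA2 of the first plateau (upper half).
-/

namespace Pool.Agent.Work.MP_1ce445_pl3

open Finset Pool.Agent.Work.MP_1ce445_co_56 Pool.Agent.Work.MP_1ce445_lin
  Pool.Agent.Work.MP_1ce445_fx

open Classical in
lemma TA2_cover {n k : ℕ} {G : Fin k → SimpleGraph (Fin n)} (hG : IsFactorization G)
    (e : Fin 3 → Fin k) (Y : Finset (Fin n)) (v : Fin n) (j : Fin 3) :
    Y.card ≤ (if v ∈ Y then 1 else 0) + dg (G (e j)) Y v + dg (G (e (j + 1))) Y v +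
      dg (G (e (j + 2))) Y v + ∑ l ∈ oth e, dg (G l) Y v := by
  have hs : Y ⊆ (((Y.filter (fun w => w = v) ∪ Y.filter (fun w => (G (e j)).Adj v w)) ∪
      Y.filter (fun w => (G (e (j + 1))).Adj v w)) ∪
      Y.filter (fun w => (G (e (j + 2))).Adj v w)) ∪
      (oth e).biUnion (fun l => Y.filter (fun w => (G l).Adj v w)) := by
    intro w hw
    by_cases hvw : v = w
    · apply mem_union_left
      apply mem_union_left
      apply mem_union_left
      exact mem_union_left _ (mem_filter.2 ⟨hw, hvw.symm⟩)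
    · obtain ⟨l, hl⟩ := hG.cover v w hvw
      by_cases ho : l ∈ oth e
      · exact mem_union_right _ (mem_biUnion.2 ⟨l, ho, mem_filter.2 ⟨hw, hl⟩⟩)
      · simp only [oth, mem_filter, mem_univ, true_and, not_forall, not_not] at ho
        obtain ⟨i, rfl⟩ := ho
        have h3 : i = j ∨ i = j + 1 ∨ i = j + 2 := TAU_fin i j
        apply mem_union_left
        rcases h3 with rfl | rfl | rfl
        · exact mem_union_left _ (mem_union_left _ (mem_union_right _ (mem_filter.2 ⟨hw, hl⟩)))
        · exact mem_union_left _ (mem_union_right _ (mem_filter.2 ⟨hw, hl⟩))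
        · exact mem_union_right _ (mem_filter.2 ⟨hw, hl⟩)
  have h1 := card_le_card hs
  have h2 := card_union_le (((Y.filter (fun w => w = v) ∪
      Y.filter (fun w => (G (e j)).Adj v w)) ∪
      Y.filter (fun w => (G (e (j + 1))).Adj v w)) ∪
      Y.filter (fun w => (G (e (j + 2))).Adj v w))
      ((oth e).biUnion (fun l => Y.filter (fun w => (G l).Adj v w)))
  have h3 := card_union_le ((Y.filter (fun w => w = v) ∪
      Y.filter (fun w => (G (e j)).Adj v w)) ∪
      Y.filter (fun w => (G (e (j + 1))).Adj v w))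
      (Y.filter (fun w => (G (e (j + 2))).Adj v w))
  have h4 := card_union_le (Y.filter (fun w => w = v) ∪
      Y.filter (fun w => (G (e j)).Adj v w))
      (Y.filter (fun w => (G (e (j + 1))).Adj v w))
  have h5 := card_union_le (Y.filter (fun w => w = v))
      (Y.filter (fun w => (G (e j)).Adj v w))
  have h6 : ((oth e).biUnion (fun l => Y.filter (fun w => (G l).Adj v w))).card ≤
      ∑ l ∈ oth e, (Y.filter (fun w => (G l).Adj v w)).card := card_biUnion_le
  have h7 : (Y.filter (fun w => w = v)).card ≤ if v ∈ Y then 1 else 0 := by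
    rw [Finset.filter_eq']
    split_ifs <;> simp
  unfold Pool.Agent.Work.MP_1ce445_fx.dg
  omega

theorem stmt_TA2 : Stmt_TA2 := by
  intro n k G e θ hS j v
  have hn : (0:ℝ) < n := by exact_mod_cast hS.pos
  have hY : (0:ℝ) < ((low (G (e j)) θ).card : ℝ) :=
    lt_of_lt_of_le (by positivity) (hS.big j)
  have h3 := TA2_cover hS.fac e (low (G (e j)) θ) v j
  have h3' : ((low (G (e j)) θ).card : ℝ) ≤ (if v ∈ low (G (e j)) θ then 1 else 0) +
      dg (G (e j)) (low (G (e j)) θ) v +
      dg (G (e (j + 1))) (low (G (e j)) θ) v + dg (G (e (j + 2))) (low (G (e j)) θ) v +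
      ∑ l ∈ oth e, (dg (G l) (low (G (e j)) θ) v : ℝ) := by
    exact_mod_cast h3
  have hta : ta G e θ j v = 1 - ((dg (G (e (j + 1))) (low (G (e j)) θ) v : ℝ) +
      dg (G (e (j + 2))) (low (G (e j)) θ) v) / ((low (G (e j)) θ).card : ℝ) := by
    unfold ta A nf
    ring
  rw [hta, sub_mul, div_mul_cancel₀ _ hY.ne', one_mul]
  linarith

end Pool.Agent.Work.MP_1ce445_pl3
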