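import Pool.Agent.Work.MP_1ce445_pl3.Interface

/-!
TSV (MP_1ce445_co, first plateau, upper half): copy of TSM with a bound on all degrees.
-/

namespace Pool.Agent.Work.MP_1ce445_pl3

open Finset Pool.Agent.Work.MP_1ce445_co_56 Pool.Agent.Work.MP_1ce445_lin
  Pool.Agent.Work.MP_1ce445_fx

lemma TSV_pow (m : ℕ) (a b c : ℝ) (ha : 0 ≤ a) (hb : 0 ≤ b) (hc : 0 ≤ c) :
    (a + b + c) ^ m ≤ 3 ^ m * (a ^ m + b ^ m + c ^ m) := by
  have h1 : (a + b + c) ≤ 3 * max a (max b c) := by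
    have h2 := le_max_left a (max b c)
    have h3 := le_max_right a (max b c)
    have h4 := le_max_left b c
    have h5 := le_max_right b c
    linarith
  have h6 : (max a (max b c)) ^ m ≤ a ^ m + b ^ m + c ^ m := by
    have pa : 0 ≤ a ^ m := by positivity
    have pb : 0 ≤ b ^ m := by positivity
    have pc : 0 ≤ c ^ m := by positivity
    rcases max_choice a (max b c) with h | h
    · rw [h]
      linarith
    · rw [h]
      rcases max_choice b c with h' | h'
      · rw [h']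
        linarith
      · rw [h']
        linarith
  calc (a + b + c) ^ m ≤ (3 * max a (max b c)) ^ m := pow_le_pow_left₀ (by positivity) h1 m
    _ = 3 ^ m * (max a (max b c)) ^ m := by rw [mul_pow]
    _ ≤ 3 ^ m * (a ^ m + b ^ m + c ^ m) := by gcongr

theorem stmt_TSV (hTAU : Stmt_TAU) (hSQM : Stmt_SQM) : Stmt_TSV := by
  intro m n k Δ G e θ hm hS hd
  have hsit := hS.sit
  have hn : (0 : ℝ) < n := by exact_mod_cast hsit.pos
  obtain ⟨-, hta⟩ := hTAU n k G e θ hsit
  have hsq := hSQM m n k G e θ (by omega) hS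
  set D : Fin n → ℝ := fun v => ∑ l ∈ oth e, (dg (G l) univ v : ℝ) with hD
  have hD0 : ∀ v, 0 ≤ D v := fun v => Finset.sum_nonneg fun l _ => by positivity
  -- one vertex
  have h1 : ∀ v i, ta G e θ i v ^ m ≤ (15 / (n : ℝ)) ^ m *
      (1 + (dg (G (e i)) (low (G (e i)) θ) v : ℝ) ^ m + D v ^ m) := by
    intro v i
    obtain ⟨h0, h01, h2⟩ := hta i v
    have hb := hsit.big i
    have h3 : ta G e θ i v ≤ 5 / n * (1 + (dg (G (e i)) (low (G (e i)) θ) v : ℝ) + D v) := by
      have h4 : ta G e θ i v * (n / 5) ≤ 1 + (dg (G (e i)) (low (G (e i)) θ) v : ℝ) + D v :=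
        (mul_le_mul_of_nonneg_left hb h0).trans h2
      rw [div_mul_eq_mul_div, le_div_iff₀ hn]
      linarith
    calc ta G e θ i v ^ m ≤ (5 / n * (1 + (dg (G (e i)) (low (G (e i)) θ) v : ℝ) + D v)) ^ m :=
          pow_le_pow_left₀ h0 h3 m
      _ = (5 / n) ^ m * (1 + (dg (G (e i)) (low (G (e i)) θ) v : ℝ) + D v) ^ m := by rw [mul_pow]
      _ ≤ (5 / n) ^ m * (3 ^ m * (1 ^ m + (dg (G (e i)) (low (G (e i)) θ) v : ℝ) ^ m + D v ^ m)) := by
          gcongr
          exact TSV_pow m _ _ _ (by norm_num) (by positivity) (hD0 v)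
      _ = (15 / (n : ℝ)) ^ m * (1 + (dg (G (e i)) (low (G (e i)) θ) v : ℝ) ^ m + D v ^ m) := by
          rw [one_pow, ← mul_assoc, ← mul_pow]
          congr 2
          ring
  have h15 : (0 : ℝ) ≤ (15 / (n : ℝ)) ^ m := by positivity
  -- the sum
  have h2 : ∑ v, ∑ i, ta G e θ i v ^ m ≤ (15 / (n : ℝ)) ^ m *
      (3 * n + ∑ i, ∑ v, (dg (G (e i)) (low (G (e i)) θ) v : ℝ) ^ m + 3 * ∑ v, D v ^ m) := by
    calc ∑ v, ∑ i, ta G e θ i v ^ m ≤ ∑ v, ∑ i, (15 / (n : ℝ)) ^ m *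
          (1 + (dg (G (e i)) (low (G (e i)) θ) v : ℝ) ^ m + D v ^ m) :=
          Finset.sum_le_sum fun v _ => Finset.sum_le_sum fun i _ => h1 v i
      _ = (15 / (n : ℝ)) ^ m *
      (3 * n + ∑ i, ∑ v, (dg (G (e i)) (low (G (e i)) θ) v : ℝ) ^ m + 3 * ∑ v, D v ^ m) := by
          simp only [← Finset.mul_sum]
          congr 1
          simp only [Finset.sum_add_distrib]
          rw [Finset.sum_comm (s := (univ : Finset (Fin n))) (t := (univ : Finset (Fin 3)))
            (f := fun v i => (dg (G (e i)) (low (G (e i)) θ) v : ℝ) ^ m)]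
          simp only [Finset.sum_const, Finset.card_univ, Fintype.card_fin, nsmul_eq_mul,
            ← Finset.mul_sum]
          push_cast
          ring
  have h3 : ∑ v, D v ^ m ≤ 2 ^ m * ((k : ℝ) ^ m * n + 6 * ((k : ℝ) + sn G e) ^ (m - 1) *
      (k + (sn G e : ℝ) ^ 2)) := hsq
  have h4 : ∑ i, ∑ v, (dg (G (e i)) (low (G (e i)) θ) v : ℝ) ^ m ≤ 3 * n * (Δ : ℝ) ^ m := by
    calc ∑ i : Fin 3, ∑ v : Fin n, (dg (G (e i)) (low (G (e i)) θ) v : ℝ) ^ m ≤
        ∑ i : Fin 3, ∑ v : Fin n, (Δ : ℝ) ^ m := by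
          refine Finset.sum_le_sum fun i _ => Finset.sum_le_sum fun v _ => ?_
          refine pow_le_pow_left₀ (by positivity) ?_ m
          exact_mod_cast hd i v
      _ = 3 * n * (Δ : ℝ) ^ m := by
          simp
          ring
  refine h2.trans ?_
  refine mul_le_mul_of_nonneg_left ?_ h15
  linarith

end Pool.Agent.Work.MP_1ce445_pl3
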