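import Pool.Agent.Work.MP_1ce445_pl3.Interface

set_option autoImplicit false

namespace Pool.Agent.Work.MP_1ce445_pl3

open Finset Pool.Agent.Work.MP_1ce445_co_56 Pool.Agent.Work.MP_1ce445_lin
  Pool.Agent.Work.MP_1ce445_fx

/-- the last term -/
theorem UNR_last {N K S u w : ℝ} {j : ℕ} (hj : 1 ≤ j) (hN : 1 ≤ N) (hK : 1 ≤ K) (hS : 0 ≤ S)
    (hu : u = 60 * K / N) (hw : w = 60 * S / N) (hKN : K ≤ N / 100000000)
    (hSN : S ≤ N / 100000000) :
    18 * (30 / N) ^ (j + 1) * (K + S) ^ j * (K + S ^ 2) ≤ 9 * N * u ^ (j + 1) + S / 100 := by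
  have hN0 : 0 < N := by linarith
  have hu0 : 0 ≤ u := by rw [hu]; positivity
  have hw0 : 0 ≤ w := by rw [hw]; positivity
  have hu1 : u ≤ 60 / 100000000 := by
    rw [hu, div_le_iff₀ hN0]; linarith
  have hw1 : w ≤ 60 / 100000000 := by
    rw [hw, div_le_iff₀ hN0]; linarith
  have huj : u ^ j ≤ u := by
    calc u ^ j ≤ u ^ 1 := pow_le_pow_of_le_one hu0 (by linarith) hj
      _ = u := pow_one u
  have hwj : w ^ j ≤ w := by
    calc w ^ j ≤ w ^ 1 := pow_le_pow_of_le_one hw0 (by linarith) hj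
      _ = w := pow_one w
  have hpu : 0 ≤ u ^ j := pow_nonneg hu0 j
  have hpw : 0 ≤ w ^ j := pow_nonneg hw0 j
  have h1 : (30 / N * (K + S)) ^ j ≤ u ^ j + w ^ j := by
    have e : 30 / N * (K + S) = (u + w) / 2 := by rw [hu, hw]; ring
    rw [e]
    rcases le_total u w with h | h
    · have : ((u + w) / 2) ^ j ≤ w ^ j := pow_le_pow_left₀ (by linarith) (by linarith) j
      linarith
    · have : ((u + w) / 2) ^ j ≤ u ^ j := pow_le_pow_left₀ (by linarith) (by linarith) j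
      linarith
  have h2 : 18 * (30 / N) ^ (j + 1) * (K + S) ^ j * (K + S ^ 2) =
      540 / N * (30 / N * (K + S)) ^ j * (K + S ^ 2) := by
    rw [mul_pow, pow_succ]; ring
  have hSS : S ^ 2 / N ≤ S / 100000000 := by
    rw [div_le_iff₀ hN0]
    nlinarith
  have hSS0 : 0 ≤ S ^ 2 / N := by positivity
  have hKK : K / N ≤ 1 / 100000000 := by
    rw [div_le_iff₀ hN0]; linarith
  have hKK0 : 0 ≤ K / N := by positivity
  have hSN' : S / N ≤ S := div_le_self hS hN
  have ha : 540 * (u ^ j * (K / N)) = 9 * u ^ (j + 1) := by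
    rw [pow_succ, hu]; ring
  have hb : u ^ j * (S ^ 2 / N) ≤ (60 / 100000000) * (S / 100000000) :=
    mul_le_mul (huj.trans hu1) hSS hSS0 (by norm_num)
  have hd : w ^ j * (S ^ 2 / N) ≤ (60 / 100000000) * (S / 100000000) :=
    mul_le_mul (hwj.trans hw1) hSS hSS0 (by norm_num)
  have hc : w ^ j * (K / N) ≤ 60 * S * (1 / 100000000) := by
    apply mul_le_mul _ hKK hKK0 (by positivity)
    refine hwj.trans ?_
    rw [hw]
    calc 60 * S / N = 60 * (S / N) := by ring
      _ ≤ 60 * S := by linarith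
  have hN1 : 9 * u ^ (j + 1) ≤ 9 * N * u ^ (j + 1) := by
    have : 0 ≤ u ^ (j + 1) := by positivity
    nlinarith
  rw [h2]
  calc 540 / N * (30 / N * (K + S)) ^ j * (K + S ^ 2)
      ≤ 540 / N * (u ^ j + w ^ j) * (K + S ^ 2) := by
        apply mul_le_mul_of_nonneg_right _ (by positivity)
        exact mul_le_mul_of_nonneg_left h1 (by positivity)
    _ = 540 * (u ^ j * (K / N)) + 540 * (u ^ j * (S ^ 2 / N)) + 540 * (w ^ j * (K / N)) +
        540 * (w ^ j * (S ^ 2 / N)) := by ring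
    _ ≤ _ := by
        rw [ha]
        linarith

theorem stmt_UNR : Stmt_UNR := by
  intro C' hC'
  refine ⟨1 / 100000000, 1080 * C', by norm_num, by linarith, ?_⟩
  intro n k σ m Δ hn hk hkn hσn hm hΔ
  obtain ⟨j, rfl⟩ : ∃ j, m = j + 1 := ⟨m - 1, by omega⟩
  have hj : 1 ≤ j := by omega
  rw [Nat.add_sub_cancel]
  have hN : (1 : ℝ) ≤ n := by exact_mod_cast hn
  have hK : (1 : ℝ) ≤ k := by exact_mod_cast hk
  have hS : (0 : ℝ) ≤ σ := Nat.cast_nonneg σ
  have hD : (0 : ℝ) ≤ Δ := Nat.cast_nonneg Δ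
  generalize (n : ℝ) = N at *
  generalize (k : ℝ) = K at *
  generalize (σ : ℝ) = S at *
  generalize (Δ : ℝ) = D at *
  have hN0 : 0 < N := by linarith
  have hlast := UNR_last (u := 60 * K / N) (w := 60 * S / N) hj hN hK hS rfl rfl
    (by linarith) (by linarith)
  set u := 60 * K / N with hu
  have hu0 : 0 ≤ u := by positivity
  have hX0 : 0 ≤ C' * u := by positivity
  have huC : u ≤ C' * u := by nlinarith
  have hup : u ^ (j + 1) ≤ (C' * u) ^ (j + 1) := pow_le_pow_left₀ hu0 huC _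
  have t1 : (15 / N) ^ (j + 1) ≤ (C' * u) ^ (j + 1) := by
    apply pow_le_pow_left₀ (by positivity)
    refine le_trans ?_ huC
    rw [hu]
    exact div_le_div_of_nonneg_right (by linarith) hN0.le
  have t2 : (15 / N) ^ (j + 1) * D ^ (j + 1) ≤ (C' * u) ^ (j + 1) := by
    rw [← mul_pow]
    apply pow_le_pow_left₀ (by positivity)
    have e : C' * u = 60 / N * (C' * K) := by rw [hu]; ring
    rw [e]
    apply mul_le_mul _ hΔ hD (by positivity)
    exact div_le_div_of_nonneg_right (by norm_num) hN0.le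
  have t3 : (30 / N) ^ (j + 1) * K ^ (j + 1) ≤ (C' * u) ^ (j + 1) := by
    rw [← mul_pow]
    apply pow_le_pow_left₀ (by positivity)
    refine le_trans ?_ huC
    rw [hu]
    have e : 30 / N * K = 30 * K / N := by ring
    rw [e]
    exact div_le_div_of_nonneg_right (by linarith) hN0.le
  have h15 : (15 / N) ^ (j + 1) * 2 ^ (j + 1) = (30 / N) ^ (j + 1) := by
    rw [← mul_pow]; congr 1; ring
  have hlhs : (15 / N) ^ (j + 1) * (3 * N + 3 * N * D ^ (j + 1) +
      3 * 2 ^ (j + 1) * (K ^ (j + 1) * N + 6 * (K + S) ^ j * (K + S ^ 2))) =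
      3 * N * (15 / N) ^ (j + 1) + 3 * N * ((15 / N) ^ (j + 1) * D ^ (j + 1)) +
      3 * N * ((30 / N) ^ (j + 1) * K ^ (j + 1)) +
      18 * (30 / N) ^ (j + 1) * (K + S) ^ j * (K + S ^ 2) := by
    rw [← h15]; ring
  have hfin : 18 * N * (C' * u) ^ (j + 1) ≤ N * (1080 * C' * K / N) ^ (j + 1) := by
    have e : 1080 * C' * K / N = 18 * (C' * u) := by rw [hu]; ring
    rw [e, mul_pow 18 (C' * u)]
    have h18 : (18 : ℝ) ≤ 18 ^ (j + 1) := le_self_pow₀ (by norm_num) (by omega)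
    have hp : 0 ≤ (C' * u) ^ (j + 1) := by positivity
    calc 18 * N * (C' * u) ^ (j + 1) = N * (18 * (C' * u) ^ (j + 1)) := by ring
      _ ≤ N * (18 ^ (j + 1) * (C' * u) ^ (j + 1)) :=
          mul_le_mul_of_nonneg_left (mul_le_mul_of_nonneg_right h18 hp) hN0.le
  rw [hlhs]
  have a1 := mul_le_mul_of_nonneg_left t1 (by positivity : 0 ≤ 3 * N)
  have a2 := mul_le_mul_of_nonneg_left t2 (by positivity : 0 ≤ 3 * N)
  have a3 := mul_le_mul_of_nonneg_left t3 (by positivity : 0 ≤ 3 * N)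
  have a4 := mul_le_mul_of_nonneg_left hup (by positivity : 0 ≤ 9 * N)
  linarith

end Pool.Agent.Work.MP_1ce445_pl3
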