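import Pool.Agent.Work.MP_1ce445_pl3.Interface

/-!
Block UNV: uniform estimate, combination of SMM, TSV, ADX and UNR.
-/

namespace Pool.Agent.Work.MP_1ce445_pl3

open Finset Pool.Agent.Work.MP_1ce445_co_56 Pool.Agent.Work.MP_1ce445_lin
  Pool.Agent.Work.MP_1ce445_fx

theorem UNV_RM {n k σ : ℕ} {C : ℝ} (hn : (0 : ℝ) < n)
    (h : (15 / (n : ℝ)) ^ 2 * (3 * n + 3 * n * ((1 : ℕ) : ℝ) ^ 2 +
      3 * 2 ^ 2 * ((k : ℝ) ^ 2 * n + 6 * ((k : ℝ) + σ) ^ (2 - 1) * (k + (σ : ℝ) ^ 2))) ≤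
      n * (C * k / n) ^ 2 + σ / 100) :
    RM 2 n k σ ≤ C ^ 2 * ((k : ℝ) ^ 2 / n) + σ / 100 := by
  have h1 : RM 2 n k σ = (15 / (n : ℝ)) ^ 2 * (3 * n + 3 * n * ((1 : ℕ) : ℝ) ^ 2 +
      3 * 2 ^ 2 * ((k : ℝ) ^ 2 * n + 6 * ((k : ℝ) + σ) ^ (2 - 1) * (k + (σ : ℝ) ^ 2))) := by
    unfold RM
    push_cast
    ring
  have h2 : n * (C * k / n) ^ 2 = C ^ 2 * ((k : ℝ) ^ 2 / n) := by
    field_simp
  rw [h1, ← h2]
  exact h

theorem stmt_UNV : Stmt_SMM → Stmt_TSV → Stmt_ADX → Stmt_UNR → Stmt_UNV := by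
  intro hSMM hTSV hADX hUNR
  obtain ⟨θ₁, C₁, hθ₁, hC₁, h1⟩ := hUNR 1 le_rfl
  obtain ⟨K, hK⟩ : ∃ K : ℝ, K = C₁ ^ 2 := ⟨_, rfl⟩
  have hK1 : 1 ≤ K := by
    rw [hK]
    nlinarith
  obtain ⟨θ₂, C₂, hθ₂, hC₂, h2⟩ := hUNR (2 * K + 2) (by linarith)
  obtain ⟨θ, hθ⟩ : ∃ θ : ℝ, θ = min (min θ₁ θ₂) (1 / 22500) := ⟨_, rfl⟩
  have hθ0 : 0 < θ := by rw [hθ]; exact lt_min (lt_min hθ₁ hθ₂) (by norm_num)
  have hθa : θ ≤ θ₁ := by rw [hθ]; exact le_trans (min_le_left _ _) (min_le_left _ _)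
  have hθb : θ ≤ θ₂ := by rw [hθ]; exact le_trans (min_le_left _ _) (min_le_right _ _)
  have hθc : θ ≤ 1 / 22500 := by rw [hθ]; exact min_le_right _ _
  refine ⟨θ, C₂, hθ0, by linarith [show (1 : ℝ) / 22500 ≤ 1 / 1000 by norm_num], hC₂, ?_⟩
  intro n k m G e hm hS
  have hn' : 0 < n := hS.sit.pos
  have hn : (0 : ℝ) < n := by exact_mod_cast hn'
  have hk3 : 3 ≤ k := by
    have := Fintype.card_le_of_injective e hS.sit.inj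
    simpa using this
  have hk1 : 1 ≤ k := by omega
  have hkr : (1 : ℝ) ≤ k := by exact_mod_cast hk1
  have hkθ := hS.kn
  have hσθ := hS.def'
  have hka : (k : ℝ) ≤ θ₁ * n := hkθ.trans (mul_le_mul_of_nonneg_right hθa hn.le)
  have hkb : (k : ℝ) ≤ θ₂ * n := hkθ.trans (mul_le_mul_of_nonneg_right hθb hn.le)
  have hσa : (sn G e : ℝ) ≤ θ₁ * n := hσθ.trans (mul_le_mul_of_nonneg_right hθa hn.le)
  have hσb : (sn G e : ℝ) ≤ θ₂ * n := hσθ.trans (mul_le_mul_of_nonneg_right hθb hn.le)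
  have hkn : (k : ℝ) ≤ n := by
    refine hkθ.trans ?_
    have h3 : θ * n ≤ 1 * n := mul_le_mul_of_nonneg_right (by linarith) hn.le
    linarith
  have hσ0 : (0 : ℝ) ≤ sn G e := Nat.cast_nonneg _
  have hq0 : 0 ≤ (k : ℝ) ^ 2 / n := by positivity
  have hq1 : (k : ℝ) ^ 2 / n ≤ k := by
    rw [div_le_iff₀ hn]
    nlinarith
  -- the maximum
  haveI : Nonempty (Fin n) := ⟨⟨0, hn'⟩⟩
  obtain ⟨p, _, hp⟩ := Finset.exists_max_image (univ : Finset (Fin 3 × Fin n))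
    (fun p => MP_1ce445_fx.dg (G (e p.1)) (low (G (e p.1)) θ) p.2) univ_nonempty
  obtain ⟨Δ, hΔ⟩ : ∃ Δ : ℕ, Δ = MP_1ce445_fx.dg (G (e p.1)) (low (G (e p.1)) θ) p.2 := ⟨_, rfl⟩
  have hΔ1 : ∀ i v, MP_1ce445_fx.dg (G (e i)) (low (G (e i)) θ) v ≤ Δ := by
    intro i v
    have := hp (i, v) (mem_univ _)
    rw [hΔ]
    exact this
  have hΔ2 : ∃ i v, MP_1ce445_fx.dg (G (e i)) (low (G (e i)) θ) v = Δ := ⟨p.1, p.2, hΔ.symm⟩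
  have hRM := UNV_RM hn (h1 n k (sn G e) 2 1 hn' hk1 hka hσa le_rfl (by
    push_cast
    linarith))
  rw [← hK] at hRM
  have hpw : 0 ≤ n * (C₂ * k / n) ^ m := by positivity
  have hmr : (2 : ℝ) ≤ m := by exact_mod_cast hm
  by_cases hcase : 2 ≤ Δ ∧ K * ((k : ℝ) ^ 2 / n) + 1 ≤ (Δ : ℝ) / 2
  · have h3 := hADX n k Δ G e θ (by linarith) hS hΔ1 hΔ2
    linarith [hcase.2]
  · have hΔ3 : (Δ : ℝ) ≤ 2 * K * ((k : ℝ) ^ 2 / n) + 2 := by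
      by_cases h7 : 2 ≤ Δ
      · have h8 : ¬ K * ((k : ℝ) ^ 2 / n) + 1 ≤ (Δ : ℝ) / 2 := fun h9 => hcase ⟨h7, h9⟩
        push Not at h8
        linarith
      · have h8 : Δ ≤ 2 := by omega
        have h9 : (Δ : ℝ) ≤ 2 := by exact_mod_cast h8
        have h10 : 0 ≤ 2 * K * ((k : ℝ) ^ 2 / n) := by positivity
        linarith
    have hΔ4 : (Δ : ℝ) ≤ (2 * K + 2) * k := by
      have h6 : 2 * K * ((k : ℝ) ^ 2 / n) ≤ 2 * K * k :=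
        mul_le_mul_of_nonneg_left hq1 (by linarith)
      nlinarith
    obtain ⟨g1, g2, _⟩ := hSMM m n k G e θ (by omega) hS.sit
    have h3 := hTSV m n k Δ G e θ (by omega) hS hΔ1
    have h4 := h2 n k (sn G e) m Δ hn' hk1 hkb hσb hm hΔ4
    have h5 : ∑ v, ∑ i, am G e θ m i v ≤ ∑ v : Fin n, (1 + ∑ i, ta G e θ i v ^ m) :=
      Finset.sum_le_sum fun v _ => g1 v
    rw [Finset.sum_add_distrib] at h5
    have h6 : ∑ _v : Fin n, (1 : ℝ) = n := by simp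
    rw [h6] at h5
    linarith

end Pool.Agent.Work.MP_1ce445_pl3
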