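import Pool.Agent.Work.MP_1ce445_pl3.Interface

/-!
Block UPI (MP_1ce445_co, first plateau, upper half, `k` comparable to `n`).
-/

namespace Pool.Agent.Work.MP_1ce445_pl3

open Finset Pool.Agent.Work.MP_1ce445_co_56 Pool.Agent.Work.MP_1ce445_lin
  Pool.Agent.Work.MP_1ce445_fx

lemma UPI_NN (n : ℕ) : NN n ≤ n ∧ n ≤ NN n + 1 := by
  unfold NN
  omega

lemma UPI_exp {x : ℝ} (h0 : 0 ≤ x) (h1 : x ≤ 1 / 2) : Real.exp x ≤ 1 + 2 * x := by
  have h2 := Real.add_one_le_exp (-x)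
  have h3 : Real.exp x * Real.exp (-x) = 1 := by rw [← Real.exp_add, add_neg_cancel, Real.exp_zero]
  have h4 : 0 < Real.exp x := Real.exp_pos x
  nlinarith

/-- the bound for one factorization -/
lemma UPI_core (hPRM : Stmt_PRM) (n k m : ℕ) (w : ℝ) (hw : 0 ≤ w) (hn : 2 ≤ n)
    (G : Fin k → SimpleGraph (Fin n)) (e : Fin 3 → Fin k)
    (he : Function.Injective e) (hle : ∀ l, gammaT (G l) ≤ NN n)
    (hsg : sg G e ≤ n + 6 * m + w + sn G e / 100) (hw2 : 2 * w ≤ n) (hm : 6 * (m : ℝ) ≤ n) :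
    (∏ l, (gammaT (G l) : ℝ)) ≤
      (NN n : ℝ) ^ (k - 3) * ((n : ℝ) / 3 + 2 * m + 4 / 3 * w) ^ 3 := by
  obtain ⟨N1, N2⟩ := UPI_NN n
  have hNpos : 0 < NN n := by omega
  have hn0 : (0 : ℝ) < n := by exact_mod_cast (by omega : 0 < n)
  have hN0 : (0 : ℝ) < NN n := by exact_mod_cast hNpos
  have hNn : (NN n : ℝ) ≤ n := by exact_mod_cast N1
  have hsn : ∑ l ∈ oth e, ((NN n : ℝ) - gammaT (G l)) = sn G e := by
    unfold sn
    rw [Nat.cast_sum]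
    exact sum_congr rfl fun l _ => (Nat.cast_sub (hle l)).symm
  have hs0 : (0 : ℝ) ≤ sn G e := Nat.cast_nonneg _
  have hm0 : (0 : ℝ) ≤ m := Nat.cast_nonneg _
  have h1 := hPRM k n (NN n) (6 * m) (fun l => gammaT (G l)) e (w + (sn G e : ℝ) / 100) hNpos N1
    he (by positivity) hle (by
      have h7 : sg G e = ∑ i, (gammaT (G (e i)) : ℝ) := rfl
      rw [← h7]
      push_cast
      linarith)
  rw [hsn] at h1
  have h2 : 3 * (w + (sn G e : ℝ) / 100) / n - (sn G e : ℝ) / NN n ≤ 3 * (w / n) := by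
    have h3 : (sn G e : ℝ) / n ≤ (sn G e : ℝ) / NN n := div_le_div_of_nonneg_left hs0 hN0 hNn
    have h4 : 3 * (w + (sn G e : ℝ) / 100) / n = 3 * (w / n) + 3 / 100 * ((sn G e : ℝ) / n) := by
      ring
    have h5 : 0 ≤ (sn G e : ℝ) / n := by positivity
    rw [h4]
    linarith
  have hx0 : 0 ≤ w / n := by positivity
  have hx1 : w / n ≤ 1 / 2 := by
    rw [div_le_div_iff₀ hn0 (by norm_num)]
    linarith
  have h3 : Real.exp (3 * (w + (sn G e : ℝ) / 100) / n - (sn G e : ℝ) / NN n) ≤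
      Real.exp (w / n) ^ 3 := by
    rw [← Real.exp_nat_mul]
    apply Real.exp_le_exp.2
    push_cast
    exact h2
  have h4 := UPI_exp hx0 hx1
  have hc : (((6 * m : ℕ) : ℝ)) = 6 * m := by push_cast; ring
  rw [hc] at h1
  have hb0 : 0 ≤ ((n : ℝ) + 6 * m) / 3 := by positivity
  refine h1.trans ?_
  have h5 : (NN n : ℝ) ^ (k - 3) * (((n : ℝ) + 6 * m) / 3) ^ 3 *
      Real.exp (3 * (w + (sn G e : ℝ) / 100) / n - (sn G e : ℝ) / NN n) ≤
      (NN n : ℝ) ^ (k - 3) * ((((n : ℝ) + 6 * m) / 3) * Real.exp (w / n)) ^ 3 := by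
    rw [mul_pow, ← mul_assoc]
    exact mul_le_mul_of_nonneg_left h3 (by positivity)
  refine h5.trans ?_
  apply mul_le_mul_of_nonneg_left _ (by positivity)
  apply pow_le_pow_left₀ (by positivity)
  have h6 : (((n : ℝ) + 6 * m) / 3) * Real.exp (w / n) ≤
      (((n : ℝ) + 6 * m) / 3) * (1 + 2 * (w / n)) := mul_le_mul_of_nonneg_left h4 hb0
  have h7 : (((n : ℝ) + 6 * m) / 3) * (2 * (w / n)) ≤ (2 * n / 3) * (2 * (w / n)) := by
    apply mul_le_mul_of_nonneg_right _ (by positivity)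
    linarith
  have h8 : (2 * (n : ℝ) / 3) * (2 * (w / n)) = 4 / 3 * w := by
    field_simp
    ring
  linarith

/-- the numbers: logarithms -/
lemma UPI_log {κ ε ε₂ : ℝ} (hε : 0 < ε) (hε1 : ε < 1) (hε₂ : 0 < ε₂) (h1 : ε₂ ≤ κ)
    (h2 : κ ≤ 1 / 40) :
    39 / 40 ≤ - Real.log κ ∧ - Real.log κ ≤ - Real.log ε₂ ∧
      (1 - ε / 4) * (- Real.log κ) ≤ - Real.log (κ + ε₂ * ε / 10) := by
  have hκ : 0 < κ := by linarith
  have h3 : 39 / 40 ≤ - Real.log κ := by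
    have := Real.log_le_sub_one_of_pos hκ
    linarith
  refine ⟨h3, ?_, ?_⟩
  · have := Real.log_le_log hε₂ h1
    linarith
  · have h4 : κ + ε₂ * ε / 10 = κ * (1 + ε₂ * ε / 10 / κ) := by field_simp
    have h5 : 0 < 1 + ε₂ * ε / 10 / κ := by positivity
    rw [h4, Real.log_mul hκ.ne' h5.ne']
    have h6 := Real.log_le_sub_one_of_pos h5
    have h7 : ε₂ * ε / 10 / κ ≤ ε / 10 := by
      rw [div_le_iff₀ hκ]
      nlinarith
    nlinarith

lemma UPI_pow {κ' : ℝ} {n r : ℕ} (hn : 0 < n) (h0 : 0 < κ')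
    (h : Real.log n ≤ r * (- Real.log κ')) : (n : ℝ) * κ' ^ r ≤ 1 := by
  have hn0 : (0 : ℝ) < n := by exact_mod_cast hn
  have h1 : κ' ^ r = Real.exp (r * Real.log κ') := by
    rw [Real.exp_nat_mul, Real.exp_log h0]
  have h2 : Real.exp (r * Real.log κ') ≤ Real.exp (- Real.log n) :=
    Real.exp_le_exp.2 (by linarith)
  rw [Real.exp_neg, Real.exp_log hn0] at h2
  rw [h1]
  calc (n : ℝ) * Real.exp (r * Real.log κ') ≤ n * (n : ℝ)⁻¹ :=
        mul_le_mul_of_nonneg_left h2 hn0.le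
    _ = 1 := mul_inv_cancel₀ hn0.ne'

lemma UPI_logn {n : ℕ} (hn : 400 ≤ n) : 9 * Real.log n + 6 ≤ n := by
  have hn' : (400 : ℝ) ≤ n := by exact_mod_cast hn
  have hn0 : (0 : ℝ) < n := by linarith
  have hs : 20 ≤ √(n : ℝ) := by
    apply Real.le_sqrt_of_sq_le
    linarith
  have hs2 : √(n : ℝ) * √(n : ℝ) = n := Real.mul_self_sqrt hn0.le
  have h1 : Real.log n = 2 * Real.log (√(n : ℝ)) := by
    rw [Real.log_sqrt hn0.le]
    ring
  have h2 : Real.log (√(n : ℝ)) ≤ √(n : ℝ) - 1 :=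
    Real.log_le_sub_one_of_pos (by linarith)
  nlinarith

theorem stmt_UPI : Stmt_STP → Stmt_ADW → Stmt_PRM → Stmt_UPI := by
  intro hSTP hADW hPRM ε ε₂ hε hε1 hε₂ hε₂1
  have hω0 : 0 < ε₂ * ε / 10 := by positivity
  have hω1 : ε₂ * ε / 10 ≤ 1 / 10 := by nlinarith
  obtain ⟨θ, s, hθ, hθ1, hs, hs1, nA, hA⟩ := hADW (ε₂ * ε / 10) hω0 hω1
  obtain ⟨nS, hS⟩ := hSTP θ s hθ hθ1 hs hs1
  obtain ⟨w, hwd⟩ : ∃ w : ℝ, w = 1 + 2 / (ε₂ * ε / 10) := ⟨_, rfl⟩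
  have hw0 : 0 ≤ w := by rw [hwd]; positivity
  obtain ⟨Λ, hΛ⟩ : ∃ Λ : ℝ, Λ = (7 / 3 + 4 / 3 * w) * (- Real.log ε₂) / ε := ⟨_, rfl⟩
  refine ⟨max (max nA nS) (max 400 (max ⌈2 * w⌉₊ ⌈Real.exp Λ⌉₊)), ?_⟩
  intro n k hn hk3 hk120 hk2
  have hnA : nA ≤ n := ((le_max_left _ _).trans (le_max_left _ _)).trans hn
  have hnS : nS ≤ n := ((le_max_right _ _).trans (le_max_left _ _)).trans hn
  have hn400 : 400 ≤ n := ((le_max_left _ _).trans (le_max_right _ _)).trans hn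
  have hnw : ⌈2 * w⌉₊ ≤ n :=
    ((le_max_left _ _).trans ((le_max_right _ _).trans (le_max_right _ _))).trans hn
  have hnE : ⌈Real.exp Λ⌉₊ ≤ n :=
    ((le_max_right _ _).trans ((le_max_right _ _).trans (le_max_right _ _))).trans hn
  have hnpos : 0 < n := by omega
  have hn0 : (0 : ℝ) < n := by exact_mod_cast hnpos
  have hn1 : (1 : ℝ) < n := by exact_mod_cast (by omega : 1 < n)
  have hlogn : 0 < Real.log n := Real.log_pos hn1
  have hw2 : 2 * w ≤ n := (Nat.le_ceil _).trans (by exact_mod_cast hnw)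
  have hlogE : (7 / 3 + 4 / 3 * w) * (- Real.log ε₂) ≤ ε * Real.log n := by
    have h1 : Real.exp Λ ≤ n := (Nat.le_ceil _).trans (by exact_mod_cast hnE)
    have h2 : Λ ≤ Real.log n := by
      rw [Real.le_log_iff_exp_le hn0]
      exact h1
    rw [hΛ, div_le_iff₀ hε] at h2
    linarith
  have hk120' : 120 * (k : ℝ) ≤ n := by exact_mod_cast hk120
  have hκ1 : ε₂ ≤ 3 * (k : ℝ) / n := by
    rw [le_div_iff₀ hn0]
    exact hk2
  have hκ2 : 3 * (k : ℝ) / n ≤ 1 / 40 := by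
    rw [div_le_div_iff₀ hn0 (by norm_num)]
    linarith
  obtain ⟨l1, l2, l3⟩ := UPI_log hε hε1 hε₂ hκ1 hκ2
  unfold rh
  generalize hκd : 3 * (k : ℝ) / n = κ at *
  have hκ0 : 0 < κ := by linarith
  obtain ⟨ℓ, hℓ⟩ : ∃ ℓ : ℝ, ℓ = - Real.log κ := ⟨_, rfl⟩
  obtain ⟨ℓ', hℓ'⟩ : ∃ ℓ' : ℝ, ℓ' = - Real.log (κ + ε₂ * ε / 10) := ⟨_, rfl⟩
  rw [← hℓ] at l1 l2 l3 ⊢
  rw [← hℓ'] at l3
  have hℓ0 : 0 < ℓ := by linarith
  have hc1 : 7 / 10 ≤ (1 - ε / 4) * ℓ := by nlinarith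
  have hc0 : 0 < (1 - ε / 4) * ℓ := by linarith
  have hℓ'1 : 7 / 10 ≤ ℓ' := by linarith
  have hℓ'0 : 0 < ℓ' := by linarith
  obtain ⟨m, hm⟩ : ∃ m : ℕ, m = ⌈Real.log n / ℓ'⌉₊ := ⟨_, rfl⟩
  have hm1 : 1 ≤ m := by rw [hm]; exact Nat.ceil_pos.2 (by positivity)
  have hm2 : Real.log n / ℓ' ≤ m := by rw [hm]; exact Nat.le_ceil _
  have hm3 : (m : ℝ) < Real.log n / ℓ' + 1 := by
    rw [hm]; exact Nat.ceil_lt_add_one (by positivity)
  have hpow : (n : ℝ) * (κ + ε₂ * ε / 10) ^ m ≤ 1 := by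
    apply UPI_pow hnpos (by positivity)
    rw [div_le_iff₀ hℓ'0, hℓ'] at hm2
    exact hm2
  have hm6 : 6 * (m : ℝ) ≤ n := by
    have a1 : Real.log n / ℓ' ≤ Real.log n / (7 / 10) :=
      div_le_div_of_nonneg_left hlogn.le (by norm_num) hℓ'1
    have a2 := UPI_logn hn400
    have a3 : Real.log n / (7 / 10) = 10 / 7 * Real.log n := by ring
    rw [a3] at a1
    linarith
  have hY : 0 ≤ Real.log n / ℓ := by positivity
  have hm4 : (m : ℝ) ≤ (1 + ε / 2) * (Real.log n / ℓ) + 1 := by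
    have a1 : Real.log n / ℓ' ≤ Real.log n / ((1 - ε / 4) * ℓ) :=
      div_le_div_of_nonneg_left hlogn.le hc0 l3
    have a2 : Real.log n / ((1 - ε / 4) * ℓ) ≤ (1 + ε / 2) * (Real.log n / ℓ) := by
      rw [div_le_iff₀ hc0]
      have a3 : (1 + ε / 2) * (Real.log n / ℓ) * ((1 - ε / 4) * ℓ) =
          ((1 + ε / 2) * (1 - ε / 4)) * Real.log n := by
        field_simp
      rw [a3]
      have a4 : 1 ≤ (1 + ε / 2) * (1 - ε / 4) := by nlinarith
      nlinarith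
    linarith
  have hbig : 7 / 3 + 4 / 3 * w ≤ ε * (Real.log n / ℓ) := by
    have a6 : ε * (Real.log n / ℓ) = (ε * Real.log n) / ℓ := by ring
    rw [a6, le_div_iff₀ hℓ0]
    refine le_trans ?_ hlogE
    exact mul_le_mul_of_nonneg_left l2 (by positivity)
  obtain ⟨N1, N2⟩ := UPI_NN n
  have hNn : (n : ℝ) ≤ NN n + 1 := by exact_mod_cast N2
  have hN0 : (0 : ℝ) ≤ NN n := Nat.cast_nonneg _
  have hX0 : 0 ≤ 2 * (1 + ε) * (Real.log n / ℓ) := by positivity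
  rcases P_attained n k with h0 | ⟨G, hG, hP⟩
  · rw [h0, Nat.cast_zero]
    positivity
  · by_contra hcon
    push Not at hcon
    have hPr : (P n k : ℝ) = ∏ l, (gammaT (G l) : ℝ) := by
      rw [hP]
      push_cast
      rfl
    have hlow : 1 / 27 * (NN n : ℝ) ^ k ≤ ∏ l, (gammaT (G l) : ℝ) := by
      rw [← hPr]
      refine le_trans ?_ hcon.le
      have e1 : 1 / 27 * (NN n : ℝ) ^ k = (NN n : ℝ) ^ (k - 3) * ((NN n : ℝ) / 3) ^ 3 := by
        have e3 : (NN n : ℝ) ^ k = (NN n : ℝ) ^ (k - 3) * (NN n : ℝ) ^ 3 := by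
          rw [← pow_add, Nat.sub_add_cancel hk3]
        rw [e3]
        ring
      rw [e1]
      apply mul_le_mul_of_nonneg_left _ (by positivity)
      apply pow_le_pow_left₀ (by positivity)
      linarith
    obtain ⟨e, hSt⟩ := hS n k hnS hk3 hk120 G hG hlow
    have hgs := hA n k m G e hnA hm1 hSt
    rw [hκd] at hgs
    have hcore := UPI_core hPRM n k m w hw0 (by omega) G e hSt.sit.inj hSt.leN (by
      rw [hwd]; linarith) hw2 hm6
    have hfin : (∏ l, (gammaT (G l) : ℝ)) ≤ (NN n : ℝ) ^ (k - 3) *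
        ((NN n : ℝ) / 3 + 2 * (1 + ε) * (Real.log n / ℓ)) ^ 3 := by
      refine hcore.trans ?_
      apply mul_le_mul_of_nonneg_left _ (by positivity)
      apply pow_le_pow_left₀ (by positivity)
      linarith
    rw [← hPr] at hfin
    linarith

end Pool.Agent.Work.MP_1ce445_pl3
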