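import Pool.Agent.Work.MP_1ce445_pl3.Interface
import Pool.Agent.Work.MP_1ce445_fx.UUM

/-!
Block UPS: the upper bound for small `k / n`.
-/

set_option autoImplicit false

namespace Pool.Agent.Work.MP_1ce445_pl3

open Finset Pool.Agent.Work.MP_1ce445_co_56 Pool.Agent.Work.MP_1ce445_lin
  Pool.Agent.Work.MP_1ce445_fx

/-- the choice of `m` -/
theorem UPS_num (ε C τ : ℝ) (n r : ℕ) (hn : 0 < n) (hε : 0 < ε) (hε1 : ε < 1) (hC : 1 ≤ C)
    (hτ : 0 < τ) (hτ1 : τ < 1) (hCτ : Real.log C ≤ ε / 4 * (- Real.log τ))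
    (hlog : 6 ≤ ε * Real.log n)
    (hr : (1 + ε) * (Real.log n / (- Real.log τ)) ≤ r) :
    (n : ℝ) * (C * τ) ^ r ≤ 1 / 10 := by
  have hn0 : (0 : ℝ) < n := by exact_mod_cast hn
  have hC0 : 0 < C := by linarith
  have hl : 0 < - Real.log τ := by
    have := Real.log_neg hτ hτ1
    linarith
  have h1 : Real.log (C * τ) ≤ - ((1 - ε / 4) * (- Real.log τ)) := by
    rw [Real.log_mul hC0.ne' hτ.ne']
    linarith
  have hr0 : (0 : ℝ) ≤ r := Nat.cast_nonneg r
  have h2 : (1 + ε) * Real.log n ≤ r * (- Real.log τ) := by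
    have h3 := mul_le_mul_of_nonneg_right hr hl.le
    have h4 : (1 + ε) * (Real.log n / (- Real.log τ)) * (- Real.log τ) = (1 + ε) * Real.log n := by
      rw [mul_assoc, div_mul_cancel₀ _ hl.ne']
    linarith
  have h5 : (r : ℝ) * Real.log (C * τ) ≤ - (Real.log n + 3) := by
    have h6 : (r : ℝ) * Real.log (C * τ) ≤ r * (- ((1 - ε / 4) * (- Real.log τ))) :=
      mul_le_mul_of_nonneg_left h1 hr0
    have h7 : (1 - ε / 4) * ((1 + ε) * Real.log n) ≤ (1 - ε / 4) * (r * (- Real.log τ)) :=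
      mul_le_mul_of_nonneg_left h2 (by linarith)
    have h8 : Real.log n + 3 ≤ (1 - ε / 4) * ((1 + ε) * Real.log n) := by
      have h9 : (1 - ε / 4) * ((1 + ε) * Real.log n) =
          Real.log n + (3 - ε) / 4 * (ε * Real.log n) := by ring
      rw [h9]
      have h10 : (1 : ℝ) / 2 * 6 ≤ (3 - ε) / 4 * (ε * Real.log n) :=
        mul_le_mul (by linarith) hlog (by norm_num) (by linarith)
      linarith
    have h11 : (r : ℝ) * (- ((1 - ε / 4) * (- Real.log τ))) =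
        - ((1 - ε / 4) * (r * (- Real.log τ))) := by ring
    linarith
  have h12 : (C * τ) ^ r = Real.exp (r * Real.log (C * τ)) := by
    rw [Real.exp_nat_mul, Real.exp_log (by positivity)]
  rw [h12]
  have h13 : Real.exp (r * Real.log (C * τ)) ≤ Real.exp (- Real.log n) * Real.exp (-3) := by
    rw [← Real.exp_add]
    exact Real.exp_le_exp.2 (by linarith)
  rw [Real.exp_neg (Real.log n), Real.exp_log hn0] at h13
  have h14 : Real.exp (-3) ≤ 1 / 10 := by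
    have h15 : Real.exp (-3) = Real.exp (-1) ^ 3 := by
      rw [← Real.exp_nat_mul]
      norm_num
    have h16 := Real.exp_neg_one_lt_d9
    rw [h15]
    calc Real.exp (-1) ^ 3 ≤ (0.3678794412 : ℝ) ^ 3 :=
          pow_le_pow_left₀ (Real.exp_pos _).le h16.le 3
      _ ≤ 1 / 10 := by norm_num
  calc (n : ℝ) * Real.exp (r * Real.log (C * τ)) ≤ n * ((n : ℝ)⁻¹ * Real.exp (-3)) :=
        mul_le_mul_of_nonneg_left h13 hn0.le
    _ = Real.exp (-3) := by rw [← mul_assoc, mul_inv_cancel₀ hn0.ne', one_mul]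
    _ ≤ 1 / 10 := h14

/-- the bound for one factorization -/
theorem UPS_core (hPRM : Stmt_PRM) (m n k : ℕ)
    (G : Fin k → SimpleGraph (Fin n)) (e : Fin 3 → Fin k) (θ : ℝ) (hn2 : 2 ≤ n)
    (hS : SitU G e θ) (hA : sg G e ≤ n + 6 * m + 1 / 10 + (sn G e : ℝ) / 100) :
    27 * ∏ l, gammaT (G l) ≤ NN n ^ (k - 3) * (n + 6 * m) ^ 3 := by
  have hinj := hS.sit.inj
  have hNN := UUM_NN n
  have hgam := hS.leN
  have hN0 : 0 < NN n := by omega
  have hN0' : (0 : ℝ) < NN n := by exact_mod_cast hN0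
  have hn0 : (0 : ℝ) < n := by exact_mod_cast (by omega : 0 < n)
  have hNn : (NN n : ℝ) ≤ n := by exact_mod_cast hNN.1
  have hσR : (sn G e : ℝ) = ∑ l ∈ oth e, ((NN n : ℝ) - gammaT (G l)) := by
    unfold sn
    rw [Nat.cast_sum]
    exact sum_congr rfl fun l _ => Nat.cast_sub (hgam l)
  have hsg : sg G e = ((gammaT (G (e 0)) + gammaT (G (e 1)) + gammaT (G (e 2)) : ℕ) : ℝ) := by
    unfold sg
    rw [Fin.sum_univ_three]
    push_cast
    rfl
  rcases Nat.eq_zero_or_pos (sn G e) with h4 | h4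
  · have h5 : sg G e < ((n + 6 * m + 1 : ℕ) : ℝ) := by
      rw [h4, Nat.cast_zero] at hA
      push_cast
      linarith
    rw [hsg] at h5
    have h6 : gammaT (G (e 0)) + gammaT (G (e 1)) + gammaT (G (e 2)) < n + 6 * m + 1 := by
      exact_mod_cast h5
    have h7 : gammaT (G (e 0)) + gammaT (G (e 1)) + gammaT (G (e 2)) ≤ n + 6 * m := by omega
    have h8 := UUM_prod hgam e hinj (B := gammaT (G (e 0)) * gammaT (G (e 1)) * gammaT (G (e 2)))
      le_rfl
    have h9 := UUM_amgm (gammaT (G (e 0))) (gammaT (G (e 1))) (gammaT (G (e 2)))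
    have h10 := Nat.pow_le_pow_left h7 3
    calc 27 * ∏ l, gammaT (G l) ≤ 27 * (NN n ^ (k - 3) *
          (gammaT (G (e 0)) * gammaT (G (e 1)) * gammaT (G (e 2)))) :=
          Nat.mul_le_mul_left 27 h8
      _ = NN n ^ (k - 3) * (27 * (gammaT (G (e 0)) * gammaT (G (e 1)) * gammaT (G (e 2)))) := by
          ring
      _ ≤ NN n ^ (k - 3) * (n + 6 * m) ^ 3 := Nat.mul_le_mul_left _ (h9.trans h10)
  · have h4' : (1 : ℝ) ≤ sn G e := by exact_mod_cast h4
    obtain ⟨r, hrd⟩ : ∃ r : ℝ, r = 1 / 10 + (sn G e : ℝ) / 100 := ⟨_, rfl⟩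
    have hr1 : 0 ≤ r := by rw [hrd]; positivity
    have h1 := hPRM k n (NN n) (6 * m) (fun l => gammaT (G l)) e r hN0 hNN.1 hinj hr1 hgam
      (by
        have h2 : (∑ i, (gammaT (G (e i)) : ℝ)) = sg G e := rfl
        rw [h2]
        push_cast
        linarith)
    rw [← hσR] at h1
    have h2 : 3 * r / n - (sn G e : ℝ) / NN n ≤ 0 := by
      have h5 : (sn G e : ℝ) / n ≤ (sn G e : ℝ) / NN n :=
        div_le_div_of_nonneg_left (by linarith) hN0' hNn
      have h6 : 3 * r / n - (sn G e : ℝ) / n ≤ 0 := by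
        have h7 : 3 * r / n - (sn G e : ℝ) / n = (3 * r - sn G e) / n := by ring
        rw [h7]
        apply div_nonpos_of_nonpos_of_nonneg _ hn0.le
        rw [hrd]
        linarith
      linarith
    have h3 : (∏ l, (gammaT (G l) : ℝ)) ≤
        (NN n : ℝ) ^ (k - 3) * (((n : ℝ) + (6 * m : ℕ)) / 3) ^ 3 := by
      refine h1.trans ?_
      have h5 : Real.exp (3 * r / n - (sn G e : ℝ) / NN n) ≤ 1 := Real.exp_le_one_iff.2 h2
      have h6 : (0 : ℝ) ≤ (NN n : ℝ) ^ (k - 3) * (((n : ℝ) + (6 * m : ℕ)) / 3) ^ 3 := by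
        positivity
      calc _ ≤ (NN n : ℝ) ^ (k - 3) * (((n : ℝ) + (6 * m : ℕ)) / 3) ^ 3 * 1 :=
            mul_le_mul_of_nonneg_left h5 h6
        _ = _ := by ring
    have h7 : (27 : ℝ) * ∏ l, (gammaT (G l) : ℝ) ≤
        (NN n : ℝ) ^ (k - 3) * ((n : ℝ) + (6 * m : ℕ)) ^ 3 := by
      have h8 : (NN n : ℝ) ^ (k - 3) * (((n : ℝ) + (6 * m : ℕ)) / 3) ^ 3 =
        (NN n : ℝ) ^ (k - 3) * ((n : ℝ) + (6 * m : ℕ)) ^ 3 / 27 := by ring
      rw [h8] at h3
      linarith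
    exact_mod_cast h7

theorem stmt_UPS (hSTU : Stmt_STU) (hUNV : Stmt_UNV) (hPRM : Stmt_PRM) : Stmt_UPS := by
  intro ε hε hε1
  obtain ⟨θ, C, hθ, hθ1, hC, hU⟩ := hUNV
  obtain ⟨δ, hδ, nS, hS⟩ := hSTU θ hθ hθ1
  obtain ⟨ε₂, he0, he1, he2, he3⟩ : ∃ x : ℝ, 0 < x ∧ x ≤ 3 * δ ∧ x ≤ 1 / 40 ∧
      x ≤ Real.exp (-(4 * Real.log C / ε)) :=
    ⟨min (3 * δ) (min (1 / 40) (Real.exp (-(4 * Real.log C / ε)))),
      lt_min (by positivity) (lt_min (by norm_num) (Real.exp_pos _)), min_le_left _ _,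
      (min_le_right _ _).trans (min_le_left _ _), (min_le_right _ _).trans (min_le_right _ _)⟩
  have hlogC : Real.log C ≤ ε / 4 * (- Real.log ε₂) := by
    have h1 : Real.log ε₂ ≤ -(4 * Real.log C / ε) := by
      rw [Real.log_le_iff_le_exp he0]
      exact he3
    have h2 : ε / 4 * (4 * Real.log C / ε) ≤ ε / 4 * (- Real.log ε₂) :=
      mul_le_mul_of_nonneg_left (by linarith) (by positivity)
    have h3 : ε / 4 * (4 * Real.log C / ε) = Real.log C := by field_simp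
    linarith
  refine ⟨ε₂, he0, by linarith, max nS (max 2 ⌈Real.exp (6 / ε)⌉₊), ?_⟩
  intro n k hn hk hκ
  have hnS : nS ≤ n := (le_max_left _ _).trans hn
  have hn2 : 2 ≤ n := ((le_max_left _ _).trans (le_max_right _ _)).trans hn
  have hnE : ⌈Real.exp (6 / ε)⌉₊ ≤ n := ((le_max_right _ _).trans (le_max_right _ _)).trans hn
  have hnpos : 0 < n := by omega
  have hn0 : (0 : ℝ) < n := by exact_mod_cast hnpos
  have hk3 : (3 : ℝ) ≤ k := by exact_mod_cast hk
  have hlogE : 6 ≤ ε * Real.log n := by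
    have h1 : Real.exp (6 / ε) ≤ n := (Nat.le_ceil _).trans (by exact_mod_cast hnE)
    have h2 : 6 / ε ≤ Real.log n := by
      rw [Real.le_log_iff_exp_le hn0]
      exact h1
    rw [div_le_iff₀ hε] at h2
    linarith
  obtain ⟨τ, hτ⟩ : ∃ τ : ℝ, τ = 3 * (k : ℝ) / n := ⟨_, rfl⟩
  have hτ0 : 0 < τ := by rw [hτ]; positivity
  have hτe : τ < ε₂ := by
    rw [hτ, div_lt_iff₀ hn0]
    exact hκ
  have hτ1 : τ < 1 := by linarith
  have hτn : 1 / (n : ℝ) ≤ τ := by
    rw [hτ]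
    exact div_le_div_of_nonneg_right (by linarith) hn0.le
  have hl0 : 0 < - Real.log τ := by
    have := Real.log_neg hτ0 hτ1
    linarith
  have hrh : rh n k = Real.log n / (- Real.log τ) := by
    unfold rh
    rw [hτ]
  rw [hrh]
  obtain ⟨ρ, hρ⟩ : ∃ ρ : ℝ, ρ = Real.log n / (- Real.log τ) := ⟨_, rfl⟩
  rw [← hρ]
  have hρ1 : 1 ≤ ρ := by
    rw [hρ, le_div_iff₀ hl0, one_mul]
    have h1 : Real.log (1 / (n : ℝ)) ≤ Real.log τ := Real.log_le_log (by positivity) hτn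
    rw [one_div, Real.log_inv] at h1
    linarith
  have hx0 : 0 ≤ (1 + ε) * ρ := by positivity
  obtain ⟨m, hm⟩ : ∃ m : ℕ, m = ⌊(1 + ε) * ρ⌋₊ + 1 := ⟨_, rfl⟩
  have hm1 : (1 + ε) * ρ ≤ m := by
    rw [hm]
    push_cast
    exact (Nat.lt_floor_add_one _).le
  have hm2 : (m : ℝ) ≤ (1 + ε) * ρ + 1 := by
    rw [hm]
    push_cast
    have := Nat.floor_le hx0
    linarith
  have hm3 : 2 ≤ m := by
    have h1 : 1 ≤ ⌊(1 + ε) * ρ⌋₊ := by
      rw [Nat.one_le_floor_iff]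
      nlinarith
    omega
  have hlogτ : - Real.log ε₂ ≤ - Real.log τ := by
    have := Real.log_le_log hτ0 hτe.le
    linarith
  have hnum := UPS_num ε C τ n m hnpos hε hε1 hC hτ0 hτ1
    (hlogC.trans (mul_le_mul_of_nonneg_left hlogτ (by positivity))) hlogE (by rw [← hρ]; exact hm1)
  have hnum2 : (n : ℝ) * (C * k / n) ^ m ≤ 1 / 10 := by
    refine le_trans (mul_le_mul_of_nonneg_left (pow_le_pow_left₀ (by positivity) ?_ m) hn0.le) hnum
    rw [hτ, mul_div_assoc]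
    refine mul_le_mul_of_nonneg_left ?_ (by linarith)
    exact div_le_div_of_nonneg_right (by linarith) hn0.le
  have hkδ : (k : ℝ) ≤ δ * n := by
    have h1 : 3 * (k : ℝ) < 3 * δ * n := lt_of_lt_of_le hκ (mul_le_mul_of_nonneg_right he1 hn0.le)
    linarith
  have hNn : (NN n : ℝ) ≤ n := by exact_mod_cast (UUM_NN n).1
  have hNpos : (0 : ℝ) ≤ NN n := Nat.cast_nonneg _
  rcases P_attained n k with h0 | ⟨G, hG, hP⟩
  · rw [h0, Nat.cast_zero]
    positivity
  · have hPr : (P n k : ℝ) = ∏ l, (gammaT (G l) : ℝ) := by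
      rw [hP]
      push_cast
      rfl
    rw [hPr]
    rcases le_or_gt (1 / 27 * (NN n : ℝ) ^ k) (∏ l, (gammaT (G l) : ℝ)) with h1 | h1
    · obtain ⟨e, hSt⟩ := hS n k hnS hk hkδ G hG h1
      have hsg := hU n k m G e hm3 hSt
      have hcore := UPS_core hPRM m n k G e θ hn2 hSt (by linarith)
      have h2 : ((27 * ∏ l, gammaT (G l) : ℕ) : ℝ) ≤
          ((NN n ^ (k - 3) * (n + 6 * m) ^ 3 : ℕ) : ℝ) := by exact_mod_cast hcore
      push_cast at h2
      have h3 : ∏ l, (gammaT (G l) : ℝ) ≤ (NN n : ℝ) ^ (k - 3) * ((n : ℝ) / 3 + 2 * m) ^ 3 := by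
        have h4 : (NN n : ℝ) ^ (k - 3) * ((n : ℝ) / 3 + 2 * m) ^ 3 =
            (NN n : ℝ) ^ (k - 3) * ((n : ℝ) + 6 * m) ^ 3 / 27 := by ring
        rw [h4]
        linarith
      refine h3.trans (mul_le_mul_of_nonneg_left (pow_le_pow_left₀ (by positivity) ?_ 3)
        (by positivity))
      linarith
    · refine h1.le.trans ?_
      have e1 : (NN n : ℝ) ^ k = (NN n : ℝ) ^ (k - 3) * (NN n : ℝ) ^ 3 := by
        rw [← pow_add, Nat.sub_add_cancel hk]
      have e2 : 1 / 27 * (NN n : ℝ) ^ k = (NN n : ℝ) ^ (k - 3) * ((NN n : ℝ) / 3) ^ 3 := by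
        rw [e1]
        ring
      rw [e2]
      refine mul_le_mul_of_nonneg_left (pow_le_pow_left₀ (by positivity) ?_ 3) (by positivity)
      linarith

end Pool.Agent.Work.MP_1ce445_pl3
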