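import Pool.Agent.Work.MP_1ce445_pl3.Interface

/-! Block UPY (helper16): the upper half on the first plateau. -/

namespace Pool.Agent.Work.MP_1ce445_pl3

open Finset Pool.Agent.Work.MP_1ce445_co_56 Pool.Agent.Work.MP_1ce445_lin
  Pool.Agent.Work.MP_1ce445_fx

lemma UPY_T3 (M : ℕ) : (T3 M : ℝ) ≤ ((M : ℝ) / 3) ^ 3 := by
  have h : 27 * T3 M ≤ M ^ 3 := by
    unfold T3
    obtain ⟨r, hr⟩ : ∃ r, M = 3 * r ∨ M = 3 * r + 1 ∨ M = 3 * r + 2 := ⟨M / 3, by omega⟩
    rcases hr with rfl | rfl | rfl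
    · have h1 : 3 * r / 3 = r := by omega
      have h2 : (3 * r + 1) / 3 = r := by omega
      have h3 : (3 * r + 2) / 3 = r := by omega
      rw [h1, h2, h3]
      nlinarith [Nat.zero_le r]
    · have h1 : (3 * r + 1) / 3 = r := by omega
      have h2 : (3 * r + 1 + 1) / 3 = r := by omega
      have h3 : (3 * r + 1 + 2) / 3 = r + 1 := by omega
      rw [h1, h2, h3]
      nlinarith [Nat.zero_le r]
    · have h1 : (3 * r + 2) / 3 = r := by omega
      have h2 : (3 * r + 2 + 1) / 3 = r + 1 := by omega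
      have h3 : (3 * r + 2 + 2) / 3 = r + 1 := by omega
      rw [h1, h2, h3]
      nlinarith [Nat.zero_le r]
  have h' : (27 : ℝ) * T3 M ≤ (M : ℝ) ^ 3 := by exact_mod_cast h
  have h2 : ((M : ℝ) / 3) ^ 3 = (M : ℝ) ^ 3 / 27 := by ring
  rw [h2]
  linarith

lemma UPY_unif (hU : Stmt_UUQ) (M : ℕ) : ∃ (δ : ℝ) (n0 : ℕ), 0 < δ ∧
    ∀ m : ℕ, 2 ≤ m → m ≤ M → ∀ n k : ℕ, n0 ≤ n → 3 ≤ k →
    (k : ℝ) ^ m ≤ δ * (n : ℝ) ^ (m - 1) → Odd n →
    P n k ≤ NN n ^ (k - 3) * T3 (NN n + 6 * m) := by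
  induction M with
  | zero => exact ⟨1, 0, one_pos, fun m h1 h2 => by omega⟩
  | succ M ih =>
    obtain ⟨δ, n0, hδ, h⟩ := ih
    by_cases hM : 2 ≤ M + 1
    · obtain ⟨δ', n0', hδ', h'⟩ := hU (M + 1) hM
      refine ⟨min δ δ', max n0 n0', lt_min hδ hδ', ?_⟩
      intro m hm2 hmM n k hn hk hkm hodd
      rcases Nat.lt_or_ge M m with hlt | hge
      · have hm : m = M + 1 := by omega
        subst hm
        exact (h' n k (le_trans (le_max_right _ _) hn) hk
          (hkm.trans (mul_le_mul_of_nonneg_right (min_le_right _ _) (by positivity)))).2 hodd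
      · exact h m hm2 hge n k (le_trans (le_max_left _ _) hn) hk
          (hkm.trans (mul_le_mul_of_nonneg_right (min_le_left _ _) (by positivity))) hodd
    · exact ⟨δ, n0, hδ, fun m h1 h2 => by omega⟩

lemma UPY_log {n k : ℕ} (hk : 3 ≤ k) (hn : 120 * k ≤ n) :
    Real.log (3 * (k : ℝ) / n) < 0 ∧ - Real.log (3 * (k : ℝ) / n) ≤ Real.log n := by
  have hk' : (3 : ℝ) ≤ k := by exact_mod_cast hk
  have hn' : (120 : ℝ) * k ≤ n := by exact_mod_cast hn
  have h0 : (0 : ℝ) < n := by linarith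
  constructor
  · apply Real.log_neg (by positivity)
    rw [div_lt_one h0]
    linarith
  · rw [Real.log_div (by positivity) (by positivity)]
    have : 0 ≤ Real.log (3 * (k : ℝ)) := Real.log_nonneg (by linarith)
    linarith

lemma UPY_rh {n k : ℕ} (hk : 3 ≤ k) (hn : 120 * k ≤ n) : 1 ≤ rh n k := by
  obtain ⟨h1, h2⟩ := UPY_log hk hn
  unfold rh
  rw [le_div_iff₀ (by linarith)]
  linarith

lemma UPY_mul {n k : ℕ} (hk : 3 ≤ k) (hn : 120 * k ≤ n) :
    rh n k * Real.log (3 * (k : ℝ) / n) = - Real.log n := by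
  obtain ⟨h1, h2⟩ := UPY_log hk hn
  have h3 : Real.log (3 * (k : ℝ) / n) ≠ 0 := h1.ne
  unfold rh
  rw [div_neg, neg_mul, div_mul_cancel₀ _ h3]

/-- the condition of UUQ -/
lemma UPY_cond {n k m : ℕ} {ε δ : ℝ} (hk : 3 ≤ k) (hn : 120 * k ≤ n) (hδ : 0 < δ)
    (hm : 1 ≤ m) (hm' : (1 + ε) * rh n k ≤ m) (hl : - Real.log δ ≤ ε * Real.log n) :
    (k : ℝ) ^ m ≤ δ * (n : ℝ) ^ (m - 1) := by
  obtain ⟨h1, h2⟩ := UPY_log hk hn
  have hmul := UPY_mul hk hn
  have hk' : (3 : ℝ) ≤ k := by exact_mod_cast hk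
  have hn' : (120 : ℝ) * k ≤ n := by exact_mod_cast hn
  have h0 : (0 : ℝ) < n := by linarith
  set κ : ℝ := 3 * (k : ℝ) / n with hκ
  have hκ0 : 0 < κ := by positivity
  have h3 : (m : ℝ) * Real.log κ ≤ - (1 + ε) * Real.log n := by
    have h4 : (m : ℝ) * Real.log κ ≤ ((1 + ε) * rh n k) * Real.log κ :=
      mul_le_mul_of_nonpos_right hm' h1.le
    have h5 : ((1 + ε) * rh n k) * Real.log κ = - (1 + ε) * Real.log n := by
      rw [mul_assoc, hmul]
      ring
    linarith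
  have h6 : Real.log (κ ^ m * n) ≤ Real.log δ := by
    rw [Real.log_mul (by positivity) (by positivity), Real.log_pow]
    linarith
  have h7 : κ ^ m * n ≤ δ := by
    rwa [Real.log_le_log_iff (by positivity) hδ] at h6
  obtain ⟨j, rfl⟩ : ∃ j, m = j + 1 := ⟨m - 1, by omega⟩
  have h8 : (k : ℝ) ^ (j + 1) ≤ (3 * (k : ℝ)) ^ (j + 1) :=
    pow_le_pow_left₀ (by linarith) (by linarith) _
  have h9 : (3 * (k : ℝ)) = κ * n := by
    rw [hκ]
    field_simp
  calc (k : ℝ) ^ (j + 1) ≤ (3 * (k : ℝ)) ^ (j + 1) := h8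
    _ = (κ ^ (j + 1) * n) * (n : ℝ) ^ j := by
        rw [h9, mul_pow]
        ring
    _ ≤ δ * (n : ℝ) ^ j := by gcongr
    _ = δ * (n : ℝ) ^ (j + 1 - 1) := by simp

/-- Block UPY. -/
theorem stmt_UPY : Stmt_UPI → Stmt_UPS → Stmt_UUQ → Stmt_UPY := by
  intro hUPI hUPS hUUQ ε hε hε1
  obtain ⟨ε₂, hε₂, hε₂1, n1, hS⟩ := hUPS (ε / 2) (by linarith) (by linarith)
  obtain ⟨n2, hI⟩ := hUPI ε ε₂ hε hε1 hε₂ hε₂1
  obtain ⟨δ, n3, hδ, hQ⟩ := UPY_unif hUUQ ⌊2 + 1 / ε⌋₊
  obtain ⟨n4, hn4⟩ := exists_nat_ge (Real.exp (- Real.log δ / ε))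
  refine ⟨max (max n1 n2) (max n3 n4), ?_⟩
  intro n k hn hk hkn
  have hn1 : n1 ≤ n := le_trans (le_trans (le_max_left _ _) (le_max_left _ _)) hn
  have hn2 : n2 ≤ n := le_trans (le_trans (le_max_right _ _) (le_max_left _ _)) hn
  have hn3 : n3 ≤ n := le_trans (le_trans (le_max_left _ _) (le_max_right _ _)) hn
  have hn4' : n4 ≤ n := le_trans (le_trans (le_max_right _ _) (le_max_right _ _)) hn
  have hρ := UPY_rh hk hkn
  have hk' : (3 : ℝ) ≤ k := by exact_mod_cast hk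
  have hkn' : (120 : ℝ) * k ≤ n := by exact_mod_cast hkn
  have h0 : (0 : ℝ) < n := by linarith
  have hN0 : (0 : ℝ) ≤ (NN n : ℝ) := by positivity
  set ρ := rh n k with hρdef
  by_cases hc : ε₂ * n ≤ 3 * k
  · refine (hI n k hn2 hk hkn hc).trans ?_
    have h1 : (0 : ℝ) ≤ (NN n : ℝ) / 3 + 2 * (1 + ε) * ρ := by positivity
    have h2 : (NN n : ℝ) / 3 + 2 * (1 + ε) * ρ ≤ (NN n : ℝ) / 3 + 2 * (1 + ε) * ρ + 2 := by linarith
    gcongr
  · push Not at hc
    -- the case where `n/3` is near enough to `N/3`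
    have key : (n : ℝ) / 3 ≤ (NN n : ℝ) / 3 + ε * ρ →
        (P n k : ℝ) ≤ (NN n : ℝ) ^ (k - 3) * ((NN n : ℝ) / 3 + 2 * (1 + ε) * ρ + 2) ^ 3 := by
      intro h1
      refine (hS n k hn1 hk hc).trans ?_
      have h2 : (0 : ℝ) ≤ (n : ℝ) / 3 + 2 * (1 + ε / 2) * ρ + 2 := by positivity
      have h3 : (n : ℝ) / 3 + 2 * (1 + ε / 2) * ρ + 2 ≤
          (NN n : ℝ) / 3 + 2 * (1 + ε) * ρ + 2 := by nlinarith
      gcongr
    rcases Nat.even_or_odd n with hev | hodd
    · apply key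
      have h1 : NN n = n := by
        obtain ⟨t, ht⟩ := hev
        unfold NN
        omega
      rw [h1]
      have : 0 ≤ ε * ρ := by positivity
      linarith
    · have h1 : NN n + 1 = n := by
        obtain ⟨t, ht⟩ := hodd
        unfold NN
        omega
      have h1' : (NN n : ℝ) + 1 = n := by exact_mod_cast h1
      by_cases hερ : 1 / 3 ≤ ε * ρ
      · apply key
        linarith
      · push Not at hερ
        set m : ℕ := ⌊(1 + ε) * ρ⌋₊ + 1 with hm
        have hpos : 0 ≤ (1 + ε) * ρ := by positivity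
        have hlt : (1 + ε) * ρ < m := by
          rw [hm]
          push_cast
          exact Nat.lt_floor_add_one _
        have hle : (m : ℝ) ≤ (1 + ε) * ρ + 1 := by
          rw [hm]
          push_cast
          have := Nat.floor_le hpos
          linarith
        have hm2 : 2 ≤ m := by
          have h2 : 1 ≤ ⌊(1 + ε) * ρ⌋₊ := by
            apply Nat.le_floor
            push_cast
            nlinarith
          omega
        have hmM : m ≤ ⌊2 + 1 / ε⌋₊ := by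
          apply Nat.le_floor
          have h2 : ρ ≤ 1 / ε := by
            rw [le_div_iff₀ hε]
            linarith
          have h3 : (1 + ε) * ρ = ρ + ε * ρ := by ring
          have h4 : ρ + ε * ρ + 1 ≤ 2 + 1 / ε := by linarith
          linarith
        have hlog : - Real.log δ ≤ ε * Real.log n := by
          have h2 : Real.exp (- Real.log δ / ε) ≤ n := by
            refine hn4.trans ?_
            exact_mod_cast hn4'
          have h3 : - Real.log δ / ε ≤ Real.log n := by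
            rw [Real.le_log_iff_exp_le h0]
            exact h2
          rw [div_le_iff₀ hε] at h3
          linarith
        have hcond := UPY_cond (ε := ε) (δ := δ) hk hkn hδ (by omega : 1 ≤ m) hlt.le hlog
        have hP := hQ m hm2 hmM n k hn3 hk hcond hodd
        have hP' : (P n k : ℝ) ≤ (NN n : ℝ) ^ (k - 3) * T3 (NN n + 6 * m) := by
          exact_mod_cast hP
        have hT := UPY_T3 (NN n + 6 * m)
        push_cast at hT
        calc (P n k : ℝ) ≤ (NN n : ℝ) ^ (k - 3) * T3 (NN n + 6 * m) := hP'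
          _ ≤ (NN n : ℝ) ^ (k - 3) * (((NN n : ℝ) + 6 * m) / 3) ^ 3 := by gcongr
          _ ≤ (NN n : ℝ) ^ (k - 3) * ((NN n : ℝ) / 3 + 2 * (1 + ε) * ρ + 2) ^ 3 := by
              have h5 : (0 : ℝ) ≤ ((NN n : ℝ) + 6 * m) / 3 := by positivity
              have h6 : ((NN n : ℝ) + 6 * m) / 3 ≤ (NN n : ℝ) / 3 + 2 * (1 + ε) * ρ + 2 := by
                linarith
              gcongr

end Pool.Agent.Work.MP_1ce445_pl3
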