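import Pool.Agent.Work.MP_1ce445_fx.EndT
import Pool.Agent.Work.MP_1ce445_pl3.STP
import Pool.Agent.Work.MP_1ce445_pl3.TA2
import Pool.Agent.Work.MP_1ce445_pl3.GDP
import Pool.Agent.Work.MP_1ce445_pl3.EMP
import Pool.Agent.Work.MP_1ce445_pl3.BDP
import Pool.Agent.Work.MP_1ce445_pl3.ADA
import Pool.Agent.Work.MP_1ce445_pl3.ADB
import Pool.Agent.Work.MP_1ce445_pl3.ADW
import Pool.Agent.Work.MP_1ce445_pl3.TSV
import Pool.Agent.Work.MP_1ce445_pl3.ADX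
import Pool.Agent.Work.MP_1ce445_pl3.UNR
import Pool.Agent.Work.MP_1ce445_pl3.UNV
import Pool.Agent.Work.MP_1ce445_pl3.UPI
import Pool.Agent.Work.MP_1ce445_pl3.UPS
import Pool.Agent.Work.MP_1ce445_pl3.UPY

/-!
Assembly of the upper half of the first plateau (helper94).
-/

namespace Pool.Agent.Work.MP_1ce445_pl3

open Finset Pool.Agent.Work.MP_1ce445_co_56 Pool.Agent.Work.MP_1ce445_lin
  Pool.Agent.Work.MP_1ce445_fx

theorem h_STP : Stmt_STP := stmt_STP stmt_CR3 stmt_S3S stmt_DG2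
theorem h_GDP : Stmt_GDP := stmt_GDP stmt_TAU stmt_TA2
theorem h_BDP : Stmt_BDP := stmt_BDP (stmt_EMP stmt_DG2)
theorem h_ADA : Stmt_ADA := stmt_ADA EndT_SMM stmt_TAU h_GDP h_BDP
theorem h_ADB : Stmt_ADB := stmt_ADB EndT_SMM stmt_TAU h_GDP h_BDP
theorem h_ADW : Stmt_ADW := stmt_ADW h_ADA h_ADB
theorem h_TSV : Stmt_TSV := stmt_TSV stmt_TAU (stmt_SQM stmt_DG2)
theorem h_ADX : Stmt_ADX := stmt_ADX EndT_SMM stmt_TAU EndT_TSM
theorem h_UNV : Stmt_UNV := stmt_UNV EndT_SMM h_TSV h_ADX stmt_UNR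
theorem h_UPI : Stmt_UPI := stmt_UPI h_STP h_ADW stmt_PRM
theorem h_UPS : Stmt_UPS := stmt_UPS EndT_STU h_UNV stmt_PRM

/-- The upper half: `P n k ≤ N^(k-3) (N/3 + 2 (1+ε) ρ + 2)³` for `3 ≤ k ≤ n/120`. -/
theorem h_UPY : Stmt_UPY := stmt_UPY h_UPI h_UPS EndT_UUQ

end Pool.Agent.Work.MP_1ce445_pl3
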