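import Pool.Agent.Work.MP_1ce445_pl3.InterfaceL
import Pool.Agent.Work.MP_1ce445_fx.GM1

/-!
Block LG1 (MP_1ce445_co, first plateau, lower half): the construction is a factorization.
-/

namespace Pool.Agent.Work.MP_1ce445_pl3

open Finset Pool.Agent.Work.MP_1ce445_co_56 Pool.Agent.Work.MP_1ce445_lin
  Pool.Agent.Work.MP_1ce445_fx

lemma LG1_rl_symm (q w : ℕ) (u v : VL q) : rl q w u v = rl q w v u := by
  classical
  unfold rl
  by_cases h : cl q w u = cl q w v
  · rw [if_pos h, if_pos h.symm, h]
    exact if_congr or_comm rfl rfl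
  · rw [if_neg h, if_neg (Ne.symm h), add_comm]

lemma LG1_adjl {q w : ℕ} {L : Finset (ZMod (2 * q - 1))} {μ : VL q → VL q} (l : L)
    (u v : VL q) : (GW q w L μ (Sum.inl l)).Adj u v ↔ u ≠ v ∧ lbl u v = l.1 := by
  unfold GW
  rw [SimpleGraph.fromRel_adj]
  simp only [GM1_lbl_symm v u, or_self]

lemma LG1_adjr {q w : ℕ} {L : Finset (ZMod (2 * q - 1))} {μ : VL q → VL q} (hμ : Mu q w L μ)
    (j : Fin 3) (u v : VL q) :
    (GW q w L μ (Sum.inr j)).Adj u v ↔ u ≠ v ∧ lbl u v ∉ L ∧
      (v = μ u → cl q w u = j) ∧ (v ≠ μ u → rl q w u v = j) := by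
  unfold GW
  rw [SimpleGraph.fromRel_adj]
  by_cases h : v = μ u
  · have h' : u = μ v := by rw [h, (hμ u).2.1]
    have hc : cl q w v = cl q w u := by rw [h]; exact (hμ u).2.2.1
    simp only [GM1_lbl_symm v u, if_pos h, if_pos h', hc]
    tauto
  · have h' : ¬ u = μ v := by
      intro h2
      apply h
      rw [h2, (hμ v).2.1]
    simp only [GM1_lbl_symm v u, LG1_rl_symm q w v u, if_neg h, if_neg h']
    tauto

/-- a vertex of given class whose label with `u` is not in `L` -/
lemma LG1_free (hS : Stmt_LSZ) {q k w : ℕ} {L : Finset (ZMod (2 * q - 1))} (hq : 100 ≤ q)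
    (hw : 12 * w ≤ q) (hkq : 4 * k ≤ q) (hk : 3 ≤ k) (hL : L.card = k - 3) (u : VL q) (l : Fin 3)
    (hul : cl q w u ≠ l) : ∃ v, cl q w v = l ∧ lbl u v ∉ L := by
  classical
  have : NeZero (2 * q - 1) := ⟨by omega⟩
  have hcard := hS q w (by omega) hw l
  have hinj : Set.InjOn (fun v : VL q => lbl u v)
      ((univ.filter (fun v : VL q => cl q w v = l) : Finset (VL q)) : Set (VL q)) := by
    intro y hy z hz h
    have hy' : cl q w y = l := by simpa using hy
    have hz' : cl q w z = l := by simpa using hz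
    have hyu : y ≠ u := by
      rintro rfl
      exact hul hy'
    have hzu : z ≠ u := by
      rintro rfl
      exact hul hz'
    cases u with
    | none =>
      cases y with
      | none => exact absurd rfl hyu
      | some y =>
        cases z with
        | none => exact absurd rfl hzu
        | some z => exact congrArg some (GM1_dbl (by omega) h)
    | some x =>
      cases y with
      | none =>
        cases z with
        | none => rfl
        | some z =>
          exfalso
          have h1 : x + x = x + z := h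
          exact hzu (congrArg some (add_left_cancel h1).symm)
      | some y =>
        cases z with
        | none =>
          exfalso
          have h1 : x + y = x + x := h
          exact hyu (congrArg some (add_left_cancel h1))
        | some z => exact congrArg some (add_left_cancel (h : x + y = x + z))
  have hex : ∃ z ∈ (univ.filter (fun v : VL q => cl q w v = l)).image (fun v : VL q => lbl u v),
      z ∉ L := by
    by_contra hcon
    push Not at hcon
    have h1 := card_le_card (fun z hz => hcon z hz)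
    rw [card_image_of_injOn hinj, hcard, hL] at h1
    unfold nn at h1
    have := l.isLt
    omega
  obtain ⟨z, hz, hzL⟩ := hex
  obtain ⟨y, hy, rfl⟩ := mem_image.1 hz
  exact ⟨y, (mem_filter.1 hy).2, hzL⟩

lemma LG1_third : ∀ a b : Fin 3, a ≠ b → a ≠ -(b + a) ∧ -(a + -(b + a)) = b := by decide

theorem stmt_LG1 : Stmt_LSZ → Stmt_LG1 := by
  intro hS q k w L μ hq hw hkq hk hL hμ
  have hq1 : 1 ≤ q := by omega
  refine IsFactorization.of_adj ?_ ?_ ?_
  · intro i j v w' h1 h2
    cases i with
    | inl l =>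
      cases j with
      | inl l' =>
        rw [LG1_adjl] at h1 h2
        exact congrArg Sum.inl (Subtype.ext (h1.2.symm.trans h2.2))
      | inr j =>
        rw [LG1_adjl] at h1
        rw [LG1_adjr hμ] at h2
        exact absurd (h1.2 ▸ l.2) h2.2.1
    | inr i =>
      cases j with
      | inl l' =>
        rw [LG1_adjl] at h2
        rw [LG1_adjr hμ] at h1
        exact absurd (h2.2 ▸ l'.2) h1.2.1
      | inr j =>
        rw [LG1_adjr hμ] at h1 h2
        by_cases h : w' = μ v
        · rw [← h1.2.2.1 h, ← h2.2.2.1 h]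
        · rw [← h1.2.2.2 h, ← h2.2.2.2 h]
  · intro v w' hvw
    by_cases h : lbl v w' ∈ L
    · exact ⟨Sum.inl ⟨_, h⟩, (LG1_adjl _ _ _).2 ⟨hvw, rfl⟩⟩
    · by_cases h1 : w' = μ v
      · exact ⟨Sum.inr (cl q w v), (LG1_adjr hμ _ _ _).2
          ⟨hvw, h, fun _ => rfl, fun h2 => absurd h1 h2⟩⟩
      · exact ⟨Sum.inr (rl q w v w'), (LG1_adjr hμ _ _ _).2
          ⟨hvw, h, fun h2 => absurd h2 h1, fun _ => rfl⟩⟩
  · intro i u
    cases i with
    | inl l =>
      by_cases hl : l.1 = 0
      · obtain ⟨v, hne, hv⟩ := GM1_ex0 hq1 u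
        exact ⟨v, (LG1_adjl _ _ _).2 ⟨hne, by rw [hv, hl]⟩⟩
      · obtain ⟨v, hne, hv⟩ := GM1_exl hq1 l.1 hl u
        exact ⟨v, (LG1_adjl _ _ _).2 ⟨hne, hv⟩⟩
    | inr j =>
      by_cases hu : cl q w u = j
      · exact ⟨μ u, (LG1_adjr hμ _ _ _).2
          ⟨(hμ u).1.symm, (hμ u).2.2.2, fun _ => hu, fun h2 => absurd rfl h2⟩⟩
      · obtain ⟨h1, h2⟩ := LG1_third (cl q w u) j hu
        obtain ⟨v, hv, hvL⟩ := LG1_free hS hq hw hkq hk hL u (-(j + cl q w u)) h1
        have hne : cl q w u ≠ cl q w v := by rw [hv]; exact h1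
        refine ⟨v, (LG1_adjr hμ _ _ _).2
          ⟨fun h => hne (by rw [h]), hvL, fun h => ?_, fun _ => ?_⟩⟩
        · exfalso
          apply hne
          rw [h]
          exact (hμ u).2.2.1.symm
        · unfold rl
          rw [if_neg hne, hv, h2]

end Pool.Agent.Work.MP_1ce445_pl3
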