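import Pool.Agent.Work.MP_1ce445_pl3.InterfaceL
import Pool.Agent.Work.MP_1ce445_fx.GM2

/-!
Block LG2 (first plateau, lower half) for MP_1ce445_co: the total domination number of the factors of the labels `l ∈ L`.
-/

namespace Pool.Agent.Work.MP_1ce445_pl3

open Finset Pool.Agent.Work.MP_1ce445_co_56 Pool.Agent.Work.MP_1ce445_lin
  Pool.Agent.Work.MP_1ce445_fx

theorem stmt_LG2 : Stmt_LG1 → Stmt_LG2 := by
  intro hLG1 q k w L μ hq hw hkq hk hL hμ l
  have hq1 : 1 ≤ q := by omega
  haveI : NeZero (2 * q - 1) := ⟨by omega⟩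
  have hF := hLG1 q k w L μ hq hw hkq hk hL hμ
  have hinj : Function.Injective (GM2_g l.1) :=
    Function.LeftInverse.injective (g := GM2_g l.1) (GM2_invol hq1 l.1)
  have h1 := card_le_gammaT (G := GW q w L μ (Sum.inl l)) (hF.minDeg (Sum.inl l))
    (id : VL q → VL q) (GM2_g l.1) hinj (by
      intro u v h
      unfold GW at h
      rw [SimpleGraph.fromRel_adj] at h
      rcases h.2 with h2 | h2
      · exact GM2_eq hq1 l.1 u v h.1 h2
      · exact GM2_eq hq1 l.1 u v h.1 ((GM2_symm u v).trans h2))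
  rw [Fintype.card_option, ZMod.card] at h1
  omega

end Pool.Agent.Work.MP_1ce445_pl3
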