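import Pool.Agent.Work.MP_1ce445_pl3.InterfaceL

/-! LLB: sums of residues. -/

namespace Pool.Agent.Work.MP_1ce445_pl3

open Finset Pool.Agent.Work.MP_1ce445_co_56 Pool.Agent.Work.MP_1ce445_lin
  Pool.Agent.Work.MP_1ce445_fx

lemma LLB_val {N : ℕ} [NeZero N] (x y : ZMod N) :
    ((x + y).val = x.val + y.val ∧ x.val + y.val < N) ∨ (x + y).val + N = x.val + y.val := by
  rcases lt_or_ge (x.val + y.val) N with h | h
  · exact Or.inl ⟨ZMod.val_add_of_lt h, h⟩
  · exact Or.inr (ZMod.val_add_val_of_le h).symm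

lemma LLB_zs (q : ℕ) (l : Fin 3) :
    (l = 0 ∧ zs q l = 0) ∨ (l = 1 ∧ zs q l = s2 q) ∨ (l = 2 ∧ zs q l = s1 q) := by
  fin_cases l
  · exact Or.inl ⟨rfl, rfl⟩
  · exact Or.inr (Or.inl ⟨rfl, rfl⟩)
  · exact Or.inr (Or.inr ⟨rfl, rfl⟩)

lemma LLB_s1 (q : ℕ) : s1 q = 2 * ((q + 2) / 3) := rfl

lemma LLB_s2 (q : ℕ) : s2 q = 2 * ((q + 2) / 3) + 2 * ((q + 1) / 3) := rfl

/-- counting in an interval of residues -/
lemma LLB_count {N w c : ℕ} [Fintype (ZMod N)] [NeZero N] (P : ZMod N → Prop) [DecidablePred P]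
    (hc : c + w ≤ N) (hP : ∀ x : ZMod N, c ≤ x.val → x.val < c + w → P x) :
    w ≤ (univ.filter P).card := by
  have h1 : (Finset.Ico c (c + w)).card ≤ (univ.filter P).card := by
    refine Finset.card_le_card_of_injOn (fun i => (i : ZMod N)) ?_ ?_
    · intro i hi
      have hi' := Finset.mem_Ico.1 (Finset.mem_coe.1 hi)
      have hv : ((i : ZMod N)).val = i := ZMod.val_natCast_of_lt (by omega)
      simp only [coe_filter, mem_univ, true_and, Set.mem_setOf_eq]
      exact hP _ (by omega) (by omega)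
    · intro i hi k hk hik
      have hi' := Finset.mem_Ico.1 (Finset.mem_coe.1 hi)
      have hk' := Finset.mem_Ico.1 (Finset.mem_coe.1 hk)
      have hv : ((i : ZMod N)).val = i := ZMod.val_natCast_of_lt (by omega)
      have hv' : ((k : ZMod N)).val = k := ZMod.val_natCast_of_lt (by omega)
      have h2 : (i : ZMod N) = (k : ZMod N) := hik
      rw [← hv, ← hv', h2]
  simpa using h1

lemma LLB_card {N : ℕ} [Fintype (ZMod N)] [NeZero N] (P : ZMod N → Prop) [DecidablePred P]
    (T : Finset ℕ) (hP : ∀ x : ZMod N, P x → x.val ∈ T) : (univ.filter P).card ≤ T.card := by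
  refine Finset.card_le_card_of_injOn (fun x => x.val) ?_ ?_
  · intro x hx
    simp only [coe_filter, mem_univ, true_and, Set.mem_setOf_eq] at hx
    exact hP x hx
  · intro x _ y _ hxy
    exact ZMod.val_injective N hxy

open Classical in
lemma LLB_zz (q w : ℕ) [Fintype (ZMod (2 * q - 1))] (hq : 100 ≤ q) (hw : 12 * w ≤ q) :
    ∀ (l l' : Fin 3) (u v : VL q), zn q w l u → zn q w l' v → lbl u v ∈ DD q w := by
  intro l l' u v hu hv
  haveI : NeZero (2 * q - 1) := ⟨by omega⟩
  obtain ⟨x, rfl, hx1, hx2⟩ := hu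
  obtain ⟨y, rfl, hy1, hy2⟩ := hv
  simp only [DD, mem_filter, mem_univ, true_and]
  show (x + y).val < 4 * w + 4 ∨ (s1 q ≤ (x + y).val ∧ (x + y).val < s1 q + 4 * w + 4) ∨
    (s2 q ≤ (x + y).val ∧ (x + y).val < s2 q + 4 * w + 4)
  have h1 := LLB_s1 q
  have h2 := LLB_s2 q
  have hs := LLB_val x y
  rcases LLB_zs q l with ⟨_, e1⟩ | ⟨_, e1⟩ | ⟨_, e1⟩ <;>
    rcases LLB_zs q l' with ⟨_, e2⟩ | ⟨_, e2⟩ | ⟨_, e2⟩ <;>
    rw [e1] at hx1 hx2 <;> rw [e2] at hy1 hy2 <;> omega

/-- LLB. -/
theorem stmt_LLB : Stmt_LLB := by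
  classical
  intro q w _ hq hw
  haveI : NeZero (2 * q - 1) := ⟨by omega⟩
  have h1 := LLB_s1 q
  have h2 := LLB_s2 q
  refine ⟨LLB_zz q w hq hw, ?_, ?_, ?_, ?_⟩
  · intro l v t hv ht hz
    rcases t with _ | y
    · left
      have hl : l = 2 := by rw [← ht]; rfl
      subst hl
      obtain ⟨x, rfl, hx1, hx2⟩ := hv
      have := LLB_zz q w hq hw 2 2 (some x) (some x) ⟨x, rfl, hx1, hx2⟩ ⟨x, rfl, hx1, hx2⟩
      exact this
    · right
      refine ⟨by simp, ?_⟩
      obtain ⟨x, rfl, hx1, hx2⟩ := hv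
      simp only [AA, mem_filter, mem_univ, true_and]
      show (x + y).val < s1 q + 2 * w + 4
      have hs := LLB_val x y
      have hz0 : ¬ (0 ≤ y.val ∧ y.val < 0 + 2 * w) := fun h => hz 0 ⟨y, rfl, h.1, h.2⟩
      have hz1 : ¬ (s2 q ≤ y.val ∧ y.val < s2 q + 2 * w) := fun h => hz 1 ⟨y, rfl, h.1, h.2⟩
      have hz2 : ¬ (s1 q ≤ y.val ∧ y.val < s1 q + 2 * w) := fun h => hz 2 ⟨y, rfl, h.1, h.2⟩
      have hyN : y.val < 2 * q - 1 := ZMod.val_lt y
      have hc : (y.val < s1 q ∧ l = 0) ∨ (s1 q + 2 * w ≤ y.val ∧ y.val < s2 q ∧ l = 1) ∨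
          (s2 q + 2 * w ≤ y.val ∧ l = 2) := by
        rw [← ht]
        unfold cl
        simp only
        split_ifs with a1 a2 a3 a4 a5
        · omega
        · omega
        · left; exact ⟨by omega, rfl⟩
        · right; left; exact ⟨by omega, by omega, rfl⟩
        · omega
        · right; right; exact ⟨by omega, rfl⟩
      rcases LLB_zs q l with ⟨e0, e1⟩ | ⟨e0, e1⟩ | ⟨e0, e1⟩ <;> rw [e1] at hx1 hx2 <;>
        rcases hc with ⟨c1, c2⟩ | ⟨c1, c2, c3⟩ | ⟨c1, c2⟩ <;>
        first
        | omega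
        | (exfalso; revert e0; rw [‹l = _›]; decide)
  · refine (LLB_card _ (Finset.range (4 * w + 4) ∪ (Finset.Ico (s1 q) (s1 q + 4 * w + 4) ∪
      Finset.Ico (s2 q) (s2 q + 4 * w + 4))) ?_).trans ?_
    · intro x hx
      simp only [mem_union, mem_range, mem_Ico]
      exact hx
    · refine (Finset.card_union_le _ _).trans ?_
      have h3 := Finset.card_union_le (Finset.Ico (s1 q) (s1 q + 4 * w + 4))
        (Finset.Ico (s2 q) (s2 q + 4 * w + 4))
      simp only [Nat.card_Ico, card_range] at h3 ⊢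
      omega
  · refine (LLB_card _ (Finset.range (s1 q + 2 * w + 4)) ?_).trans ?_
    · intro x hx
      exact mem_range.2 hx
    · rw [card_range]
  · intro j l hjl
    have key : ∀ c : ℕ, c + w ≤ 2 * q - 1 → (∀ x : ZMod (2 * q - 1), c ≤ x.val →
        x.val < c + w → cl q w (some x) = j ∧ zs q l ≤ x.val ∧ x.val < zs q l + 2 * w) →
        w ≤ (univ.filter (fun x : ZMod (2 * q - 1) =>
          cl q w (some x) = j ∧ zn q w l (some x))).card := by
      intro c hc hP
      refine LLB_count _ hc ?_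
      intro x hx1 hx2
      obtain ⟨h3, h4, h5⟩ := hP x hx1 hx2
      exact ⟨h3, x, rfl, h4, h5⟩
    have z0 : zs q 0 = 0 := rfl
    have z1 : zs q 1 = s2 q := rfl
    have z2 : zs q 2 = s1 q := rfl
    fin_cases j <;> fin_cases l <;> simp only [Fin.zero_eta, Fin.mk_one, Fin.reduceFinMk] at hjl key ⊢
    · exact absurd rfl hjl
    · -- j = 0, l = 1
      refine key (s2 q) (by omega) ?_
      intro x hx1 hx2
      refine ⟨?_, by omega, by omega⟩
      unfold cl
      simp only
      rw [if_neg (by omega), if_neg (by omega), if_neg (by omega), if_neg (by omega),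
        if_pos (by omega)]
    · -- j = 0, l = 2
      refine key (s1 q) (by omega) ?_
      intro x hx1 hx2
      refine ⟨?_, by omega, by omega⟩
      unfold cl
      simp only
      rw [if_neg (by omega), if_neg (by omega), if_pos (by omega)]
    · -- j = 1, l = 0
      refine key 0 (by omega) ?_
      intro x hx1 hx2
      refine ⟨?_, by omega, by omega⟩
      unfold cl
      simp only
      rw [if_pos (by omega)]
    · exact absurd rfl hjl
    · -- j = 1, l = 2
      refine key (s1 q + w) (by omega) ?_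
      intro x hx1 hx2
      refine ⟨?_, by omega, by omega⟩
      unfold cl
      simp only
      rw [if_neg (by omega), if_neg (by omega), if_neg (by omega), if_pos (by omega)]
    · -- j = 2, l = 0
      refine key w (by omega) ?_
      intro x hx1 hx2
      refine ⟨?_, by omega, by omega⟩
      unfold cl
      simp only
      rw [if_neg (by omega), if_pos (by omega)]
    · -- j = 2, l = 1
      refine key (s2 q + w) (by omega) ?_
      intro x hx1 hx2
      refine ⟨?_, by omega, by omega⟩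
      unfold cl
      simp only
      rw [if_neg (by omega), if_neg (by omega), if_neg (by omega), if_neg (by omega),
        if_neg (by omega)]
    · exact absurd rfl hjl

end Pool.Agent.Work.MP_1ce445_pl3
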