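import Pool.Agent.Work.MP_1ce445_pl3.InterfaceL
import Pool.Agent.Work.MP_1ce445_fx.GM1

/-!
Block LMU: the own matching.
-/

namespace Pool.Agent.Work.MP_1ce445_pl3

open Finset Pool.Agent.Work.MP_1ce445_co_56 Pool.Agent.Work.MP_1ce445_lin
  Pool.Agent.Work.MP_1ce445_fx

theorem LMU_inj {q : ℕ} (hq : 1 ≤ q) {u v v' : VL q} (hv : v ≠ u) (hv' : v' ≠ u)
    (h : lbl u v = lbl u v') : v = v' := by
  cases u with
  | none =>
    cases v with
    | none => exact absurd rfl hv
    | some y =>
      cases v' with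
      | none => exact absurd rfl hv'
      | some y' =>
        have h1 : y + y = y' + y' := h
        rw [GM1_dbl hq h1]
  | some x =>
    cases v with
    | none =>
      cases v' with
      | none => rfl
      | some y' =>
        have h1 : x + x = x + y' := h
        have h2 : x = y' := add_left_cancel h1
        exact absurd (by rw [h2]) hv'
    | some y =>
      cases v' with
      | none =>
        have h1 : x + y = x + x := h
        have h2 : y = x := add_left_cancel h1
        exact absurd (by rw [h2]) hv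
      | some y' =>
        have h1 : x + y = x + y' := h
        rw [add_left_cancel h1]

theorem LMU_deg {q k w : ℕ} (L : Finset (ZMod (2 * q - 1))) (hq : 1 ≤ q) (hL : L.card = k - 3)
    (j : Fin 3) [Fintype (VL q)] (u : {v : VL q // cl q w v = j})
    [DecidablePred (fun v : {v : VL q // cl q w v = j} => u ≠ v ∧ lbl u.1 v.1 ∉ L)] :
    Fintype.card {v : VL q // cl q w v = j} ≤
      (univ.filter (fun v : {v : VL q // cl q w v = j} => u ≠ v ∧ lbl u.1 v.1 ∉ L)).card +
        (1 + (k - 3)) := by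
  classical
  have h1 : (univ : Finset {v : VL q // cl q w v = j}) ⊆
      (univ.filter (fun v : {v : VL q // cl q w v = j} => u ≠ v ∧ lbl u.1 v.1 ∉ L)) ∪
        ({u} ∪ univ.filter (fun v : {v : VL q // cl q w v = j} => v ≠ u ∧ lbl u.1 v.1 ∈ L)) := by
    intro v _
    by_cases h2 : v = u
    · simp [h2]
    · by_cases h3 : lbl u.1 v.1 ∈ L
      · simp [h2, h3]
      · have h4 : u ≠ v := fun h => h2 h.symm
        simp [h4, h3]
  have h2 : (univ.filter (fun v : {v : VL q // cl q w v = j} => v ≠ u ∧ lbl u.1 v.1 ∈ L)).card ≤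
      L.card := by
    apply Finset.card_le_card_of_injOn (fun v => lbl u.1 v.1)
    · intro v hv
      have := (Finset.mem_filter.1 hv).2.2
      exact this
    · intro v hv v' hv' h
      have a1 := (Finset.mem_filter.1 hv).2.1
      have a2 := (Finset.mem_filter.1 hv').2.1
      apply Subtype.ext
      exact LMU_inj hq (fun h => a1 (Subtype.ext h)) (fun h => a2 (Subtype.ext h)) h
  have h3 := Finset.card_le_card h1
  have h4 := Finset.card_union_le
    (univ.filter (fun v : {v : VL q // cl q w v = j} => u ≠ v ∧ lbl u.1 v.1 ∉ L))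
    ({u} ∪ univ.filter (fun v : {v : VL q // cl q w v = j} => v ≠ u ∧ lbl u.1 v.1 ∈ L))
  have h5 := Finset.card_union_le ({u} : Finset {v : VL q // cl q w v = j})
    (univ.filter (fun v : {v : VL q // cl q w v = j} => v ≠ u ∧ lbl u.1 v.1 ∈ L))
  rw [Finset.card_singleton] at h5
  rw [Finset.card_univ] at h3
  omega

theorem stmt_LMU : Stmt_LPM → Stmt_LSZ → Stmt_LMU := by
  classical
  intro hLPM hLSZ q k w L hq hw hk hk3 hL
  have hq1 : 1 ≤ q := by omega
  haveI : NeZero (2 * q - 1) := ⟨by omega⟩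
  have key : ∀ j : Fin 3, ∃ μ : {v : VL q // cl q w v = j} → {v : VL q // cl q w v = j},
      ∀ u, μ (μ u) = u ∧ (u ≠ μ u ∧ lbl u.1 (μ u).1 ∉ L) := by
    intro j
    have hc : Fintype.card {v : VL q // cl q w v = j} = nn q j.val := by
      rw [Fintype.card_subtype]
      exact hLSZ q w (by omega) hw j
    have hj : j.val < 3 := j.isLt
    apply hLPM {v : VL q // cl q w v = j} (fun u v => u ≠ v ∧ lbl u.1 v.1 ∉ L)
    · intro u v h
      exact ⟨h.1.symm, by rw [GM1_lbl_symm]; exact h.2⟩
    · intro u h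
      exact h.1 rfl
    · rw [hc]
      exact ⟨(q + 2 - j.val) / 3, by unfold nn; ring⟩
    · intro u
      have h1 := LMU_deg L hq1 hL j u
      have h2 : 2 * (k - 2) ≤ nn q j.val := by
        unfold nn
        omega
      rw [hc] at h1 ⊢
      omega
  choose μ hμ using key
  obtain ⟨f, hf⟩ : ∃ f : VL q → VL q, ∀ v, f v = (μ (cl q w v) ⟨v, rfl⟩).1 := ⟨_, fun _ => rfl⟩
  have hf' : ∀ (j : Fin 3) (v : VL q) (h : cl q w v = j), f v = (μ j ⟨v, h⟩).1 := by
    intro j v h
    subst h
    exact hf v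
  refine ⟨f, ?_⟩
  intro v
  have h1 := hμ (cl q w v) ⟨v, rfl⟩
  have hcl : cl q w (f v) = cl q w v := by
    rw [hf v]
    exact (μ (cl q w v) ⟨v, rfl⟩).2
  refine ⟨?_, ?_, hcl, ?_⟩
  · intro h
    apply h1.2.1
    apply Subtype.ext
    show v = (μ (cl q w v) ⟨v, rfl⟩).1
    rw [← hf v, h]
  · have h2 := hf' (cl q w v) (f v) hcl
    rw [h2]
    have h3 : (⟨f v, hcl⟩ : {x : VL q // cl q w x = cl q w v}) = μ (cl q w v) ⟨v, rfl⟩ :=
      Subtype.ext (hf v)
    rw [h3, h1.1]
  · have h2 := h1.2.2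
    rw [← hf v] at h2
    exact h2

end Pool.Agent.Work.MP_1ce445_pl3
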