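import Pool.Agent.Work.MP_1ce445_pl3.InterfaceL

/-!
Block LPM of the first plateau (lower half): a perfect matching by the degree condition.
-/

namespace Pool.Agent.Work.MP_1ce445_pl3

open Finset Pool.Agent.Work.MP_1ce445_co_56 Pool.Agent.Work.MP_1ce445_lin
  Pool.Agent.Work.MP_1ce445_fx

/-- matchings, as involutions -/
def LPM_P {α : Type} (R : α → α → Prop) (σ : Equiv.Perm α) : Prop :=
  ∀ u, σ (σ u) = u ∧ (σ u = u ∨ R u (σ u))

lemma LPM_add {α : Type} [DecidableEq α] {R : α → α → Prop} (hs : ∀ u v, R u v → R v u)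
    {σ : Equiv.Perm α} (hσ : LPM_P R σ) {u x : α} (hux : u ≠ x) (hu : σ u = u) (hx : σ x = x)
    (hR : R u x) : LPM_P R (Equiv.swap u x * σ) ∧
      ∀ w, (Equiv.swap u x * σ) w = w ↔ (σ w = w ∧ w ≠ u ∧ w ≠ x) := by
  have h1 : (Equiv.swap u x * σ) u = x := by
    rw [Equiv.Perm.mul_apply, hu, Equiv.swap_apply_left]
  have h2 : (Equiv.swap u x * σ) x = u := by
    rw [Equiv.Perm.mul_apply, hx, Equiv.swap_apply_right]
  have h3 : ∀ w, w ≠ u → w ≠ x → (Equiv.swap u x * σ) w = σ w := by
    intro w hwu hwx
    rw [Equiv.Perm.mul_apply]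
    apply Equiv.swap_apply_of_ne_of_ne
    · intro h
      exact hwu (σ.injective (h.trans hu.symm))
    · intro h
      exact hwx (σ.injective (h.trans hx.symm))
  constructor
  · intro w
    by_cases hwu : w = u
    · subst hwu
      exact ⟨by rw [h1, h2], Or.inr (by rw [h1]; exact hR)⟩
    · by_cases hwx : w = x
      · subst hwx
        exact ⟨by rw [h2, h1], Or.inr (by rw [h2]; exact hs _ _ hR)⟩
      · have h4 := h3 w hwu hwx
        have h5 : (Equiv.swap u x * σ) (σ w) = σ (σ w) := by
          apply h3
          · intro h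
            exact hwu (σ.injective (h.trans hu.symm))
          · intro h
            exact hwx (σ.injective (h.trans hx.symm))
        refine ⟨?_, ?_⟩
        · rw [h4, h5]
          exact (hσ w).1
        · rw [h4]
          exact (hσ w).2
  · intro w
    by_cases hwu : w = u
    · subst hwu
      rw [h1]
      simp [hux.symm]
    · by_cases hwx : w = x
      · subst hwx
        rw [h2]
        simp [hux]
      · rw [h3 w hwu hwx]
        simp [hwu, hwx]

lemma LPM_del {α : Type} [DecidableEq α] {R : α → α → Prop}
    {σ : Equiv.Perm α} (hσ : LPM_P R σ) (x : α) : LPM_P R (Equiv.swap x (σ x) * σ) ∧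
      ∀ w, (Equiv.swap x (σ x) * σ) w = w ↔ (σ w = w ∨ w = x ∨ w = σ x) := by
  have hxx : σ (σ x) = x := (hσ x).1
  have h1 : (Equiv.swap x (σ x) * σ) x = x := by
    rw [Equiv.Perm.mul_apply, Equiv.swap_apply_right]
  have h2 : (Equiv.swap x (σ x) * σ) (σ x) = σ x := by
    rw [Equiv.Perm.mul_apply, hxx, Equiv.swap_apply_left]
  have h3 : ∀ w, w ≠ x → w ≠ σ x → (Equiv.swap x (σ x) * σ) w = σ w := by
    intro w hwu hwx
    rw [Equiv.Perm.mul_apply]
    apply Equiv.swap_apply_of_ne_of_ne
    · intro h
      apply hwx
      rw [← h]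
      exact ((hσ w).1).symm
    · intro h
      exact hwu (σ.injective h)
  constructor
  · intro w
    by_cases hwu : w = x
    · subst hwu
      exact ⟨by rw [h1, h1], Or.inl h1⟩
    · by_cases hwx : w = σ x
      · subst hwx
        exact ⟨by rw [h2, h2], Or.inl h2⟩
      · have h4 := h3 w hwu hwx
        have h5 : (Equiv.swap x (σ x) * σ) (σ w) = σ (σ w) := by
          apply h3
          · intro h
            apply hwx
            rw [← h]
            exact ((hσ w).1).symm
          · intro h
            exact hwu (σ.injective h)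
        refine ⟨?_, ?_⟩
        · rw [h4, h5]
          exact (hσ w).1
        · rw [h4]
          exact (hσ w).2
  · intro w
    by_cases hwu : w = x
    · subst hwu
      simp [h1]
    · by_cases hwx : w = σ x
      · subst hwx
        simp [h2]
      · rw [h3 w hwu hwx]
        simp [hwu, hwx]

theorem stmt_LPM : Stmt_LPM := by
  intro α _ _ R _ hs hi he hd
  classical
  obtain ⟨σ, hσ, hmin⟩ := (Finset.univ.filter (fun σ : Equiv.Perm α => LPM_P R σ)).exists_min_image
    (fun σ => (univ.filter (fun w => σ w = w)).card)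
    ⟨1, by simp [LPM_P]⟩
  rw [mem_filter] at hσ
  have hσ' := hσ.2
  have hmin' : ∀ τ : Equiv.Perm α, LPM_P R τ →
      (univ.filter (fun w => σ w = w)).card ≤ (univ.filter (fun w => τ w = w)).card :=
    fun τ hτ => hmin τ (mem_filter.2 ⟨mem_univ _, hτ⟩)
  have key : ∀ u, σ u ≠ u := by
    intro u hu
    haveI : Fact (Nat.Prime 2) := ⟨Nat.prime_two⟩
    have hpow : σ ^ 2 ^ 1 = 1 := by
      ext w
      rw [pow_one, pow_two, Equiv.Perm.mul_apply]
      exact (hσ' w).1
    obtain ⟨v, hv, hvu⟩ := Equiv.Perm.exists_fixed_point_of_prime' (p := 2) (n := 1)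
      he.two_dvd hpow hu
    -- neighbours of fixed points are not fixed
    have hA : ∀ a x, σ a = a → R a x → σ x ≠ x := by
      intro a x ha hax hx
      have hne : a ≠ x := by
        rintro rfl
        exact hi a hax
      obtain ⟨h1, h2⟩ := LPM_add hs hσ' hne ha hx hax
      have h3 := hmin' _ h1
      have h4 : (univ.filter (fun w => (Equiv.swap a x * σ) w = w)) ⊂
          (univ.filter (fun w => σ w = w)) := by
        rw [Finset.ssubset_iff_of_subset]
        · refine ⟨a, by simp [ha], ?_⟩
          rw [mem_filter, h2]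
          simp
        · intro w hw
          rw [mem_filter, h2] at hw
          exact mem_filter.2 ⟨mem_univ _, hw.2.1⟩
      exact absurd h3 (not_le.2 (card_lt_card h4))
    -- the two neighbourhoods
    have hex : ∃ x, R u x ∧ R v (σ x) := by
      by_contra hno
      push Not at hno
      have h1 : Disjoint ((univ.filter (fun x => R u x)).image σ) (univ.filter (fun x => R v x)) := by
        rw [Finset.disjoint_left]
        intro w hw hw2
        rw [mem_image] at hw
        obtain ⟨x, hx, rfl⟩ := hw
        exact hno x (mem_filter.1 hx).2 (mem_filter.1 hw2).2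
      have h2 : ((univ.filter (fun x => R u x)).image σ) ∪ (univ.filter (fun x => R v x)) ⊆
          univ \ {u, v} := by
        intro w hw
        rw [mem_union, mem_image, mem_filter] at hw
        rw [mem_sdiff, mem_insert, mem_singleton]
        refine ⟨mem_univ _, ?_⟩
        rcases hw with ⟨x, hx, rfl⟩ | ⟨-, hx⟩
        · have h3 := hA u x hu (mem_filter.1 hx).2
          rintro (h | h)
          · apply h3
            have h4 : x = u := σ.injective (h.trans hu.symm)
            rw [h4, hu]
          · apply h3
            have h4 : x = v := σ.injective (h.trans hv.symm)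
            rw [h4, hv]
        · have h3 := hA v w hv hx
          rintro (h | h)
          · exact h3 (by rw [h, hu])
          · exact h3 (by rw [h, hv])
      have h3 := card_le_card h2
      rw [card_union_of_disjoint h1, card_image_of_injective _ σ.injective,
        card_sdiff_of_subset (subset_univ _), card_pair hvu.symm, card_univ] at h3
      have h4 := hd u
      have h5 := hd v
      have h6 : 2 ≤ Fintype.card α := by
        have h7 := card_le_univ ({u, v} : Finset α)
        rwa [card_pair hvu.symm] at h7
      omega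
    obtain ⟨x, hux, hvy⟩ := hex
    have hx : σ x ≠ x := hA u x hu hux
    have hy : σ (σ x) ≠ σ x := hA v (σ x) hv hvy
    have hux' : u ≠ x := by
      rintro rfl
      exact hx hu
    have huy : u ≠ σ x := by
      intro h
      apply hy
      rw [← h, hu]
    have hvx : v ≠ x := by
      rintro rfl
      exact hx hv
    have hvy' : v ≠ σ x := by
      intro h
      apply hy
      rw [← h, hv]
    obtain ⟨a1, a2⟩ := LPM_del hσ' x
    obtain ⟨b1, b2⟩ := LPM_add hs a1 hux' ((a2 u).2 (Or.inl hu)) ((a2 x).2 (Or.inr (Or.inl rfl))) hux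
    obtain ⟨c1, c2⟩ := LPM_add hs b1 hvy'
      ((b2 v).2 ⟨(a2 v).2 (Or.inl hv), hvu, hvx⟩)
      ((b2 (σ x)).2 ⟨(a2 (σ x)).2 (Or.inr (Or.inr rfl)), huy.symm, hx⟩) hvy
    have h3 := hmin' _ c1
    have h4 : (univ.filter (fun w => (Equiv.swap v (σ x) * (Equiv.swap u x *
        (Equiv.swap x (σ x) * σ))) w = w)) ⊂ (univ.filter (fun w => σ w = w)) := by
      rw [Finset.ssubset_iff_of_subset]
      · refine ⟨u, by simp [hu], ?_⟩
        rw [mem_filter, c2, b2]
        simp
      · intro w hw
        rw [mem_filter, c2, b2, a2] at hw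
        obtain ⟨-, ⟨h5, -, h7⟩, -, h9⟩ := hw
        refine mem_filter.2 ⟨mem_univ _, ?_⟩
        rcases h5 with h | h | h
        · exact h
        · exact absurd h h7
        · exact absurd h h9
    exact absurd h3 (not_le.2 (card_lt_card h4))
  exact ⟨σ, fun u => ⟨(hσ' u).1, (hσ' u).2.resolve_left (key u)⟩⟩

end Pool.Agent.Work.MP_1ce445_pl3
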