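import Pool.Agent.Work.MP_1ce445_pl3.InterfaceL

/-! # LRL: random labels for the lower half (helper4) -/

namespace Pool.Agent.Work.MP_1ce445_pl3

open Finset Pool.Agent.Work.MP_1ce445_co_56 Pool.Agent.Work.MP_1ce445_lin
  Pool.Agent.Work.MP_1ce445_fx

/-- greedy choice of elements with disjoint translates -/
theorem LRL_greedy {G : Type} [AddCommGroup G] [DecidableEq G] (X Y : Finset G) (s : ℕ)
    (hY : Y.card ≤ s) : ∃ J : Finset G, J ⊆ X ∧ X.card ≤ (s ^ 2 + 1) * J.card ∧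
      ∀ v ∈ J, ∀ v' ∈ J, v ≠ v' →
        Disjoint (Y.image (fun y => v + y)) (Y.image (fun y => v' + y)) := by
  classical
  set F : Finset (Finset G) := X.powerset.filter (fun J => ∀ v ∈ J, ∀ v' ∈ J, v ≠ v' →
    Disjoint (Y.image (fun y => v + y)) (Y.image (fun y => v' + y))) with hF
  have hne : F.Nonempty := ⟨∅, by rw [hF, mem_filter]; exact ⟨empty_mem_powerset _, by simp⟩⟩
  obtain ⟨J, hJ, hmax⟩ := exists_max_image F Finset.card hne
  rw [hF, mem_filter, mem_powerset] at hJ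
  obtain ⟨hJX, hJd⟩ := hJ
  refine ⟨J, hJX, ?_, hJd⟩
  have hsub : X ⊆ J.biUnion (fun v => insert v ((Y ×ˢ Y).image (fun p => v + p.1 - p.2))) := by
    intro x hx
    by_contra hcon
    rw [mem_biUnion] at hcon
    push Not at hcon
    have hxJ : x ∉ J := fun h => hcon x h (mem_insert_self _ _)
    have hdis : ∀ v ∈ J, Disjoint (Y.image (fun y => x + y)) (Y.image (fun y => v + y)) := by
      intro v hv
      rw [disjoint_left]
      intro a ha hb
      obtain ⟨y, hy, rfl⟩ := mem_image.1 ha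
      obtain ⟨y', hy', he⟩ := mem_image.1 hb
      apply hcon v hv
      rw [mem_insert]
      right
      rw [mem_image]
      refine ⟨(y', y), mem_product.2 ⟨hy', hy⟩, ?_⟩
      show v + y' - y = x
      rw [show v + y' = x + y from he]
      abel
    have h1 : insert x J ∈ F := by
      rw [hF, mem_filter, mem_powerset]
      refine ⟨insert_subset hx hJX, ?_⟩
      intro v hv v' hv' hvv
      rcases mem_insert.1 hv with e | e
      · rcases mem_insert.1 hv' with e' | e'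
        · exact absurd (e.trans e'.symm) hvv
        · rw [e]
          exact hdis v' e'
      · rcases mem_insert.1 hv' with e' | e'
        · rw [e']
          exact (hdis v e).symm
        · exact hJd v e v' e' hvv
    have h2 := hmax _ h1
    rw [card_insert_of_notMem hxJ] at h2
    omega
  refine (card_le_card hsub).trans (card_biUnion_le.trans ?_)
  have h3 : ∀ v ∈ J, (insert v ((Y ×ˢ Y).image (fun p => v + p.1 - p.2))).card ≤ s ^ 2 + 1 := by
    intro v _
    refine (card_insert_le _ _).trans ?_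
    have h4 : ((Y ×ˢ Y).image (fun p : G × G => v + p.1 - p.2)).card ≤ Y.card * Y.card := by
      refine card_image_le.trans ?_
      rw [card_product]
    have h5 : Y.card * Y.card ≤ s * s := Nat.mul_le_mul hY hY
    have h6 : s ^ 2 = s * s := by ring
    omega
  refine (sum_le_sum h3).trans ?_
  rw [sum_const, smul_eq_mul, mul_comm]

/-- union bound -/
theorem LRL_union {α γ : Type} [Fintype α] [DecidableEq α] (w : Finset α → ℝ) (hw0 : ∀ L, 0 ≤ w L)
    (hw1 : ∑ L, w L = 1) (p : ℝ) (hS : ∀ S : Finset α, ∑ L, (if S ⊆ L then w L else 0) = p ^ S.card)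
    (A : Finset α)
    (m : ℕ) (hm : 0 < m) (C : Finset γ) (E : γ → Finset α → Prop) [∀ c L, Decidable (E c L)] (B : ℝ)
    (hB : ∀ c ∈ C, ∑ L, (if E c L then w L else 0) ≤ B)
    (hsum : A.card * p / m + C.card * B < 1) :
    ∃ L : Finset α, (L ∩ A).card ≤ m ∧ ∀ c ∈ C, ¬ E c L := by
  by_contra hcon
  push Not at hcon
  have hm' : (0 : ℝ) < m := by exact_mod_cast hm
  have h1 : ∀ L, w L ≤ w L * (L ∩ A).card / m + ∑ c ∈ C, (if E c L then w L else 0) := by
    intro L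
    have hn1 : 0 ≤ w L * (L ∩ A).card / m := div_nonneg (mul_nonneg (hw0 L) (by positivity)) hm'.le
    have hn2 : ∀ c ∈ C, 0 ≤ (if E c L then w L else 0) := by
      intro c _
      split_ifs
      · exact hw0 L
      · exact le_refl _
    by_cases hL : (L ∩ A).card ≤ m
    · obtain ⟨c, hc, hE⟩ := hcon L hL
      have h2 : (if E c L then w L else 0) ≤ ∑ c ∈ C, (if E c L then w L else 0) :=
        single_le_sum (f := fun c => if E c L then w L else 0) hn2 hc
      rw [if_pos hE] at h2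
      linarith
    · have h3 : (m : ℝ) ≤ (L ∩ A).card := by
        push Not at hL
        exact_mod_cast hL.le
      have h4 : w L ≤ w L * (L ∩ A).card / m := by
        rw [le_div_iff₀ hm']
        exact mul_le_mul_of_nonneg_left h3 (hw0 L)
      have h5 : 0 ≤ ∑ c ∈ C, (if E c L then w L else 0) := sum_nonneg hn2
      linarith
  have h2 : ∑ L, w L ≤ ∑ L, (w L * (L ∩ A).card / m + ∑ c ∈ C, (if E c L then w L else 0)) :=
    sum_le_sum fun L _ => h1 L
  rw [sum_add_distrib, hw1] at h2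
  have h3 : ∑ L, w L * ((L ∩ A).card : ℝ) / m = A.card * p / m := by
    rw [← sum_div]
    congr 1
    have h31 : ∀ L : Finset α, w L * ((L ∩ A).card : ℝ) =
        ∑ l ∈ A, (if ({l} : Finset α) ⊆ L then w L else 0) := by
      intro L
      simp only [singleton_subset_iff]
      rw [← sum_filter, sum_const, nsmul_eq_mul, mul_comm]
      congr 2
      congr 1
      ext l
      rw [mem_inter, mem_filter, and_comm]
    rw [sum_congr rfl fun L _ => h31 L, sum_comm, sum_congr rfl fun l _ => hS {l}]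
    simp only [card_singleton, pow_one, sum_const, nsmul_eq_mul]
  have h4 : ∑ L, ∑ c ∈ C, (if E c L then w L else 0) ≤ C.card * B := by
    rw [sum_comm]
    refine (sum_le_sum hB).trans ?_
    rw [sum_const, nsmul_eq_mul]
  rw [h3] at h2
  linarith

/-- number of the small subsets -/
theorem LRL_count {β : Type} [Fintype β] [DecidableEq β] (s : ℕ) :
    ((univ : Finset (Finset β)).filter (fun T => T.card ≤ s)).card ≤ (Fintype.card β + 1) ^ s := by
  have h1 : (univ : Finset (Finset β)).filter (fun T => T.card ≤ s) ⊆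
      (range (s + 1)).biUnion (fun i => powersetCard i univ) := by
    intro T hT
    rw [mem_filter] at hT
    rw [mem_biUnion]
    exact ⟨T.card, mem_range.2 (by omega), mem_powersetCard.2 ⟨subset_univ _, rfl⟩⟩
  refine (card_le_card h1).trans (card_biUnion_le.trans ?_)
  rw [add_pow]
  apply sum_le_sum
  intro i hi
  rw [mem_range] at hi
  rw [card_powersetCard, card_univ, one_pow, mul_one]
  have h2 : (Fintype.card β).choose i ≤ Fintype.card β ^ i := Nat.choose_le_pow _ _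
  have h3 : 1 ≤ s.choose i := Nat.choose_pos (by omega)
  calc (Fintype.card β).choose i ≤ Fintype.card β ^ i * 1 := by rw [mul_one]; exact h2
    _ ≤ Fintype.card β ^ i * s.choose i := Nat.mul_le_mul_left _ h3

/-- product of probabilities -/
theorem LRL_prod {β : Type} (p : ℝ) (hp0 : 0 ≤ p) (hp1 : p ≤ 1) (s : ℕ) (J : Finset β) (f : β → ℕ)
    (hf : ∀ v ∈ J, f v ≤ s) : ∏ v ∈ J, (1 - p ^ f v) ≤ Real.exp (-(p ^ s * J.card)) := by
  have h1 : ∏ v ∈ J, (1 - p ^ f v) ≤ ∏ _v ∈ J, Real.exp (-(p ^ s)) := by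
    apply prod_le_prod
    · intro v _
      have : p ^ f v ≤ 1 := pow_le_one₀ hp0 hp1
      linarith
    · intro v hv
      have h2 : p ^ s ≤ p ^ f v := pow_le_pow_of_le_one hp0 hp1 (hf v hv)
      have h3 := Real.add_one_le_exp (-(p ^ s))
      linarith
  refine h1.trans (le_of_eq ?_)
  rw [prod_const, ← Real.exp_nat_mul]
  congr 1
  ring

/-- the lower bound for the probability -/
theorem LRL_pow (ε x τ κ Y : ℝ) (s : ℕ) (h0 : 0 < ε) (hx : 1 < x) (hτ0 : 0 < τ) (hY : 0 < Y)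
    (hY4 : Y ^ 4 = x ^ (ε / 16)) (hY64 : Y ^ 64 = x ^ ε) (hκ1 : κ < 1)
    (hsκ : (s : ℝ) * κ ≤ 1 / 2) (hsl : (s : ℝ) ≤ 2 * Real.log x)
    (hs : 1 ≤ x ^ (1 - ε) * τ ^ s) :
    Y ^ 60 / (2 * x) ≤ (τ * (1 - κ) / (1 + ε / 32)) ^ s := by
  have hx0 : 0 < x := by linarith
  have hτs : Y ^ 64 / x ≤ τ ^ s := by
    rw [div_le_iff₀ hx0, hY64]
    have h1 : x ^ ε * x ^ (1 - ε) = x := by
      rw [← Real.rpow_add hx0, add_sub_cancel, Real.rpow_one]
    have h2 : x ^ ε * 1 ≤ x ^ ε * (x ^ (1 - ε) * τ ^ s) :=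
      mul_le_mul_of_nonneg_left hs (by positivity)
    have h3 : x ^ ε * (x ^ (1 - ε) * τ ^ s) = τ ^ s * x := by
      rw [← mul_assoc, h1, mul_comm]
    linarith
  have hκs : 1 / 2 ≤ (1 - κ) ^ s := by
    have h1 := one_add_mul_le_pow (show (-2 : ℝ) ≤ -κ by linarith) s
    have h2 : 1 + (s : ℝ) * -κ = 1 - s * κ := by ring
    have h3 : (1 + -κ) ^ s = (1 - κ) ^ s := by ring
    rw [h2, h3] at h1
    linarith
  have hδs : (1 + ε / 32) ^ s ≤ Y ^ 4 := by
    have h4 : 1 + ε / 32 ≤ Real.exp (ε / 32) := by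
      have := Real.add_one_le_exp (ε / 32)
      linarith
    calc (1 + ε / 32) ^ s ≤ (Real.exp (ε / 32)) ^ s := pow_le_pow_left₀ (by positivity) h4 s
      _ = Real.exp (s * (ε / 32)) := by rw [← Real.exp_nat_mul]
      _ ≤ x ^ (ε / 16) := by
        rw [Real.rpow_def_of_pos hx0]
        apply Real.exp_le_exp.2
        have h5 : (s : ℝ) * (ε / 32) ≤ 2 * Real.log x * (ε / 32) :=
          mul_le_mul_of_nonneg_right hsl (by positivity)
        linarith
      _ = Y ^ 4 := hY4.symm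
  rw [div_pow, mul_pow, le_div_iff₀ (by positivity)]
  calc Y ^ 60 / (2 * x) * (1 + ε / 32) ^ s ≤ Y ^ 60 / (2 * x) * Y ^ 4 :=
        mul_le_mul_of_nonneg_left hδs (by positivity)
    _ = Y ^ 64 / x * (1 / 2) := by ring
    _ ≤ τ ^ s * (1 - κ) ^ s := by
      apply mul_le_mul hτs hκs (by norm_num) (by positivity)

/-- the numerical part -/
theorem LRL_num (ε : ℝ) (h0 : 0 < ε) (h1 : ε < 1) : ∃ X0 : ℝ, ∀ x : ℝ, X0 ≤ x → 200 ≤ x ∧
    ∃ (κ : ℝ) (w : ℕ), 0 < κ ∧ κ < 1 ∧ 12 * (w : ℝ) ≤ x / 2 ∧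
      2 * (w : ℝ) + 6 ≤ κ / 2 * (x / 3) ∧
      (∀ k : ℝ, x ^ (1 - ε / 8) ≤ k → 12 * (w : ℝ) + 16 ≤ κ / 2 * k) ∧
      ∀ (s : ℕ) (τ J : ℝ), 0 < τ → τ ≤ 3 / 8 → 1 ≤ x ^ (1 - ε) * τ ^ s → 0 ≤ J →
        (w : ℝ) ≤ ((s : ℝ) ^ 2 + 1) * J →
        9 * x ^ s * Real.exp (-((τ * (1 - κ) / (1 + ε / 32)) ^ s * J)) < ε / 128 := by
  set c : ℝ := 64 / ε with hc
  have hc64 : 64 ≤ c := by
    rw [hc, le_div_iff₀ h0]
    linarith
  set M : ℝ := 400 + 4 * c + 384 * c ^ 2 * (2 * c ^ 2 + 18 * c) with hM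
  have hM0 : 0 ≤ 384 * c ^ 2 * (2 * c ^ 2 + 18 * c) := by positivity
  obtain ⟨X1, hX1⟩ := Filter.eventually_atTop.1
    ((tendsto_rpow_atTop (show 0 < ε / 64 by positivity)).eventually_ge_atTop M)
  refine ⟨max X1 200, fun x hx => ?_⟩
  have hx1 : X1 ≤ x := (le_max_left _ _).trans hx
  have hx2 : 200 ≤ x := (le_max_right _ _).trans hx
  have hx0 : 0 < x := by linarith
  have hY := hX1 x hx1
  set Y : ℝ := x ^ (ε / 64) with hYd
  have hY400 : 400 ≤ Y := by linarith
  have hY4c : 4 * c ≤ Y := by linarith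
  have hYK : 384 * c ^ 2 * (2 * c ^ 2 + 18 * c) ≤ Y := by linarith
  have hY0 : 0 < Y := by linarith
  have hY1 : 1 ≤ Y := by linarith
  have hYn : ∀ n : ℕ, Y ^ n = x ^ (n * (ε / 64)) := by
    intro n
    rw [hYd, ← Real.rpow_natCast, ← Real.rpow_mul hx0.le]
    congr 1
    ring
  have hY4 : Y ^ 4 = x ^ (ε / 16) := by
    rw [hYn]
    congr 1
    push_cast
    ring
  have hY8 : Y ^ 8 = x ^ (ε / 8) := by
    rw [hYn]
    congr 1
    push_cast
    ring
  have hY16 : Y ^ 16 = x ^ (ε / 4) := by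
    rw [hYn]
    congr 1
    push_cast
    ring
  have hY64 : Y ^ 64 = x ^ ε := by
    rw [hYn]
    congr 1
    push_cast
    ring
  have hYx : Y ^ 64 ≤ x := by
    rw [hY64]
    conv_rhs => rw [← Real.rpow_one x]
    exact Real.rpow_le_rpow_of_exponent_le (by linarith) h1.le
  have hlog : Real.log x ≤ c * Y := by
    have := Real.log_le_rpow_div hx0.le (show 0 < ε / 64 by positivity)
    rw [← hYd] at this
    refine this.trans (le_of_eq ?_)
    rw [hc]
    field_simp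
  have hlog0 : 0 < Real.log x := Real.log_pos (by linarith)
  -- `x / Y^16` is large
  have hbig : Y ^ 48 ≤ x / Y ^ 16 := by
    rw [le_div_iff₀ (by positivity)]
    calc Y ^ 48 * Y ^ 16 = Y ^ 64 := by ring
      _ ≤ x := hYx
  have hY48 : Y ^ 1 ≤ Y ^ 48 := pow_le_pow_right₀ hY1 (by norm_num)
  rw [pow_one] at hY48
  set w : ℕ := ⌊x / Y ^ 16 / 12⌋₊ with hw
  have hw1 : (w : ℝ) ≤ x / Y ^ 16 / 12 := Nat.floor_le (by positivity)
  have hw2 : x / Y ^ 16 / 24 ≤ w := by
    have h2 := Nat.lt_floor_add_one (x / Y ^ 16 / 12)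
    rw [← hw] at h2
    have h3 : 24 ≤ x / Y ^ 16 := by linarith
    linarith
  have hY2 : 400 * Y ≤ Y ^ 2 := by nlinarith
  have hY14 : Y ^ 2 * Y ^ 1 ≤ Y ^ 16 := by
    rw [← pow_add]
    exact pow_le_pow_right₀ hY1 (by norm_num)
  refine ⟨hx2, 1 / Y ^ 2, w, by positivity, ?_, ?_, ?_, ?_, ?_⟩
  · rw [div_lt_one (by positivity)]
    nlinarith
  · have h2 : x / Y ^ 16 ≤ x / 2 := by
      apply div_le_div_of_nonneg_left hx0.le (by norm_num)
      nlinarith
    linarith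
  · -- `2 w + 6 ≤ κ / 2 * (x / 3)`
    have h2 : x / Y ^ 16 ≤ x / Y ^ 2 / 400 := by
      rw [div_div]
      apply div_le_div_of_nonneg_left hx0.le (by positivity)
      nlinarith [pow_pos hY0 2]
    have h3 : 2 * (w : ℝ) + 6 ≤ x / Y ^ 16 := by linarith
    have h4 : 1 / Y ^ 2 / 2 * (x / 3) = x / Y ^ 2 / 6 := by
      field_simp
      norm_num
    have h5 : 0 ≤ x / Y ^ 2 := by positivity
    rw [h4]
    linarith
  · intro k hk
    have h2 : x / Y ^ 8 ≤ k := by
      rw [hY8]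
      have h3 : x ^ (1 - ε / 8) = x / x ^ (ε / 8) := by
        rw [Real.rpow_sub hx0, Real.rpow_one]
      rw [← h3]
      exact hk
    have h3 : 12 * (w : ℝ) + 16 ≤ 2 * (x / Y ^ 16) := by linarith
    have h4 : 2 * (x / Y ^ 16) ≤ 1 / Y ^ 2 / 2 * (x / Y ^ 8) := by
      have h5 : 1 / Y ^ 2 / 2 * (x / Y ^ 8) = (x / Y ^ 16) * (Y ^ 6 / 2) := by
        field_simp
      rw [h5, mul_comm]
      apply mul_le_mul_of_nonneg_left _ (by positivity)
      have h6 : Y ^ 1 ≤ Y ^ 6 := pow_le_pow_right₀ hY1 (by norm_num)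
      linarith
    have h7 : 1 / Y ^ 2 / 2 * (x / Y ^ 8) ≤ 1 / Y ^ 2 / 2 * k :=
      mul_le_mul_of_nonneg_left h2 (by positivity)
    linarith
  · intro s τ J hτ0 hτ1 hs hJ hJw
    have hlτ : Real.log τ ≤ -(5 / 8) := by
      have := Real.log_le_sub_one_of_pos hτ0
      linarith
    have hsl : (s : ℝ) ≤ 2 * Real.log x := by
      have h2 : 0 ≤ Real.log (x ^ (1 - ε) * τ ^ s) := Real.log_nonneg hs
      rw [Real.log_mul (by positivity) (by positivity), Real.log_rpow hx0, Real.log_pow] at h2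
      have h3 : (s : ℝ) * Real.log τ ≤ s * (-(5 / 8)) :=
        mul_le_mul_of_nonneg_left hlτ (by positivity)
      have h4 : (1 - ε) * Real.log x ≤ 1 * Real.log x :=
        mul_le_mul_of_nonneg_right (by linarith) hlog0.le
      linarith
    have hsY : (s : ℝ) ≤ 2 * c * Y := by linarith
    have hsκ : (s : ℝ) * (1 / Y ^ 2) ≤ 1 / 2 := by
      rw [mul_one_div, div_le_iff₀ (by positivity)]
      nlinarith
    have hκ1 : 1 / Y ^ 2 < 1 := by
      rw [div_lt_one (by positivity)]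
      nlinarith
    have hps := LRL_pow ε x τ (1 / Y ^ 2) Y s h0 (by linarith) hτ0 hY0 hY4 hY64 hκ1 hsκ hsl hs
    set P : ℝ := (τ * (1 - 1 / Y ^ 2) / (1 + ε / 32)) ^ s with hP
    have hP0 : 0 ≤ P := (by positivity : (0 : ℝ) ≤ Y ^ 60 / (2 * x)).trans hps
    -- `J` is large
    have hs2 : (s : ℝ) ^ 2 + 1 ≤ 8 * c ^ 2 * Y ^ 2 := by
      have h9 : (s : ℝ) ^ 2 ≤ (2 * c * Y) ^ 2 := pow_le_pow_left₀ (by positivity) hsY 2
      have h10 : 1 ≤ (c * Y) ^ 2 := by
        have h10' : 1 ≤ c * Y := one_le_mul_of_one_le_of_one_le (by linarith) hY1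
        exact one_le_pow₀ h10'
      have h11 : (2 * c * Y) ^ 2 = 4 * (c * Y) ^ 2 := by ring
      have h12 : 8 * c ^ 2 * Y ^ 2 = 8 * (c * Y) ^ 2 := by ring
      rw [h12]
      linarith
    have hJ1 : x / Y ^ 16 / 24 ≤ 8 * c ^ 2 * Y ^ 2 * J :=
      hw2.trans (hJw.trans (mul_le_mul_of_nonneg_right hs2 hJ))
    have hJ2 : x / (192 * c ^ 2 * Y ^ 18) ≤ J := by
      rw [div_le_iff₀ (by positivity)]
      rw [div_div, div_le_iff₀ (by positivity)] at hJ1
      have h13 : 8 * c ^ 2 * Y ^ 2 * J * (Y ^ 16 * 24) = J * (192 * c ^ 2 * Y ^ 18) := by ring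
      linarith
    have hPJ : Y ^ 42 / (384 * c ^ 2) ≤ P * J := by
      have h12 : Y ^ 60 / (2 * x) * (x / (192 * c ^ 2 * Y ^ 18)) ≤ P * J :=
        mul_le_mul hps hJ2 (by positivity) hP0
      have h13 : Y ^ 60 / (2 * x) * (x / (192 * c ^ 2 * Y ^ 18)) = Y ^ 42 / (384 * c ^ 2) := by
        field_simp
        ring
      rw [← h13]
      exact h12
    have hxs : x ^ s ≤ Real.exp (2 * c ^ 2 * Y ^ 2) := by
      calc x ^ s = (Real.exp (Real.log x)) ^ s := by rw [Real.exp_log hx0]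
        _ = Real.exp (s * Real.log x) := by rw [← Real.exp_nat_mul]
        _ ≤ Real.exp (2 * c ^ 2 * Y ^ 2) := by
          apply Real.exp_le_exp.2
          have h17 : (s : ℝ) * Real.log x ≤ 2 * c * Y * (c * Y) :=
            mul_le_mul hsY hlog hlog0.le (by positivity)
          have h18 : 2 * c * Y * (c * Y) = 2 * c ^ 2 * Y ^ 2 := by ring
          linarith
    have hfin : 2 * c ^ 2 * Y ^ 2 - Y ^ 42 / (384 * c ^ 2) ≤ -(18 * c) := by
      have h18 : 2 * c ^ 2 + 18 * c ≤ Y / (384 * c ^ 2) := by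
        rw [le_div_iff₀ (by positivity)]
        linarith
      have h19 : Y ^ 3 ≤ Y ^ 42 := pow_le_pow_right₀ hY1 (by norm_num)
      have h20 : Y ^ 3 / (384 * c ^ 2) ≤ Y ^ 42 / (384 * c ^ 2) :=
        div_le_div_of_nonneg_right h19 (by positivity)
      have h21 : Y ^ 3 / (384 * c ^ 2) = Y ^ 2 * (Y / (384 * c ^ 2)) := by ring
      have h22 : Y ^ 2 * (2 * c ^ 2 + 18 * c) ≤ Y ^ 2 * (Y / (384 * c ^ 2)) :=
        mul_le_mul_of_nonneg_left h18 (by positivity)
      have h23 : 1 * (18 * c) ≤ Y ^ 2 * (18 * c) :=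
        mul_le_mul_of_nonneg_right (one_le_pow₀ hY1) (by positivity)
      have h24 : Y ^ 2 * (2 * c ^ 2 + 18 * c) = 2 * c ^ 2 * Y ^ 2 + Y ^ 2 * (18 * c) := by ring
      linarith
    have hend : 9 * Real.exp (-(18 * c)) < ε / 128 := by
      have h23 : 18 * c < Real.exp (18 * c) := by
        have := Real.add_one_le_exp (18 * c)
        linarith
      rw [Real.exp_neg]
      have h24 : (Real.exp (18 * c))⁻¹ < (18 * c)⁻¹ := by
        rw [inv_lt_inv₀ (Real.exp_pos _) (by positivity)]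
        exact h23
      have h25 : 9 * (18 * c)⁻¹ = ε / 128 := by
        rw [hc]
        field_simp
        norm_num
      linarith
    calc 9 * x ^ s * Real.exp (-(P * J))
        ≤ 9 * Real.exp (2 * c ^ 2 * Y ^ 2) * Real.exp (-(Y ^ 42 / (384 * c ^ 2))) := by
          apply mul_le_mul _ _ (Real.exp_pos _).le (by positivity)
          · exact mul_le_mul_of_nonneg_left hxs (by norm_num)
          · apply Real.exp_le_exp.2
            linarith
      _ = 9 * Real.exp (2 * c ^ 2 * Y ^ 2 - Y ^ 42 / (384 * c ^ 2)) := by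
          rw [mul_assoc, ← Real.exp_add]
          congr 2
      _ ≤ 9 * Real.exp (-(18 * c)) := by
          apply mul_le_mul_of_nonneg_left _ (by norm_num)
          exact Real.exp_le_exp.2 hfin
      _ < ε / 128 := hend

theorem stmt_LRL : MP_1ce445_plt.Stmt_RW1 → MP_1ce445_plt.Stmt_RW2 → Stmt_LLB → Stmt_LRL := by
  classical
  intro hRW1 hRW2 hLLB ε h0 h1
  obtain ⟨X0, hX0⟩ := LRL_num ε h0 h1
  refine ⟨max 100 ⌈X0⌉₊, fun q k r hq hr hkq hk hx => ?_⟩
  have hq100 : 100 ≤ q := (le_max_left _ _).trans hq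
  have hqX : X0 ≤ 2 * (q : ℝ) := by
    have h2 : X0 ≤ (q : ℝ) := (Nat.le_ceil X0).trans (by exact_mod_cast (le_max_right _ _).trans hq)
    have h3 : (0 : ℝ) ≤ q := by positivity
    linarith
  obtain ⟨hx200, κ, w, hκ0, hκ1, hw12, hwA, hwk, hnum⟩ := hX0 (2 * q) hqX
  have hne : NeZero (2 * q - 1) := ⟨by omega⟩
  have hq0 : (0 : ℝ) < 2 * q := by linarith
  have hwq : 12 * w ≤ q := by
    have h2 : 12 * (w : ℝ) ≤ q := by linarith
    exact_mod_cast h2
  obtain ⟨hz1, hz2, hDD, hAA, hcnt⟩ := hLLB q w hq100 hwq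
  have hk1 := hwk k hk
  have hk0 : (0 : ℝ) < k := by
    by_contra hcon
    have h2 : κ / 2 * (k : ℝ) ≤ 0 := mul_nonpos_of_nonneg_of_nonpos (by positivity) (not_lt.1 hcon)
    have h3 : (0 : ℝ) ≤ w := by positivity
    linarith
  set s : ℕ := r - 1 with hs
  set τ : ℝ := 3 * (k : ℝ) / (2 * q) with hτd
  have hτ0 : 0 < τ := by positivity
  have hτ1 : τ ≤ 3 / 8 := by
    rw [hτd, div_le_iff₀ hq0]
    have h2 : 4 * (k : ℝ) ≤ q := by exact_mod_cast hkq
    linarith
  set δ : ℝ := ε / 32 with hδ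
  have hδ0 : 0 < δ := by positivity
  set p : ℝ := τ * (1 - κ) / (1 + δ) with hp
  have hp0 : 0 ≤ p := by
    rw [hp]
    apply div_nonneg _ (by positivity)
    exact mul_nonneg hτ0.le (by linarith)
  have hp1 : p ≤ 1 := by
    rw [hp, div_le_one (by positivity)]
    nlinarith
  obtain ⟨W, hW0, hW1, hWS⟩ := hRW1 (ZMod (2 * q - 1)) p hp0 hp1
  -- the greedy sets
  have hG : ∀ c : Finset (ZMod (2 * q - 1)) × (Fin 3 × Fin 3), ∃ J : Finset (ZMod (2 * q - 1)),
      c.1.card ≤ s → c.2.1 ≠ c.2.2 → w ≤ (s ^ 2 + 1) * J.card ∧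
      (∀ v ∈ J, cl q w (some v) = c.2.1 ∧ zn q w c.2.2 (some v)) ∧
      ∀ v ∈ J, ∀ v' ∈ J, v ≠ v' →
        Disjoint (c.1.image (fun y => v + y)) (c.1.image (fun y => v' + y)) := by
    intro c
    by_cases hc : c.1.card ≤ s
    · by_cases hc2 : c.2.1 = c.2.2
      · exact ⟨∅, fun _ h => absurd hc2 h⟩
      · obtain ⟨J, hJ1, hJ2, hJ3⟩ := LRL_greedy (univ.filter (fun x : ZMod (2 * q - 1) =>
          cl q w (some x) = c.2.1 ∧ zn q w c.2.2 (some x))) c.1 s hc
        refine ⟨J, fun _ _ => ⟨(hcnt c.2.1 c.2.2 hc2).trans ?_, ?_, hJ3⟩⟩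
        · convert hJ2
        · intro v hv
          have := hJ1 hv
          rw [mem_filter] at this
          exact this.2
    · exact ⟨∅, fun h => absurd h hc⟩
  choose J hJ using hG
  set Cs : Finset (Finset (ZMod (2 * q - 1)) × (Fin 3 × Fin 3)) :=
    ((univ : Finset (Finset (ZMod (2 * q - 1)))).filter (fun T => T.card ≤ s)) ×ˢ
      (univ.filter (fun jl : Fin 3 × Fin 3 => jl.1 ≠ jl.2)) with hC
  have hmemC : ∀ c, c ∈ Cs ↔ c.1.card ≤ s ∧ c.2.1 ≠ c.2.2 := by
    intro c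
    rw [hC, mem_product, mem_filter, mem_filter]
    exact ⟨fun h => ⟨h.1.2, h.2.2⟩, fun h => ⟨⟨mem_univ _, h.1⟩, mem_univ _, h.2⟩⟩
  have hCc : (Cs.card : ℝ) ≤ 9 * (2 * (q : ℝ)) ^ s := by
    have h2 := LRL_count (β := ZMod (2 * q - 1)) s
    rw [ZMod.card, show 2 * q - 1 + 1 = 2 * q by omega] at h2
    have h3 : Cs.card ≤ (2 * q) ^ s * 9 := by
      rw [hC, card_product]
      refine Nat.mul_le_mul h2 ?_
      refine (card_filter_le _ _).trans ?_
      simp
    have h4 : (Cs.card : ℝ) ≤ (((2 * q) ^ s * 9 : ℕ) : ℝ) := by exact_mod_cast h3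
    refine h4.trans (le_of_eq ?_)
    push_cast
    ring
  set D : ℝ := 9 * (2 * (q : ℝ)) ^ s with hD
  have hD0 : 0 < D := by positivity
  have hB : ∀ c ∈ Cs, ∑ L, (if ∀ v ∈ J c, ¬ c.1.image (fun y => v + y) ⊆ L then W L else 0) ≤
      ε / 128 / D := by
    intro c hc
    obtain ⟨hcs, hcne⟩ := (hmemC c).1 hc
    obtain ⟨hj1, hj2, hj3⟩ := hJ c hcs hcne
    have h2 := hRW2 (ZMod (2 * q - 1)) (ZMod (2 * q - 1)) p W hWS (J c)
      (fun v => c.1.image (fun y => v + y)) hj3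
    have h3 := LRL_prod p hp0 hp1 s (J c) (fun v => (c.1.image (fun y => v + y)).card)
      (fun v _ => card_image_le.trans hcs)
    have h4 := hnum s τ (J c).card hτ0 hτ1 hx (by positivity) (by exact_mod_cast hj1)
    rw [le_div_iff₀ hD0]
    have h7 : ∑ L, (if ∀ v ∈ J c, ¬ c.1.image (fun y => v + y) ⊆ L then W L else 0) ≤
        Real.exp (-(p ^ s * (J c).card)) := by
      refine le_trans (le_of_eq ?_) h3
      rw [← h2]
      refine sum_congr rfl fun L _ => ?_
      by_cases hh : ∀ v ∈ J c, ¬ c.1.image (fun y => v + y) ⊆ L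
      · rw [if_pos hh, if_pos hh]
      · rw [if_neg hh, if_neg hh]
    have h8 : (∑ L, (if ∀ v ∈ J c, ¬ c.1.image (fun y => v + y) ⊆ L then W L else 0)) * D ≤
        Real.exp (-(p ^ s * (J c).card)) * D := mul_le_mul_of_nonneg_right h7 hD0.le
    have h9 : Real.exp (-(p ^ s * (J c).card)) * D < ε / 128 := by
      rw [mul_comm]
      exact h4
    linarith
  -- the number of the free labels
  set d : ℕ := (DD q w).card with hd
  set m : ℕ := k - 3 - d with hm
  have hdk : d + 4 ≤ k := by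
    have h2 : (12 * (w : ℝ) + 16) ≤ k := by nlinarith
    have h3 : 12 * w + 16 ≤ k := by exact_mod_cast h2
    omega
  have hm0 : 0 < m := by omega
  have hm0' : (0 : ℝ) < m := by exact_mod_cast hm0
  have hmk : (k : ℝ) * (1 - κ / 2) ≤ m := by
    have h2 : m + 3 + d = k := by omega
    have h3 : (m : ℝ) + 3 + d = k := by exact_mod_cast h2
    have h4 : (d : ℝ) ≤ 12 * w + 12 := by exact_mod_cast hDD
    nlinarith
  have hAcard : ((AA q w).card : ℝ) ≤ 2 * (q : ℝ) / 3 * (1 + κ / 2) := by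
    have h2 : ((AA q w).card : ℝ) ≤ (s1 q : ℝ) + 2 * w + 4 := by exact_mod_cast hAA
    have h3 : 3 * s1 q ≤ 2 * q + 4 := by
      unfold s1 nn
      omega
    have h4 : 3 * (s1 q : ℝ) ≤ 2 * q + 4 := by exact_mod_cast h3
    nlinarith
  have hAp : ((AA q w).card : ℝ) * p ≤ m / (1 + δ) := by
    have h2 : ((AA q w).card : ℝ) * p ≤ 2 * (q : ℝ) / 3 * (1 + κ / 2) * p :=
      mul_le_mul_of_nonneg_right hAcard hp0
    have h3 : 2 * (q : ℝ) / 3 * (1 + κ / 2) * p = k * ((1 + κ / 2) * (1 - κ)) / (1 + δ) := by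
      rw [hp, hτd]
      field_simp
    have h4 : (k : ℝ) * ((1 + κ / 2) * (1 - κ)) ≤ k * (1 - κ / 2) := by
      apply mul_le_mul_of_nonneg_left _ hk0.le
      nlinarith
    rw [h3] at h2
    refine h2.trans ?_
    exact div_le_div_of_nonneg_right (h4.trans hmk) (by positivity)
  have hsum : ((AA q w).card : ℝ) * p / m + Cs.card * (ε / 128 / D) < 1 := by
    have h2 : Cs.card * (ε / 128 / D) ≤ δ / 4 := by
      have h3 : Cs.card * (ε / 128 / D) ≤ D * (ε / 128 / D) :=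
        mul_le_mul_of_nonneg_right hCc (by positivity)
      have h4 : D * (ε / 128 / D) = δ / 4 := by
        rw [mul_div_cancel₀ _ hD0.ne', hδ]
        ring
      linarith
    have h5 : ((AA q w).card : ℝ) * p / m ≤ 1 / (1 + δ) := by
      rw [div_le_iff₀ hm0']
      refine hAp.trans (le_of_eq ?_)
      ring
    have h10 : 1 / (1 + δ) + δ / 4 < 1 := by
      have h11 : 1 / (1 + δ) = 1 - δ / (1 + δ) := by
        field_simp
        ring
      have h12 : δ / 4 < δ / (1 + δ) := by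
        rw [div_lt_div_iff₀ (by norm_num) (by positivity)]
        have h13 : δ < 1 := by
          rw [hδ]
          linarith
        nlinarith
      linarith
    linarith
  obtain ⟨L0, hL0, hL0E⟩ := LRL_union W hW0 hW1 p hWS (AA q w) m hm0 Cs
    (fun c L => ∀ v ∈ J c, ¬ c.1.image (fun y => v + y) ⊆ L) _ hB hsum
  have hLc : (DD q w ∪ (L0 ∩ AA q w)).card ≤ k - 3 := by
    refine (card_union_le _ _).trans ?_
    omega
  have hcard : k - 3 ≤ (univ : Finset (ZMod (2 * q - 1))).card := by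
    rw [card_univ, ZMod.card]
    omega
  obtain ⟨L, hL1, -, hL3⟩ := exists_subsuperset_card_eq (subset_univ (DD q w ∪ (L0 ∩ AA q w)))
    hLc hcard
  have hLD : ∀ a ∈ DD q w, a ∈ L := fun a ha => hL1 (mem_union_left _ ha)
  refine ⟨w, L, hwq, hL3, ⟨fun l l' u v hu hv => hLD _ (hz1 l l' u v hu hv), ?_⟩⟩
  intro T j l hjl hT hTl
  set Y : Finset (ZMod (2 * q - 1)) := univ.filter (fun y => some y ∈ T) with hYd
  have hYc : Y.card ≤ s := by
    refine le_trans ?_ hT
    refine card_le_card_of_injOn (fun y => (some y : VL q)) ?_ ?_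
    · intro y hy
      exact (mem_filter.1 hy).2
    · intro a _ b _ hab
      exact Option.some_injective _ hab
  have hc : ((Y, (j, l)) : Finset (ZMod (2 * q - 1)) × (Fin 3 × Fin 3)) ∈ Cs :=
    (hmemC _).2 ⟨hYc, hjl⟩
  have hE := hL0E _ hc
  push Not at hE
  obtain ⟨v, hv, hvL⟩ := hE
  obtain ⟨-, hj2, -⟩ := hJ (Y, (j, l)) hYc hjl
  obtain ⟨hv1, hv2⟩ := hj2 v hv
  refine ⟨some v, hv1, hv2, fun t ht => ?_⟩
  by_cases hzt : ∃ l', zn q w l' t
  · obtain ⟨l', hl'⟩ := hzt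
    exact hLD _ (hz1 l l' _ _ hv2 hl')
  · push Not at hzt
    rcases hz2 l (some v) t hv2 (hTl t ht) hzt with h2 | ⟨h2, h3⟩
    · exact hLD _ h2
    · obtain ⟨y, rfl⟩ := Option.ne_none_iff_exists'.1 h2
      refine hL1 (mem_union_right _ (mem_inter.2 ⟨?_, h3⟩))
      apply hvL
      exact mem_image.2 ⟨y, mem_filter.2 ⟨mem_univ _, ht⟩, rfl⟩

end Pool.Agent.Work.MP_1ce445_pl3
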