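import Pool.Agent.Work.MP_1ce445_pl3.Interface2

/-!
Block LSM of the first plateau: the lower bound for `k ≤ n^(1-δ)`, even `n`.
-/

namespace Pool.Agent.Work.MP_1ce445_pl3

open Finset Pool.Agent.Work.MP_1ce445_co_56 Pool.Agent.Work.MP_1ce445_lin
  Pool.Agent.Work.MP_1ce445_fx

lemma LSM_fin {n k m : ℕ} {ε ρ : ℝ} (hε1 : ε < 1) (hρ : 1 ≤ ρ)
    (hev : NN n = n) (hT : (2 * ((n / 2 : ℕ) : ℝ) / 3 + 2 * m - ε) ^ 3 ≤ (TTm m (n / 2) : ℝ))
    (hle : 2 * (1 - ε) * ρ ≤ 2 * m - ε)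
    (hP : NN n ^ (k - 3) * TTm m (n / 2) ≤ P n k) :
    (n : ℝ) ^ (k - 3) * ((n : ℝ) / 3 + 2 * (1 - ε) * ρ) ^ 3 ≤ (P n k : ℝ) := by
  have h2 : 2 * ((n / 2 : ℕ) : ℝ) = n := by
    have : 2 * (n / 2) = n := hev
    exact_mod_cast this
  rw [h2] at hT
  have h0 : 0 ≤ (n : ℝ) / 3 + 2 * (1 - ε) * ρ := by
    have h3 : 0 ≤ (1 - ε) * ρ := mul_nonneg (by linarith) (by linarith)
    have h4 : (0:ℝ) ≤ (n : ℝ) / 3 := by positivity
    linarith
  have h5 : ((n : ℝ) / 3 + 2 * (1 - ε) * ρ) ^ 3 ≤ (TTm m (n / 2) : ℝ) := by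
    refine le_trans (pow_le_pow_left₀ h0 ?_ 3) hT
    linarith
  rw [hev] at hP
  calc (n : ℝ) ^ (k - 3) * ((n : ℝ) / 3 + 2 * (1 - ε) * ρ) ^ 3
      ≤ (n : ℝ) ^ (k - 3) * (TTm m (n / 2) : ℝ) :=
        mul_le_mul_of_nonneg_left h5 (by positivity)
    _ ≤ (P n k : ℝ) := by exact_mod_cast hP

theorem stmt_LSM : Stmt_LOM → Stmt_LOU → Stmt_LTT → Stmt_LSM := by
  intro hLOM hLOU hLTT ε δ hε hε1 hδ hδ1
  obtain ⟨nU, hU⟩ := hLOU
  obtain ⟨qT, hT⟩ := hLTT ε hε
  have h2 : ∀ j : ℕ, ∃ (C : ℝ) (n0 : ℕ), ∀ n k : ℕ, n0 ≤ n →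
      C * (n : ℝ) ^ j ≤ (k : ℝ) ^ (j + 1) → C ≤ k → 5 * k ≤ n →
      NN n ^ (k - 3) * TTm (j + 2) (n / 2) ≤ P n k := by
    intro j
    obtain ⟨C, n0, h⟩ := hLOM (j + 2) (by omega)
    refine ⟨C, n0, fun n k h1 h2 h3 h4 => h n k h1 ?_ h3 h4⟩
    have e1 : j + 2 - 2 = j := by omega
    have e2 : j + 2 - 1 = j + 1 := by omega
    rw [e1, e2]
    exact h2
  choose C N0 hC using h2
  obtain ⟨M, hM⟩ : ∃ M : ℕ, 2 / δ ≤ M := ⟨⌈2 / δ⌉₊, Nat.le_ceil _⟩
  obtain ⟨Cs, hCs⟩ : ∃ Cs : ℝ, Cs = 1 + ∑ j ∈ range (M + 1), |C j| := ⟨_, rfl⟩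
  have hCs1 : 1 ≤ Cs := by
    rw [hCs]
    have : 0 ≤ ∑ j ∈ range (M + 1), |C j| := sum_nonneg fun _ _ => abs_nonneg _
    linarith
  have hCj : ∀ j ∈ range (M + 1), C j ≤ Cs := by
    intro j hj
    have h1 : |C j| ≤ ∑ j ∈ range (M + 1), |C j| :=
      single_le_sum (f := fun j => |C j|) (fun _ _ => abs_nonneg _) hj
    have h3 := le_abs_self (C j)
    linarith
  have hlC : 0 ≤ Real.log Cs := Real.log_nonneg hCs1
  have hl3 : 0 < Real.log 3 := Real.log_pos (by norm_num)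
  have hl5 : 0 < Real.log 5 := Real.log_pos (by norm_num)
  obtain ⟨B0, hB0⟩ : ∃ B0 : ℝ, B0 = 2 * Real.log 3 / δ + Real.log 5 / δ +
      2 / ε * (Real.log Cs + M * Real.log 3) + M * Real.log Cs + 1 := ⟨_, rfl⟩
  have q1 : 0 ≤ 2 * Real.log 3 / δ := by positivity
  have q2 : 0 ≤ Real.log 5 / δ := by positivity
  have q3 : 0 ≤ 2 / ε * (Real.log Cs + M * Real.log 3) := by positivity
  have q4 : 0 ≤ M * Real.log Cs := by positivity
  refine ⟨nU + 2 * qT + ∑ j ∈ range (M + 1), N0 j + ⌈Real.exp B0⌉₊ + 1, ?_⟩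
  intro n k hn hev hk hkn
  have hn0 : 0 < n := by omega
  have hnR : (0:ℝ) < n := by exact_mod_cast hn0
  have hk0 : (0:ℝ) < k := by
    have : 0 < k := by omega
    exact_mod_cast this
  have hNN : NN n = n := by
    unfold NN
    obtain ⟨r, hr⟩ := hev
    omega
  have hL : B0 ≤ Real.log n := by
    rw [Real.le_log_iff_exp_le hnR]
    have h3 := Nat.le_ceil (Real.exp B0)
    have h4 : ((⌈Real.exp B0⌉₊ : ℕ) : ℝ) ≤ n := by
      exact_mod_cast (by omega : ⌈Real.exp B0⌉₊ ≤ n)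
    linarith
  obtain ⟨L, hLdef⟩ : ∃ L : ℝ, L = Real.log n := ⟨_, rfl⟩
  obtain ⟨lk, hlk⟩ : ∃ lk : ℝ, lk = Real.log k := ⟨_, rfl⟩
  rw [← hLdef] at hL
  have hlk' : lk ≤ (1 - δ) * L := by
    rw [hlk, hLdef, ← Real.log_rpow hnR]
    exact Real.log_le_log hk0 hkn
  have hlk0 : 0 < lk := by
    rw [hlk]
    apply Real.log_pos
    exact_mod_cast (by omega : 1 < k)
  have hL3 : 2 * Real.log 3 / δ ≤ L := by linarith
  have hL5 : Real.log 5 / δ ≤ L := by linarith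
  have hLC : 2 / ε * (Real.log Cs + M * Real.log 3) ≤ L := by linarith
  have hLM : M * Real.log Cs ≤ L := by linarith
  have hL1 : 1 ≤ L := by linarith
  rw [div_le_iff₀ hδ] at hL3 hL5
  -- `5 k ≤ n`
  have h5k : 5 * k ≤ n := by
    have h3 : Real.log (5 * k) ≤ Real.log n := by
      rw [Real.log_mul (by norm_num) hk0.ne', ← hlk, ← hLdef]
      linarith
    have h4 : (5:ℝ) * k ≤ n := (Real.log_le_log_iff (by positivity) hnR).1 h3
    exact_mod_cast h4
  -- the number `ρ`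
  have hrh : rh n k = L / (L - Real.log 3 - lk) := by
    unfold rh
    rw [Real.log_div (by positivity) hnR.ne', Real.log_mul (by norm_num) hk0.ne', ← hlk, ← hLdef]
    congr 1
    ring
  obtain ⟨u, hu⟩ : ∃ u : ℝ, u = L - Real.log 3 - lk := ⟨_, rfl⟩
  rw [← hu] at hrh
  have hu1 : δ / 2 * L ≤ u := by
    rw [hu]
    linarith
  have hu0 : 0 < u := lt_of_lt_of_le (by positivity) hu1
  have huL : u ≤ L := by
    rw [hu]
    linarith
  have hρ1 : 1 ≤ rh n k := by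
    rw [hrh, le_div_iff₀ hu0]
    linarith
  have hρ2 : rh n k ≤ 2 / δ := by
    rw [hrh, div_le_div_iff₀ hu0 hδ]
    linarith
  rcases le_or_gt ((1 - ε / 2) * rh n k) 2 with hA | hA
  · -- LOU
    have h3 := hU n k (by omega) hk (by omega)
    refine LSM_fin (m := 2) hε1 hρ1 hNN ?_ ?_ h3
    · exact_mod_cast hT (n / 2) 2 (by omega)
    · have h4 : (1 - ε) * rh n k ≤ (1 - ε / 2) * ((1 - ε / 2) * rh n k) := by
        have h5 : (1 - ε) * rh n k ≤ ((1 - ε / 2) * (1 - ε / 2)) * rh n k := by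
          apply mul_le_mul_of_nonneg_right _ (by linarith)
          have := sq_nonneg ε
          linarith
        linarith
      have h6 : (1 - ε / 2) * ((1 - ε / 2) * rh n k) ≤ (1 - ε / 2) * 2 :=
        mul_le_mul_of_nonneg_left hA (by linarith)
      push_cast
      linarith
  · -- LOM
    have hx0 : 0 ≤ (1 - ε / 2) * rh n k := by linarith
    have hm1 := Nat.le_ceil ((1 - ε / 2) * rh n k)
    have hm2 := Nat.ceil_lt_add_one hx0
    have hm3 : 3 ≤ ⌈(1 - ε / 2) * rh n k⌉₊ := by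
      have h3 : (2:ℝ) < (⌈(1 - ε / 2) * rh n k⌉₊ : ℝ) := by linarith
      have h4 : 2 < ⌈(1 - ε / 2) * rh n k⌉₊ := by exact_mod_cast h3
      omega
    obtain ⟨j, hj⟩ : ∃ j, ⌈(1 - ε / 2) * rh n k⌉₊ = j + 2 :=
      ⟨⌈(1 - ε / 2) * rh n k⌉₊ - 2, by omega⟩
    rw [hj] at hm1 hm2 hm3
    push_cast at hm1 hm2
    have hj1 : (1:ℝ) ≤ j := by exact_mod_cast (by omega : 1 ≤ j)
    have hjx : (j : ℝ) + 1 < (1 - ε / 2) * rh n k := by linarith
    have hjM : (j : ℝ) + 1 ≤ M := by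
      have h3 : (1 - ε / 2) * rh n k ≤ 1 * rh n k := by
        apply mul_le_mul_of_nonneg_right _ (by linarith)
        linarith
      linarith
    have hjM' : j + 1 ≤ M := by exact_mod_cast hjM
    have hjr : j ∈ range (M + 1) := mem_range.2 (by omega)
    -- logarithms
    have hju : ((j : ℝ) + 1) * u < (1 - ε / 2) * L := by
      have h3 : ((j : ℝ) + 1) * u < ((1 - ε / 2) * rh n k) * u :=
        mul_lt_mul_of_pos_right hjx hu0
      have h4 : rh n k * u = L := by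
        rw [hrh]
        exact div_mul_cancel₀ _ hu0.ne'
      calc ((j : ℝ) + 1) * u < ((1 - ε / 2) * rh n k) * u := h3
        _ = (1 - ε / 2) * (rh n k * u) := by ring
        _ = (1 - ε / 2) * L := by rw [h4]
    have hgain : Real.log Cs + ((j : ℝ) + 1) * Real.log 3 ≤ ε / 2 * L := by
      have h3 : ((j : ℝ) + 1) * Real.log 3 ≤ M * Real.log 3 :=
        mul_le_mul_of_nonneg_right hjM hl3.le
      have h4 : ε / 2 * (2 / ε * (Real.log Cs + M * Real.log 3)) ≤ ε / 2 * L :=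
        mul_le_mul_of_nonneg_left hLC (by positivity)
      have h5 : ε / 2 * (2 / ε * (Real.log Cs + M * Real.log 3)) =
          Real.log Cs + M * Real.log 3 := by
        field_simp
      linarith
    have hmain : Real.log Cs + j * L ≤ ((j : ℝ) + 1) * lk := by
      rw [hu] at hju
      have h3 : ((j : ℝ) + 1) * (L - Real.log 3 - lk) =
          j * L + L - ((j : ℝ) + 1) * Real.log 3 - ((j : ℝ) + 1) * lk := by ring
      rw [h3] at hju
      linarith
    have hCpos : 0 < Cs := by linarith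
    have hc1 : Cs * (n : ℝ) ^ j ≤ (k : ℝ) ^ (j + 1) := by
      rw [← Real.log_le_log_iff (by positivity) (by positivity),
        Real.log_mul hCpos.ne' (by positivity), Real.log_pow, Real.log_pow, ← hlk, ← hLdef]
      push_cast
      exact hmain
    have hc2 : Cs ≤ k := by
      rw [← Real.log_le_log_iff hCpos hk0, ← hlk]
      by_contra hcon
      push Not at hcon
      have h3 : ((j : ℝ) + 1) * lk < ((j : ℝ) + 1) * Real.log Cs :=
        mul_lt_mul_of_pos_left hcon (by linarith)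
      have h4 : ((j : ℝ) + 1) * Real.log Cs ≤ M * Real.log Cs :=
        mul_le_mul_of_nonneg_right hjM hlC
      have h5 : 1 * L ≤ j * L := mul_le_mul_of_nonneg_right hj1 (by linarith)
      linarith
    have hN0 : N0 j ≤ n := by
      have h3 : N0 j ≤ ∑ j ∈ range (M + 1), N0 j :=
        single_le_sum (f := fun j => N0 j) (fun _ _ => Nat.zero_le _) hjr
      omega
    have h6 := hC j n k hN0
      (le_trans (mul_le_mul_of_nonneg_right (hCj j hjr) (by positivity)) hc1)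
      ((hCj j hjr).trans hc2) h5k
    refine LSM_fin (m := j + 2) hε1 hρ1 hNN ?_ ?_ h6
    · exact_mod_cast hT (n / 2) (j + 2) (by omega)
    · have h7 : ε * 1 ≤ ε * rh n k := mul_le_mul_of_nonneg_left hρ1 hε.le
      push_cast
      linarith

end Pool.Agent.Work.MP_1ce445_pl3
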