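import Pool.Agent.Work.MP_1ce445_pl3.InterfaceL

/-! # Block LSZ: the class sizes -/

namespace Pool.Agent.Work.MP_1ce445_pl3

open Finset Pool.Agent.Work.MP_1ce445_co_56 Pool.Agent.Work.MP_1ce445_lin
  Pool.Agent.Work.MP_1ce445_fx

/-- the class as a function of the residue -/
def LSZ_f (q w k : ℕ) : Fin 3 :=
  if k < w then 1 else if k < 2 * w then 2 else if k < s1 q + w then 0
    else if k < s2 q then 1 else if k < s2 q + w then 0 else 2

lemma LSZ_card (N : ℕ) [Fintype (ZMod N)] (hN : 0 < N) (P : ℕ → Prop) [DecidablePred P] :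
    (univ.filter (fun x : ZMod N => P x.val)).card = ((range N).filter P).card := by
  have : NeZero N := ⟨hN.ne'⟩
  refine Finset.card_bij (fun x _ => x.val) ?_ ?_ ?_
  · intro x hx
    rw [Finset.mem_filter] at hx
    rw [Finset.mem_filter, Finset.mem_range]
    exact ⟨ZMod.val_lt x, hx.2⟩
  · intro x _ y _ h
    exact ZMod.val_injective N h
  · intro k hk
    rw [Finset.mem_filter, Finset.mem_range] at hk
    have hv : ((k : ℕ) : ZMod N).val = k := by
      rw [ZMod.val_natCast, Nat.mod_eq_of_lt hk.1]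
    refine ⟨(k : ZMod N), ?_, hv⟩
    rw [Finset.mem_filter, hv]
    exact ⟨Finset.mem_univ _, hk.2⟩

lemma LSZ_two (s : Finset ℕ) (a b c d : ℕ) (hbc : b ≤ c)
    (h : ∀ k, k ∈ s ↔ (a ≤ k ∧ k < b) ∨ (c ≤ k ∧ k < d)) : s.card = (b - a) + (d - c) := by
  have : s = Ico a b ∪ Ico c d := by
    ext k
    rw [h, Finset.mem_union, Finset.mem_Ico, Finset.mem_Ico]
  rw [this, Finset.card_union_of_disjoint, Nat.card_Ico, Nat.card_Ico]
  rw [Finset.disjoint_left]
  intro k hk hk'
  rw [Finset.mem_Ico] at hk hk'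
  omega

/-- Block LSZ. -/
theorem stmt_LSZ : Stmt_LSZ := by
  intro q w _ hq hw j
  have e0 : s1 q = 2 * ((q + 2) / 3) := rfl
  have e1 : s2 q = 2 * ((q + 2) / 3) + 2 * ((q + 2 - 1) / 3) := rfl
  have hc : ∀ x : ZMod (2 * q - 1), cl q w (some x) = LSZ_f q w x.val := fun x => rfl
  have hcn : cl q w none = 2 := rfl
  have hN : 0 < 2 * q - 1 := by omega
  have h1 : (univ.filter (fun v : VL q => cl q w v = j)).card =
      (if (2 : Fin 3) = j then 1 else 0) +
        ((range (2 * q - 1)).filter (fun k => LSZ_f q w k = j)).card := by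
    rw [← LSZ_card (2 * q - 1) hN (fun k => LSZ_f q w k = j), Finset.card_filter,
      Finset.card_filter, Fintype.sum_option]
    rfl
  rw [h1]
  have f0 : nn q 0 = 2 * ((q + 2) / 3) := rfl
  have f1 : nn q 1 = 2 * ((q + 2 - 1) / 3) := rfl
  have f2 : nn q 2 = 2 * ((q + 2 - 2) / 3) := rfl
  have hj : j = 0 ∨ j = 1 ∨ j = 2 := by
    have h : ∀ i : Fin 3, i = 0 ∨ i = 1 ∨ i = 2 := by decide
    exact h j
  rcases hj with rfl | rfl | rfl
  · have h2 := LSZ_two ((range (2 * q - 1)).filter (fun k => LSZ_f q w k = 0)) (2 * w) (s1 q + w)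
      (s2 q) (s2 q + w) (by omega) (by
        intro k
        rw [Finset.mem_filter, Finset.mem_range]
        unfold LSZ_f
        split_ifs <;> simp <;> omega)
    rw [h2, if_neg (by decide)]
    show 0 + _ = nn q 0
    omega
  · have h2 := LSZ_two ((range (2 * q - 1)).filter (fun k => LSZ_f q w k = 1)) 0 w
      (s1 q + w) (s2 q) (by omega) (by
        intro k
        rw [Finset.mem_filter, Finset.mem_range]
        unfold LSZ_f
        split_ifs <;> simp <;> omega)
    rw [h2, if_neg (by decide)]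
    show 0 + _ = nn q 1
    omega
  · have h2 := LSZ_two ((range (2 * q - 1)).filter (fun k => LSZ_f q w k = 2)) w (2 * w)
      (s2 q + w) (2 * q - 1) (by omega) (by
        intro k
        rw [Finset.mem_filter, Finset.mem_range]
        unfold LSZ_f
        split_ifs <;> simp <;> omega)
    rw [h2, if_pos rfl]
    show 1 + _ = nn q 2
    omega

end Pool.Agent.Work.MP_1ce445_pl3
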