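import Pool.Agent.Work.MP_1ce445_pl3.Interface2

/-! # Block LTT: a lower bound for `TTm`, uniform in `r` -/

namespace Pool.Agent.Work.MP_1ce445_pl3

open Finset Pool.Agent.Work.MP_1ce445_co_56 Pool.Agent.Work.MP_1ce445_lin
  Pool.Agent.Work.MP_1ce445_fx

theorem stmt_LTT (h : Stmt_NUN) : Stmt_LTT := by
  intro c hc
  obtain ⟨-, h2, -, -⟩ := h
  refine ⟨⌈3 / 2 * (c + 1 + 2 / c)⌉₊, ?_⟩
  intro q r hq
  have h3 : 8 * ((q : ℝ) + 3 * r) ^ 3 ≤ 27 * (TTm r q : ℝ) + 24 * ((q : ℝ) + 3 * r + 1) := by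
    exact_mod_cast h2 r q
  have h4 : 3 / 2 * (c + 1 + 2 / c) ≤ (q : ℝ) := Nat.ceil_le.mp hq
  have hr : (0 : ℝ) ≤ r := Nat.cast_nonneg r
  obtain ⟨x, hx⟩ : ∃ x : ℝ, x = 2 * (q : ℝ) / 3 + 2 * r := ⟨_, rfl⟩
  rw [← hx]
  have hc2 : 0 < 2 / c := by positivity
  have h5 : c + 1 + 2 / c ≤ x := by
    rw [hx]
    linarith
  have h7 : 1 ≤ x := by linarith
  have hx0 : 0 < x := by linarith
  have h8 : 3 * c * x * (1 + 2 / c) ≤ 3 * c * x * (x - c) :=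
    mul_le_mul_of_nonneg_left (by linarith) (by positivity)
  have h9 : 3 * c * x * (1 + 2 / c) = 3 * c * x + 6 * x := by
    have h : c * (2 / c) = 2 := mul_div_cancel₀ 2 hc.ne'
    calc 3 * c * x * (1 + 2 / c) = 3 * c * x + 3 * x * (c * (2 / c)) := by ring
      _ = 3 * c * x + 6 * x := by rw [h]; ring
  have h10 : (q : ℝ) + 3 * r = 3 / 2 * x := by
    rw [hx]
    ring
  have h11 : (x - c) ^ 3 = x ^ 3 - 3 * c * x * (x - c) - c ^ 3 := by ring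
  have h12 : (3 / 2 * x) ^ 3 = 27 / 8 * x ^ 3 := by ring
  rw [h10, h12] at h3
  have h13 : 0 ≤ 3 * c * x := by positivity
  have h14 : 0 ≤ c ^ 3 := by positivity
  rw [h11]
  linarith

end Pool.Agent.Work.MP_1ce445_pl3
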