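import Pool.Agent.Work.MP_1ce445_pl3.InterfaceL
import Pool.Agent.Work.MP_1ce445_pl3.Interface2

/-!
Block LWE of the first plateau, lower half (helper66).
-/

namespace Pool.Agent.Work.MP_1ce445_pl3

open Finset Pool.Agent.Work.MP_1ce445_co_56 Pool.Agent.Work.MP_1ce445_lin
  Pool.Agent.Work.MP_1ce445_fx

theorem LWE_three (q k : ℕ) (ε : ℝ) (h1 : ε < 1) (hq : 100 ≤ q)
    (h : (2 * (q : ℝ)) ^ (1 - ε / 8) ≤ k) : 3 ≤ k := by
  have hq' : (100 : ℝ) ≤ q := by exact_mod_cast hq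
  have h2 : (2 * (q : ℝ)) ^ (1 / 2 : ℝ) ≤ (2 * (q : ℝ)) ^ (1 - ε / 8) :=
    Real.rpow_le_rpow_of_exponent_le (by linarith) (by linarith)
  have h3 : (9 : ℝ) ^ (1 / 2 : ℝ) ≤ (2 * (q : ℝ)) ^ (1 / 2 : ℝ) :=
    Real.rpow_le_rpow (by norm_num) (by linarith) (by norm_num)
  have h4 : (9 : ℝ) ^ (1 / 2 : ℝ) = 3 := by
    rw [← Real.sqrt_eq_rpow, show (9 : ℝ) = 3 ^ 2 by norm_num, Real.sqrt_sq (by norm_num)]
  have h5 : (3 : ℝ) ≤ k := by linarith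
  exact_mod_cast h5

theorem stmt_LWE (hLRL : Stmt_LRL) (hLMU : Stmt_LMU) (hLG1 : Stmt_LG1) (hLG2 : Stmt_LG2)
    (hLG3 : Stmt_LG3) : Stmt_LWE := by
  intro ε h0 h1
  obtain ⟨q0, hL⟩ := hLRL ε h0 h1
  refine ⟨q0 + 100, fun q k r hq hk h60 hr hn => ?_⟩
  have h100 : 100 ≤ q := by omega
  have hk3 : 3 ≤ k := LWE_three q k ε h1 h100 hk
  have h4 : 4 * k ≤ q := by omega
  obtain ⟨w, L, hw, hLc, hgood⟩ := hL q k r (by omega) hr h4 hk hn
  obtain ⟨μ, hμ⟩ := hLMU q k w L h100 hw h4 hk3 hLc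
  have hfac := hLG1 q k w L μ h100 hw h4 hk3 hLc hμ
  have hg2 := hLG2 q k w L μ h100 hw h4 hk3 hLc hμ
  have hg3 := hLG3 q k w r L μ h100 hw h4 hk3 hLc hμ hr hgood
  haveI : NeZero (2 * q - 1) := ⟨by omega⟩
  have hV : Fintype.card (Option (ZMod (2 * q - 1))) = 2 * q := by
    rw [Fintype.card_option, ZMod.card]; omega
  have hι : Fintype.card (L ⊕ Fin 3) = k := by
    rw [Fintype.card_sum, Fintype.card_coe, hLc, Fintype.card_fin]; omega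
  refine le_trans ?_ (le_P hV hι hfac)
  rw [Fintype.prod_sum_type]
  have er : (2 * q) ^ (k - 3) ≤ ∏ l : L, gammaT (GW q w L μ (Sum.inl l)) := by
    calc (2 * q) ^ (k - 3) = ∏ _l : L, 2 * q := by
          rw [prod_const, card_univ, Fintype.card_coe, hLc]
      _ ≤ _ := Finset.prod_le_prod' fun l _ => hg2 l
  have e0 := hg3 0
  have e1 := hg3 1
  have e2 := hg3 2
  have v0 : ((0 : Fin 3) : Fin 3).val = 0 := rfl
  have v1 : ((1 : Fin 3) : Fin 3).val = 1 := rfl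
  have v2 : ((2 : Fin 3) : Fin 3).val = 2 := rfl
  rw [v0] at e0
  rw [v1] at e1
  rw [v2] at e2
  unfold nn at e0 e1 e2
  have a0 : 2 * ((q + 3 * r + 2) / 3) ≤ gammaT (GW q w L μ (Sum.inr 0)) := by omega
  have a1 : 2 * ((q + 3 * r + 1) / 3) ≤ gammaT (GW q w L μ (Sum.inr 1)) := by omega
  have a2 : 2 * ((q + 3 * r) / 3) ≤ gammaT (GW q w L μ (Sum.inr 2)) := by omega
  rw [Fin.prod_univ_three]
  calc (2 * q) ^ (k - 3) * TTm r q
      = (2 * q) ^ (k - 3) * (2 * ((q + 3 * r + 2) / 3) * (2 * ((q + 3 * r + 1) / 3)) *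
        (2 * ((q + 3 * r) / 3))) := by
        unfold TTm; ring
    _ ≤ _ := Nat.mul_le_mul er (Nat.mul_le_mul (Nat.mul_le_mul a0 a1) a2)

end Pool.Agent.Work.MP_1ce445_pl3
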