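import Pool.Agent.Work.MP_1ce445_pl3.Interface2

/-!
Block LWG (MP_1ce445_co, first plateau, lower half, even `n`).
-/

namespace Pool.Agent.Work.MP_1ce445_pl3

open Finset Pool.Agent.Work.MP_1ce445_co_56 Pool.Agent.Work.MP_1ce445_lin
  Pool.Agent.Work.MP_1ce445_fx

theorem stmt_LWG : Stmt_LWE → Stmt_LSM → Stmt_LTT → Stmt_LWG := by
  intro hE hS hT ε hε hε1
  obtain ⟨n1, h1⟩ := hS ε (ε / 16) hε hε1 (by positivity) (by linarith)
  obtain ⟨q1, h2⟩ := hE (ε / 2) (by positivity) (by linarith)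
  obtain ⟨q2, h3⟩ := hT ε hε
  refine ⟨n1 + 2 * q1 + 2 * q2 + 1, ?_⟩
  intro n k hn hev hk hkn
  rcases le_or_gt (k : ℝ) ((n : ℝ) ^ (1 - ε / 16)) with h | h
  · exact h1 n k (by omega) hev hk h
  · obtain ⟨q, hq⟩ := hev.two_dvd
    subst hq
    have hq0 : 0 < q := by omega
    have hn0 : (0 : ℝ) < 2 * q := by positivity
    have hcast : ((2 * q : ℕ) : ℝ) = 2 * (q : ℝ) := by push_cast; ring
    have hk1 : (28 : ℝ) ≤ k := by exact_mod_cast hk
    have hkn' : 120 * (k : ℝ) ≤ 2 * q := by exact_mod_cast hkn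
    rw [hcast] at h ⊢
    obtain ⟨κ, hκ⟩ : ∃ κ : ℝ, κ = 3 * (k : ℝ) / (2 * q) := ⟨_, rfl⟩
    have hκ0 : 0 < κ := by rw [hκ]; positivity
    have hκ1 : κ < 1 := by
      rw [hκ, div_lt_one hn0]
      linarith
    have hL : 0 < - Real.log κ := by
      have := Real.log_neg hκ0 hκ1
      linarith
    have hρ : rh (2 * q) k = Real.log (2 * q) / (- Real.log κ) := by
      unfold rh
      rw [hcast, hκ]
    have hLn : - Real.log κ ≤ Real.log (2 * q) := by
      have h4 : Real.log κ = Real.log (3 * k) - Real.log (2 * q) := by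
        rw [hκ, Real.log_div (by positivity) hn0.ne']
      have h5 : 0 ≤ Real.log (3 * k) := Real.log_nonneg (by linarith)
      linarith
    have hρ1 : 1 ≤ rh (2 * q) k := by
      rw [hρ, le_div_iff₀ hL]
      linarith
    have hρm : rh (2 * q) k * (- Real.log κ) = Real.log (2 * q) := by
      rw [hρ, div_mul_cancel₀ _ hL.ne']
    obtain ⟨ρ, hρd⟩ : ∃ ρ : ℝ, ρ = rh (2 * q) k := ⟨_, rfl⟩
    rw [← hρd] at hρ1 hρm ⊢
    have hy0 : 0 ≤ (1 - ε / 2) * ρ := mul_nonneg (by linarith) (by linarith)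
    obtain ⟨s, hs⟩ : ∃ s : ℕ, s = ⌊(1 - ε / 2) * ρ⌋₊ := ⟨_, rfl⟩
    have hs1 : (s : ℝ) ≤ (1 - ε / 2) * ρ := by rw [hs]; exact Nat.floor_le hy0
    have hs2 : (1 - ε / 2) * ρ < s + 1 := by rw [hs]; exact Nat.lt_floor_add_one _
    have h5 : 1 ≤ (2 * (q : ℝ)) ^ (1 - ε / 2) * (3 * (k : ℝ) / (2 * q)) ^ (s + 1 - 1) := by
      rw [Nat.add_sub_cancel, ← hκ, Real.rpow_def_of_pos hn0]
      have h6 : κ ^ s = Real.exp (s * Real.log κ) := by
        rw [mul_comm, Real.exp_mul, Real.exp_log hκ0, Real.rpow_natCast]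
      rw [h6, ← Real.exp_add]
      apply Real.one_le_exp
      have h7 : (s : ℝ) * (- Real.log κ) ≤ (1 - ε / 2) * ρ * (- Real.log κ) :=
        mul_le_mul_of_nonneg_right hs1 hL.le
      have h8 : (1 - ε / 2) * ρ * (- Real.log κ) = (1 - ε / 2) * Real.log (2 * q) := by
        rw [mul_assoc, hρm]
      linarith
    have h6 := h2 q k (s + 1) (by omega) (by
      have : (1 : ℝ) - ε / 2 / 8 = 1 - ε / 16 := by ring
      rw [this]
      exact h.le) (by omega) (by omega) h5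
    have h7 := h3 q (s + 1) (by omega)
    have h8 : (2 * (q : ℝ) / 3 + 2 * (1 - ε) * ρ) ^ 3 ≤
        (2 * (q : ℝ) / 3 + 2 * ((s + 1 : ℕ) : ℝ) - ε) ^ 3 := by
      apply pow_le_pow_left₀
      · have : 0 ≤ 2 * (1 - ε) * ρ := mul_nonneg (by linarith) (by linarith)
        positivity
      · push_cast
        nlinarith
    calc (2 * (q : ℝ)) ^ (k - 3) * (2 * (q : ℝ) / 3 + 2 * (1 - ε) * ρ) ^ 3 ≤
        (2 * (q : ℝ)) ^ (k - 3) * (TTm (s + 1) q : ℝ) :=
          mul_le_mul_of_nonneg_left (h8.trans h7) (by positivity)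
      _ = (((2 * q) ^ (k - 3) * TTm (s + 1) q : ℕ) : ℝ) := by push_cast; ring
      _ ≤ (P (2 * q) k : ℝ) := by exact_mod_cast h6

end Pool.Agent.Work.MP_1ce445_pl3
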