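import Pool.Agent.Work.MP_1ce445_pl3.Interface2

/-! Block PL1 (helper7): the two-sided statement on the first plateau. -/

namespace Pool.Agent.Work.MP_1ce445_pl3

open Finset Pool.Agent.Work.MP_1ce445_co_56 Pool.Agent.Work.MP_1ce445_lin
  Pool.Agent.Work.MP_1ce445_fx

lemma PL1_rh {n k : ℕ} (hk : 28 ≤ k) (hn : 120 * k ≤ n) : 0 ≤ rh n k := by
  have hk' : (28 : ℝ) ≤ k := by exact_mod_cast hk
  have hn' : (120 : ℝ) * k ≤ n := by exact_mod_cast hn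
  have h0 : (0 : ℝ) < n := by linarith
  have h1 : 3 * (k : ℝ) / n < 1 := by
    rw [div_lt_one h0]
    linarith
  have h2 : 0 < 3 * (k : ℝ) / n := by positivity
  have h3 := Real.log_neg h2 h1
  unfold rh
  apply div_nonneg
  · exact Real.log_nonneg (by linarith)
  · linarith

lemma PL1_root {a b y : ℝ} (ha : 0 ≤ a) (hb : 0 ≤ b) (h1 : a ^ 3 ≤ y) (h2 : y ≤ b ^ 3) :
    ∃ x : ℝ, y = x ^ 3 ∧ a ≤ x ∧ x ≤ b := by
  have hy : 0 ≤ y := le_trans (by positivity) h1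
  refine ⟨y ^ ((1 : ℝ) / 3), ?_, ?_, ?_⟩
  · rw [← Real.rpow_natCast, ← Real.rpow_mul hy]
    norm_num
  all_goals
    have hx : 0 ≤ y ^ ((1 : ℝ) / 3) := Real.rpow_nonneg hy _
    have hc : (y ^ ((1 : ℝ) / 3)) ^ 3 = y := by
      rw [← Real.rpow_natCast, ← Real.rpow_mul hy]
      norm_num
  · rw [← hc] at h1
    exact le_of_pow_le_pow_left₀ (by norm_num) hx h1
  · rw [← hc] at h2
    exact le_of_pow_le_pow_left₀ (by norm_num) hb h2

theorem stmt_PL1 : Stmt_UPY → Stmt_LWF → Stmt_PL1 := by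
  intro hU hL ε h0 h1
  obtain ⟨n0, hn0⟩ := hU ε h0 h1
  obtain ⟨n1, hn1⟩ := hL ε h0 h1
  refine ⟨max n0 n1, fun n k hn hk hkn => ?_⟩
  have hu := hn0 n k (le_trans (le_max_left _ _) hn) (by omega) hkn
  have hl := hn1 n k (le_trans (le_max_right _ _) hn) hk hkn
  have hr := PL1_rh hk hkn
  have hN : 0 < NN n := by
    unfold NN
    omega
  have hN' : (0 : ℝ) < NN n := by exact_mod_cast hN
  have hA : (0 : ℝ) < (NN n : ℝ) ^ (k - 3) := by positivity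
  have ha : 0 ≤ (NN n : ℝ) / 3 + 2 * (1 - ε) * rh n k := by
    have : 0 ≤ (1 - ε) * rh n k := mul_nonneg (by linarith) hr
    linarith
  have hb : 0 ≤ (NN n : ℝ) / 3 + 2 * (1 + ε) * rh n k + 2 := by
    have : 0 ≤ (1 + ε) * rh n k := mul_nonneg (by linarith) hr
    linarith
  have e1 : ((NN n : ℝ) / 3 + 2 * (1 - ε) * rh n k) ^ 3 ≤ (P n k : ℝ) / (NN n : ℝ) ^ (k - 3) := by
    rw [le_div_iff₀ hA, mul_comm]
    exact hl
  have e2 : (P n k : ℝ) / (NN n : ℝ) ^ (k - 3) ≤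
      ((NN n : ℝ) / 3 + 2 * (1 + ε) * rh n k + 2) ^ 3 := by
    rw [div_le_iff₀ hA, mul_comm]
    exact hu
  obtain ⟨x, hx, hx1, hx2⟩ := PL1_root ha hb e1 e2
  refine ⟨x - (NN n : ℝ) / 3, ?_, by linarith, by linarith⟩
  have e3 : (NN n : ℝ) / 3 + (x - (NN n : ℝ) / 3) = x := by ring
  rw [e3, ← hx]
  field_simp

end Pool.Agent.Work.MP_1ce445_pl3
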