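import Pool.Agent.Work.MP_1ce445_pl3.All
import Pool.Agent.Work.MP_1ce445_plt.RW1
import Pool.Agent.Work.MP_1ce445_plt.RW2
import Pool.Agent.Work.MP_1ce445_pl3.LTT
import Pool.Agent.Work.MP_1ce445_pl3.LSM
import Pool.Agent.Work.MP_1ce445_pl3.LPM
import Pool.Agent.Work.MP_1ce445_pl3.LSZ
import Pool.Agent.Work.MP_1ce445_pl3.LMU
import Pool.Agent.Work.MP_1ce445_pl3.LG1
import Pool.Agent.Work.MP_1ce445_pl3.LG2
import Pool.Agent.Work.MP_1ce445_pl3.LG3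
import Pool.Agent.Work.MP_1ce445_pl3.LLB
import Pool.Agent.Work.MP_1ce445_pl3.LRL
import Pool.Agent.Work.MP_1ce445_pl3.LWE
import Pool.Agent.Work.MP_1ce445_pl3.LWG
import Pool.Agent.Work.MP_1ce445_pl3.LWF
import Pool.Agent.Work.MP_1ce445_pl3.PL1

/-!
Assembly of the two-sided statement for the first plateau (helper94).
-/

namespace Pool.Agent.Work.MP_1ce445_pl3

open Finset Pool.Agent.Work.MP_1ce445_co_56 Pool.Agent.Work.MP_1ce445_lin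
  Pool.Agent.Work.MP_1ce445_fx

theorem h_LTT : Stmt_LTT := stmt_LTT stmt_NUN
theorem h_LSM : Stmt_LSM := stmt_LSM EndT_LOM EndT_LOU h_LTT
theorem h_LMU : Stmt_LMU := stmt_LMU stmt_LPM stmt_LSZ
theorem h_LG1 : Stmt_LG1 := stmt_LG1 stmt_LSZ
theorem h_LG2 : Stmt_LG2 := stmt_LG2 h_LG1
theorem h_LG3 : Stmt_LG3 := stmt_LG3 stmt_LSZ h_LG1
theorem h_LRL : Stmt_LRL := stmt_LRL MP_1ce445_plt.stmt_RW1 MP_1ce445_plt.stmt_RW2 stmt_LLB
theorem h_LWE : Stmt_LWE := stmt_LWE h_LRL h_LMU h_LG1 h_LG2 h_LG3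
theorem h_LWG : Stmt_LWG := stmt_LWG h_LWE h_LSM h_LTT
theorem h_LWF : Stmt_LWF := stmt_LWF h_LWG stmt_CLN

/-- The first plateau: for `28 ≤ k ≤ n/120` the three special factors are `N/3 + R`,
`2 (1-ε) ρ ≤ R ≤ 2 (1+ε) ρ + 2`. -/
theorem h_PL1 : Stmt_PL1 := stmt_PL1 h_UPY h_LWF

end Pool.Agent.Work.MP_1ce445_pl3
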