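import Pool.Agent.Work.MP_1ce445_fx.InterfaceQ

/-!
THE FIRST PLATEAU, UPPER HALF (helper94; lower half: helper66, `MP_1ce445_fx/InterfaceP3.lean`). `N = 2⌊n/2⌋`,
`κ = 3k/n`, `ρ = rh n k = log n/(- log κ)` (so `n κ^ρ = 1`). For every `ε` in ` (0,1)` and large `n`, `3 ≤ k ≤ n/120`:
`P n k ≤ N^(k-3) (N/3 + 2 (1+ε) ρ + 2)³`.
Idea: SMM gives `sg ≤ n + 6 m + ∑_v ∑_j τ_j(v)^m` for every `m`. For most `v` the sum `∑_j τ_j(v)` is at most `3k/n + small`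
(GDP: the three low sets are disjoint and have at least ` (1/3 - s) n` elements), so `m = log n/(- log (κ + ω))` is enough; for
small `κ` a uniform estimate (UNV, as in `MP_1ce445_plt/Interface2.lean`).

Files `Pool/Agent/Work/MP_1ce445_pl3/<ID>.lean`, `import Pool.Agent.Work.MP_1ce445_pl3.Interface`, `namespace` and `open` lines as
in this file, theorem `stmt_<ID> : Stmt_X → Stmt_Y → Stmt_<ID>` with exactly the statements of the column `uses` as hypotheses,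
in this order; auxiliary lemmas with the name of the block in front. Constants are never sharp.
-/

namespace Pool.Agent.Work.MP_1ce445_pl3

open Finset Pool.Agent.Work.MP_1ce445_co_56 Pool.Agent.Work.MP_1ce445_lin
  Pool.Agent.Work.MP_1ce445_fx

/-! ### Definitions -/

/-- `ρ` -/
noncomputable def rh (n k : ℕ) : ℝ := Real.log n / (- Real.log (3 * (k : ℝ) / n))

/-- excess of the degrees of `v` in the other colours (all degrees are at least 1) -/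
noncomputable def EEw {n k : ℕ} (G : Fin k → SimpleGraph (Fin n)) (e : Fin 3 → Fin k) (v : Fin n) :
    ℕ := ∑ l ∈ oth e, (dg (G l) univ v - 1)

/-- neighbours of `v` in the colour `e i` and in `Y_i` -/
noncomputable def ddw {n k : ℕ} (G : Fin k → SimpleGraph (Fin n)) (e : Fin 3 → Fin k) (θ : ℝ)
    (v : Fin n) : ℕ := ∑ i, dg (G (e i)) (low (G (e i)) θ) v

/-- The situation on the plateau. -/
structure SitP {n k : ℕ} (G : Fin k → SimpleGraph (Fin n)) (e : Fin 3 → Fin k) (θ s : ℝ) : Prop where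
  sit : Sit G e θ
  leN : ∀ l, gammaT (G l) ≤ NN n
  s0 : 0 < s
  s1 : s ≤ 1 / 100
  def' : (sn G e : ℝ) ≤ s * n
  siz : ∀ i, (1 / 3 - s) * n ≤ ((low (G (e i)) θ).card : ℝ)
  dis : ∀ i j v, i ≠ j → v ∈ low (G (e i)) θ → v ∉ low (G (e j)) θ
  kn : 120 * (k : ℝ) ≤ n

/-! ### Stability -/

/-- STP (250 lines; uses CR3 S3S DG2): copy of `MP_1ce445_fx/STU.lean`. `θ₁ = min θ (s²)`, the constants from `STU_const` for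
`θ₁` (its `s`, called `s'` here, is `≤ θ₁/10000`). The condition of S3S with `c = 1/100`: `k + 1 + s' n ≤ (1 - s') n/100` by
`120 k ≤ n`. Then as in STU (with `E`, `η = θ₁/200`): `x_j = 1 - q_j`, `∑ x_j ≤ 1`, `1/27 - η ≤ x_a x_b x_d`, so
`x_j ≥ 1/3 - 2 √η ≥ 1/3 - s/2` (if `x_a = 1/3 - u`, `u ≥ 0`, the product is at most ` (1/3 - u)(1/3 + u/2)² ≤ 1/27 - u²/4`), and
`|low (G j) θ| ≥ x_j |Vg| ≥ (1/3 - s/2)(1 - s') n`; `sn ≤ (θ₁/3) n`. `dis`: if `v` is in `low_i` and `low_j`, `i ≠ j`, `m` the third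
index: `∑_{oth} dg (G l) univ v ≤ ∑ (n - γ_l + 1) ≤ 2 k + sn` (DG2), the degrees of `v` in all colours have the sum `n - 1`, so
`dg (G (e m)) univ v ≥ n - 1 - 2 θ n - 2 k - sn ≥ (97/100) n - 1`, by DG2 `γ (G (e m)) ≤ (3/100) n + 2 < N/27`, and the product
is at most `γ (G (e m)) N^(k-1)`, a contradiction. -/
def Stmt_STP : Prop :=
  ∀ θ s : ℝ, 0 < θ → θ ≤ 1 / 1000 → 0 < s → s ≤ 1 / 100 → ∃ n0 : ℕ, ∀ n k : ℕ, n0 ≤ n → 3 ≤ k →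
    120 * k ≤ n → ∀ G : Fin k → SimpleGraph (Fin n), IsFactorization G →
    1 / 27 * (NN n : ℝ) ^ k ≤ ∏ j, (gammaT (G j) : ℝ) → ∃ e : Fin 3 → Fin k, SitP G e θ s

/-! ### The main estimate, `k` comparable to `n` -/

open Classical in
/-- TA2 (60 lines): as in `MP_1ce445_fx/TAU.lean` (the sum over all colours of `dg (G l) Y_j v` is `|Y_j| - [v ∈ Y_j]`), without
replacing `dg (G l) Y_j v` by `dg (G l) univ v`. -/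
def Stmt_TA2 : Prop :=
  ∀ (n k : ℕ) (G : Fin k → SimpleGraph (Fin n)) (e : Fin 3 → Fin k) (θ : ℝ), Sit G e θ → ∀ j v,
    ta G e θ j v * ((low (G (e j)) θ).card : ℝ) ≤
      (if v ∈ low (G (e j)) θ then 1 else 0) + dg (G (e j)) (low (G (e j)) θ) v +
        ∑ l ∈ oth e, (dg (G l) (low (G (e j)) θ) v : ℝ)

/-- GDP (100 lines; uses TAU TA2). ` (1/3 - s) n ∑_j τ_j ≤ ∑_j τ_j |Y_j| ≤ 1 + dd + ∑_j ∑_{oth} dg (G l) Y_j v` (`dis`: `v` is in at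
most one `Y_j`) `≤ 1 + dd + ∑_{oth} dg (G l) univ v` (`dis`) `= 1 + dd + |oth e| + EE ≤ k + dd + EE` (`|oth e| + 3 = k`). With
`dd + EE ≤ ω n/6`: `∑ τ_j ≤ (3k/n + ω/2)/(1 - 3 s) ≤ (3k/n + ω/2)(1 + 4 s) ≤ 3k/n + ω/2 + s ≤ 3k/n + ω` (`3k/n ≤ 1/40`). And
`∑ τ_j^m ≤ (∑ τ_j)^m` for `m ≥ 1`, as `τ_j ≥ 0`. -/
def Stmt_GDP : Prop :=
  ∀ (n k m : ℕ) (G : Fin k → SimpleGraph (Fin n)) (e : Fin 3 → Fin k) (θ s ω : ℝ),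
    SitP G e θ s → 0 < ω → ω ≤ 1 / 10 → 2 * s ≤ ω → 1 ≤ m →
    ∀ v, (ddw G e θ v : ℝ) + EEw G e v ≤ ω / 6 * n →
      ∑ j, ta G e θ j v ^ m ≤ (3 * (k : ℝ) / n + ω) ^ m

/-- EMP (100 lines; uses DG2), like `MP_1ce445_fx/SQM.lean`. `s_l = n - γ_l ≤ 1 + (N - γ_l)`; `dg - 1 ≤ s_l`, and `dg ≥ 2` for at
most `3 s_l` vertices, so `∑_v (dg (G l) univ v - 1) ≤ 3 s_l² ≤ 6 (1 + (N - γ_l)²)`, and the sum over `l` is at most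
`6 (k + sn²)`. -/
def Stmt_EMP : Prop :=
  ∀ (n k : ℕ) (G : Fin k → SimpleGraph (Fin n)) (e : Fin 3 → Fin k) (θ s : ℝ), SitP G e θ s →
    ∑ v, (EEw G e v : ℝ) ≤ 6 * (k + (sn G e : ℝ) ^ 2)

/-- BDP (40 lines; uses EMP). `3 · # · (ω/12) n ≤ 3 ∑ EE ≤ 18 (k + sn²)`, so `3 # ≤ 216 k/(ω n) + (216 s/ω) sn ≤ 2/ω + sn/100`. -/
def Stmt_BDP : Prop :=
  ∀ (n k : ℕ) (G : Fin k → SimpleGraph (Fin n)) (e : Fin 3 → Fin k) (θ s ω : ℝ), SitP G e θ s →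
    0 < ω → 21600 * s ≤ ω →
    3 * ((univ.filter (fun v => ω / 12 * n < (EEw G e v : ℝ))).card : ℝ) ≤ 2 / ω + sn G e / 100

/-- ADA (80 lines; uses SMM TAU GDP BDP), all `d_i(v)` small. `dd ≤ 3 ω n/36 = ω n/12`. If `EE v ≤ ω n/12` then by GDP
`∑_i am_i v ≤ 1 + (3k/n + ω)^m`; for the other `v` `∑_i am_i v ≤ 1 + ∑ τ_j^m ≤ 1 + 3` (`τ_j ≤ 1`). Sum over `v`, SMM second part,
BDP. -/
def Stmt_ADA : Prop :=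
  ∀ (n k m : ℕ) (G : Fin k → SimpleGraph (Fin n)) (e : Fin 3 → Fin k) (θ s ω : ℝ),
    SitP G e θ s → 0 < ω → ω ≤ 1 / 10 → 21600 * s ≤ ω → 1 ≤ m →
    (∀ i v, (dg (G (e i)) (low (G (e i)) θ) v : ℝ) ≤ ω / 36 * n) →
    sg G e ≤ n + 6 * m + n * (3 * (k : ℝ) / n + ω) ^ m + 2 / ω + sn G e / 100

/-- ADB (150 lines; uses SMM TAU GDP BDP), some `d_i(v)` large; model: second half of `MP_1ce445_fx/ADM.lean`. `r` with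
` (1/8)^r ≤ ω/3600` (`3k/n + ω ≤ 1/8`), `θ₀` with `40 r θ₀ ≤ 1`, `40000 θ₀ ≤ ω²`. `Δ > ω n/36` the maximum of the `d_i(v) =
dg (G (e i)) Y_i v`, attained for `i0`, `z`. SMM third part for `m = r`:
`sg ≤ 6 r + 1 + ∑_v ∑_i am_i v - ∑_{y ∈ nb (G (e i0)) z} am_{i0} y`. The vertices with `dd v > ω n/12`: `∑_v dd ≤ 3 θ n²`
(`TSM_low` in `TSM.lean`), so at most `36 θ n/ω` vertices; those with `EE v > ω n/12`: BDP; for all others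
`∑_i am_i v ≤ 1 + ω/3600` by GDP; for all vertices `∑_i am_i v ≤ 4`. For `y ∈ Y_{i0}`: `A i0 j y ≥ 1 - 5 θ`,
`am_{i0} y ≥ (1 - 5 θ)^(2r) ≥ 1 - 10 r θ ≥ 3/4`. Total: `sg ≤ n + 6 r + 1 + ω n/3600 + 108 θ n/ω + 2/ω + sn/100 - (3/4) ω n/36`,
and `ω/3600 + 108 θ/ω ≤ ω/100 < ω/48`. -/
def Stmt_ADB : Prop :=
  ∀ ω : ℝ, 0 < ω → ω ≤ 1 / 10 → ∃ θ₀ : ℝ, 0 < θ₀ ∧ ∃ n0 : ℕ,
    ∀ (n k : ℕ) (G : Fin k → SimpleGraph (Fin n)) (e : Fin 3 → Fin k) (θ s : ℝ),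
    SitP G e θ s → θ ≤ θ₀ → 21600 * s ≤ ω → n0 ≤ n →
    (∃ i v, ω / 36 * n < (dg (G (e i)) (low (G (e i)) θ) v : ℝ)) →
    sg G e ≤ n + 2 / ω + sn G e / 100

/-- ADW (20 lines; uses ADA ADB). `s = ω/21600`, `θ = min θ₀ (1/1000)`. -/
def Stmt_ADW : Prop :=
  ∀ ω : ℝ, 0 < ω → ω ≤ 1 / 10 → ∃ θ s : ℝ, 0 < θ ∧ θ ≤ 1 / 1000 ∧ 0 < s ∧ s ≤ 1 / 100 ∧ ∃ n0 : ℕ,
    ∀ (n k m : ℕ) (G : Fin k → SimpleGraph (Fin n)) (e : Fin 3 → Fin k), n0 ≤ n → 1 ≤ m →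
    SitP G e θ s →
    sg G e ≤ n + 6 * m + n * (3 * (k : ℝ) / n + ω) ^ m + 2 / ω + sn G e / 100

/-! ### The main estimate, small `k/n` -/

/-- TSV (100 lines; uses TAU SQM): copy of `MP_1ce445_fx/TSM.lean`; `∑_i ∑_v d_i^m ≤ 3 n Δ^m`. -/
def Stmt_TSV : Prop :=
  ∀ (m n k Δ : ℕ) (G : Fin k → SimpleGraph (Fin n)) (e : Fin 3 → Fin k) (θ : ℝ), 1 ≤ m →
    SitU G e θ → (∀ i v, dg (G (e i)) (low (G (e i)) θ) v ≤ Δ) →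
    ∑ v, ∑ i, ta G e θ i v ^ m ≤ (15 / (n : ℝ)) ^ m * (3 * n + 3 * n * (Δ : ℝ) ^ m +
      3 * 2 ^ m * ((k : ℝ) ^ m * n + 6 * ((k : ℝ) + sn G e) ^ (m - 1) * (k + (sn G e : ℝ) ^ 2)))

/-- ADX (80 lines; uses SMM TAU TSM): copy of the second half of `MP_1ce445_fx/ADM.lean` for `m = 2`, keeping the gain:
`sg ≤ 13 + n + RM 2 n k sn + 675 θ Δ - Δ (1 - 20 θ)`, and `695 θ ≤ 1/2`. -/
def Stmt_ADX : Prop :=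
  ∀ (n k Δ : ℕ) (G : Fin k → SimpleGraph (Fin n)) (e : Fin 3 → Fin k) (θ : ℝ),
    22500 * θ ≤ 1 → SitU G e θ → (∀ i v, dg (G (e i)) (low (G (e i)) θ) v ≤ Δ) →
    (∃ i v, dg (G (e i)) (low (G (e i)) θ) v = Δ) →
    sg G e ≤ n + 13 + RM 2 n k (sn G e) - Δ / 2

/-- UNR (100 lines), real numbers. `θ₀ = 1/10^8`, `C = 1620 C'`. The left hand side is
`3n (15/n)^m + 3n (15Δ/n)^m + 3n (30k/n)^m + 18 (30/n)^m (k+σ)^(m-1) (k+σ²)`, and ` (k+σ)^(m-1) ≤ 2^m (k^(m-1) + σ^(m-1))`. The last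
term is at most the sum of `18 (60k/n)^m`, `1080 (60k/n)^(m-1) σ²/n ≤ 64800 θ₀² σ`, `1080 (60σ/n)^(m-1) k/n ≤ 64800 θ₀ σ/n`,
`1080 (60σ/n)^(m-1) σ²/n ≤ 64800 θ₀² σ` (`60 k/n ≤ 1`, `60 σ/n ≤ 1`, `m - 1 ≥ 1`); altogether at most
`27 n (60 C' k/n)^m + σ/100`. -/
def Stmt_UNR : Prop :=
  ∀ C' : ℝ, 1 ≤ C' → ∃ θ₀ C : ℝ, 0 < θ₀ ∧ 1 ≤ C ∧ ∀ n k σ m Δ : ℕ, 0 < n → 1 ≤ k →
    (k : ℝ) ≤ θ₀ * n → (σ : ℝ) ≤ θ₀ * n → 2 ≤ m → (Δ : ℝ) ≤ C' * k →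
    (15 / (n : ℝ)) ^ m * (3 * n + 3 * n * (Δ : ℝ) ^ m +
      3 * 2 ^ m * ((k : ℝ) ^ m * n + 6 * ((k : ℝ) + σ) ^ (m - 1) * (k + (σ : ℝ) ^ 2))) ≤
      n * (C * k / n) ^ m + σ / 100

/-- UNV (80 lines; uses SMM TSV ADX UNR). `C₁` from UNR for `C' = 1`: with `m = 2`, `Δ = 1` it gives
`RM 2 n k σ ≤ C₁² k²/n + σ/100`. `K = C₁²`, `C` from UNR for `C' = 2K + 2`, `θ` the minimum of the two `θ₀` and `1/22500`. `Δ` = the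
maximum of the `dg (G (e i)) Y_i v`. If `2 ≤ Δ` and `K k²/n + 1 ≤ Δ/2`: ADX. Otherwise `Δ ≤ 2 K k²/n + 2 ≤ (2K+2) k` (`k ≤ n`, `1 ≤ k`):
`sg ≤ 6 m + n + ∑_v ∑_i τ_i^m` (SMM), TSV, UNR. (`3 ≤ k` as `e` is injective.) -/
def Stmt_UNV : Prop :=
  ∃ θ C : ℝ, 0 < θ ∧ θ ≤ 1 / 1000 ∧ 1 ≤ C ∧
    ∀ (n k m : ℕ) (G : Fin k → SimpleGraph (Fin n)) (e : Fin 3 → Fin k), 2 ≤ m → SitU G e θ →
    sg G e ≤ n + 6 * m + n * (C * k / n) ^ m + sn G e / 100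

/-! ### Upper bounds -/

/-- UPI (150 lines; uses STP ADW PRM; model `MP_1ce445_plt/UPP.lean`). `κ = 3k/n`, `ε₂ ≤ κ ≤ 1/40`, `- log κ ≥ 1`.
`ω = min (1/10) (ε₂ ε/4)`; `- log (κ + ω) ≥ - log κ - ω/κ ≥ (1 - ε/4)(- log κ)`. `m = ⌈log n/(- log (κ+ω))⌉`, so `n (κ+ω)^m ≤ 1`,
`m ≤ 1 + ρ/(1-ε/4) ≤ 1 + (1+ε/2) ρ`. If the product is larger than the bound then it is at least `N^k/27`: STP, ADW, PRM with
`c = 6m`, `r = 1 + 2/ω + sn/100`: the exponent is at most `3 (1 + 2/ω)/n`, so with `x = (1 + 2/ω)/n ≤ 1` the product is at most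
`N^(k-3) ((n/3 + 2m) e^x)³`, ` (n/3 + 2m) e^x ≤ (n/3 + 2m)(1 + 2x) ≤ n/3 + 2m + (4/3)(1 + 2/ω)` (`6 m ≤ n`)
`≤ N/3 + 2 (1+ε) ρ`, since `ε ρ ≥ ε log n/(- log ε₂)` is large. -/
def Stmt_UPI : Prop :=
  ∀ ε ε₂ : ℝ, 0 < ε → ε < 1 → 0 < ε₂ → ε₂ < 1 → ∃ n0 : ℕ, ∀ n k : ℕ, n0 ≤ n → 3 ≤ k →
    120 * k ≤ n → ε₂ * n ≤ 3 * k →
    (P n k : ℝ) ≤ (NN n : ℝ) ^ (k - 3) * ((NN n : ℝ) / 3 + 2 * (1 + ε) * rh n k) ^ 3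

/-- UPS (150 lines; uses STU UNV PRM; models `MP_1ce445_plt/UPU.lean`, `MP_1ce445_fx/UUM.lean`). `θ`, `C` from UNV, `δ` from STU.
`ε₂ ≤ min (3 δ) (1/40)` with `log C ≤ (ε/4)(- log ε₂)`, so `C k/n ≤ C κ ≤ κ^(1-ε/4)`. `m = ⌊(1+ε) ρ⌋ + 1 ≥ 2` (`ρ ≥ 1` as `1/n ≤ κ`),
`n (C k/n)^m ≤ exp (log n (1 - (1+ε)(1-ε/4))) ≤ n^(-ε/2) ≤ 1/10` for large `n`. If the product is larger than the bound: STU, UNV:
`sg ≤ n + 6 m + 1/10 + sn/100`. If `sn ≥ 1`: PRM with `c = 6m`, `r = 1/10 + sn/100`, the exponent is negative. If `sn = 0`: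
`sg ≤ n + 6m` (integers), PRM with `r = 0`. So the product is at most `N^(k-3) (n/3 + 2m)³`, `m ≤ (1+ε) ρ + 1`. -/
def Stmt_UPS : Prop :=
  ∀ ε : ℝ, 0 < ε → ε < 1 → ∃ ε₂ : ℝ, 0 < ε₂ ∧ ε₂ < 1 ∧ ∃ n0 : ℕ, ∀ n k : ℕ, n0 ≤ n → 3 ≤ k →
    3 * (k : ℝ) < ε₂ * n →
    (P n k : ℝ) ≤ (NN n : ℝ) ^ (k - 3) * ((n : ℝ) / 3 + 2 * (1 + ε) * rh n k + 2) ^ 3

/-- UPY (120 lines; uses UPI UPS UUQ), the upper half. UPS for `ε/2` gives `ε₂`; if `ε₂ n ≤ 3k`: UPI (for `ε`, `ε₂`). Let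
`3k < ε₂ n`. If `n` is even, or `ε ρ ≥ 1/3` (`n/3 ≤ N/3 + 1/3`): UPS for `ε/2`. Let `n` be odd and `ρ < 1/(3ε)`:
`m = ⌊(1+ε) ρ⌋ + 1`, `2 ≤ m ≤ 2 + 1/ε` (`ρ ≥ 1`); finitely many `m`: let `δ` be the minimum of the `δ(m)` of UUQ and `n0` the maximum of
its `n0(m)`. ` (k/n)^m n ≤ κ^m n = exp (log n (1 - m/ρ)) ≤ n^(-ε) ≤ δ` for large `n`, so `k^m ≤ δ n^(m-1)`, and UUQ gives
`P n k ≤ N^(k-3) T3 (N + 6m)`, `27 T3 M ≤ M³` (`NUN_upp`/`NUN_all` in `NUN.lean`), `N/3 + 2m ≤ N/3 + 2 (1+ε) ρ + 2`. -/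
def Stmt_UPY : Prop :=
  ∀ ε : ℝ, 0 < ε → ε < 1 → ∃ n0 : ℕ, ∀ n k : ℕ, n0 ≤ n → 3 ≤ k → 120 * k ≤ n →
    (P n k : ℝ) ≤ (NN n : ℝ) ^ (k - 3) * ((NN n : ℝ) / 3 + 2 * (1 + ε) * rh n k + 2) ^ 3

end Pool.Agent.Work.MP_1ce445_pl3
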