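import Pool.Agent.Work.MP_1ce445_pl3.Interface
import Pool.Agent.Work.MP_1ce445_plt.Interface
import Pool.Agent.Work.MP_1ce445_fx.InterfaceU

/-!
FIRST PLATEAU for MP_1ce445_co, LOWER half (helper66): for `28 ≤ k`, `8 k ≤ n`, all large `n` (even and odd)
`N^(k-3) (N/3 + 2 (1-ε) ρ)^3 ≤ P n k`, `ρ = log n/(- log (3k/n))`, `N = 2 ⌊n/2⌋`.

One file `Pool/Agent/Work/MP_1ce445_pl3/<ID>.lean` per block, `import Pool.Agent.Work.MP_1ce445_pl3.InterfaceL`, the
`namespace` and `open` lines of this file, theorem `stmt_<ID> : Stmt_X → Stmt_Y → Stmt_<ID>` with exactly the statements of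
the column `uses` as hypotheses, in this order; auxiliary lemmas with the name of the block in front (`LPM_aux`).
No straight double quotes. `fx.` = `Pool.Agent.Work.MP_1ce445_fx`, `plt.` = `Pool.Agent.Work.MP_1ce445_plt` (`Stmt_RW1`, `Stmt_RW2`
are proved there).

The construction (`n = 2 q`). Vertices `Option (ZMod (2q-1))`, label of a pair = `lbl` (the sum; `x + x` for `none, some x`), three
classes = arcs of length `nn q j`, where the beginnings of the arcs (the zones, length `2w`) are re-assigned: the zone `l`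
starts at `zs q l` and consists of `w` vertices of one and `w` vertices of the other of the two classes `≠ l`. Zone `l` +
class `l` lies in the short arc `AA` (about `n/3` labels) for ALL three `l`, zone + zone in `DD` (`12 w + 12` labels). Ordinary
labels `L = DD ∪` (random subset of `AA`) `∪ ..`, of density about `3k/n` in `AA`: every set `T` of at most `r - 1` vertices of
class `l` lies in the ordinary neighbourhood of a vertex of zone `l` and class `j`.
-/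

namespace Pool.Agent.Work.MP_1ce445_pl3

open Finset Pool.Agent.Work.MP_1ce445_co_56 Pool.Agent.Work.MP_1ce445_lin
  Pool.Agent.Work.MP_1ce445_fx

/-! ### Definitions -/

/-- the vertices -/
abbrev VL (q : ℕ) : Type := Option (ZMod (2 * q - 1))

/-- the number of the vertices of class `j`; `nn q 0 + nn q 1 + nn q 2 = 2 q`, `nn q 0 - nn q 1` and `nn q 0 - nn q 2` are
`0` or `2` -/
def nn (q j : ℕ) : ℕ := 2 * ((q + 2 - j) / 3)

/-- start of the second arc -/
def s1 (q : ℕ) : ℕ := nn q 0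

/-- start of the third arc -/
def s2 (q : ℕ) : ℕ := nn q 0 + nn q 1

/-- the class of a vertex -/
def cl (q w : ℕ) : VL q → Fin 3
  | none => 2
  | some x =>
    if x.val < w then 1 else if x.val < 2 * w then 2 else if x.val < s1 q + w then 0
    else if x.val < s2 q then 1 else if x.val < s2 q + w then 0 else 2

/-- start of the zone `l` -/
def zs (q : ℕ) (l : Fin 3) : ℕ := if l = 0 then 0 else if l = 1 then s2 q else s1 q

/-- `v` is in the zone `l` -/
def zn (q w : ℕ) (l : Fin 3) (v : VL q) : Prop :=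
  ∃ x : ZMod (2 * q - 1), v = some x ∧ zs q l ≤ x.val ∧ x.val < zs q l + 2 * w

open Classical in
/-- colour rule. Different classes: the third class. Same class `c`: `c + 2` if one of the two vertices is in the zone
`c + 2`, otherwise `c + 1`. -/
noncomputable def rl (q w : ℕ) (u v : VL q) : Fin 3 :=
  if cl q w u = cl q w v then
    (if zn q w (cl q w u + 2) u ∨ zn q w (cl q w u + 2) v then cl q w u + 2 else cl q w u + 1)
  else -(cl q w u + cl q w v)

/-- the own matching: a perfect matching inside every class by pairs whose label is not in `L` -/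
def Mu (q w : ℕ) (L : Finset (ZMod (2 * q - 1))) (μ : VL q → VL q) : Prop :=
  ∀ v, μ v ≠ v ∧ μ (μ v) = v ∧ cl q w (μ v) = cl q w v ∧ lbl v (μ v) ∉ L

open Classical in
/-- The factors: index type `L ⊕ Fin 3`. The pairs with label `l ∈ L` form the factor `inl l`; the pairs `v, μ v` get the
colour of their class; all other pairs get the colour `rl`. -/
noncomputable def GW (q w : ℕ) (L : Finset (ZMod (2 * q - 1))) (μ : VL q → VL q)
    (i : L ⊕ Fin 3) : SimpleGraph (VL q) :=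
  SimpleGraph.fromRel (fun u v => match i with
    | Sum.inl l => lbl u v = l.1
    | Sum.inr j => lbl u v ∉ L ∧ (if v = μ u then cl q w u = j else rl q w u v = j))

/-- good labels -/
structure Gd (r q w : ℕ) (L : Finset (ZMod (2 * q - 1))) : Prop where
  zz : ∀ (l l' : Fin 3) (u v : VL q), zn q w l u → zn q w l' v → lbl u v ∈ L
  gd : ∀ (T : Finset (VL q)) (j l : Fin 3), j ≠ l → T.card ≤ r - 1 → (∀ t ∈ T, cl q w t = l) →
    ∃ v, cl q w v = j ∧ zn q w l v ∧ ∀ t ∈ T, lbl v t ∈ L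

/-- short arc -/
def AA (q w : ℕ) [Fintype (ZMod (2 * q - 1))] : Finset (ZMod (2 * q - 1)) :=
  univ.filter (fun x => x.val < s1 q + 2 * w + 4)

/-- three very short arcs -/
def DD (q w : ℕ) [Fintype (ZMod (2 * q - 1))] : Finset (ZMod (2 * q - 1)) :=
  univ.filter (fun x => x.val < 4 * w + 4 ∨ (s1 q ≤ x.val ∧ x.val < s1 q + 4 * w + 4) ∨
    (s2 q ≤ x.val ∧ x.val < s2 q + 4 * w + 4))

/-! ### Blocks -/

/-- LPM (150 lines), a perfect matching by the degree condition. Consider the maps `μ` with `μ (μ u) = u` and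
`μ u = u ∨ R u (μ u)` for all `u` (`id` is one), and take one with the smallest number of fixed points
(`Finset.exists_min_image` or `Nat.find`). Suppose there is a fixed point `u`. The number of the non-fixed points is even
(`Finset.even_card_of_involution`-like: `Finset.sum_involution` in `ZMod 2`, or
`Function.Involutive.card_fixedPoints`..; or avoid it: if `u` is the only fixed point, `|α|` is odd), so there is another
fixed point `v`. All `R`-neighbours of `u` and of `v` are non-fixed (otherwise swap). `A`, `B` = the `R`-neighbours of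
`u`, `v`: `|μ '' A| + |B| ≥ |α|`, both are sets of non-fixed points, at most `|α| - 2` elements: there is `x ∈ A` with
`μ x ∈ B`. Replace `x, μ x` by the pairs `u, x` and `v, μ x`: fewer fixed points. -/
def Stmt_LPM : Prop :=
  ∀ (α : Type) [Fintype α] [DecidableEq α] (R : α → α → Prop) [DecidableRel R],
    (∀ u v, R u v → R v u) → (∀ u, ¬ R u u) → Even (Fintype.card α) →
    (∀ u, Fintype.card α ≤ 2 * (univ.filter (fun v => R u v)).card) →
    ∃ μ : α → α, ∀ u, μ (μ u) = u ∧ R u (μ u)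

/-- LSZ (100 lines), class sizes. Class 1: `val` in `[0, w)` and `[s1 + w, s2)`; class 0: `[2w, s1 + w)`, `[s2, s2 + w)`;
class 2: `[w, 2w)`, `[s2 + w, 2q - 1)` and `none`. -/
def Stmt_LSZ : Prop :=
  ∀ (q w : ℕ) [Fintype (ZMod (2 * q - 1))], 12 ≤ q → 12 * w ≤ q → ∀ j : Fin 3,
    (univ.filter (fun v : VL q => cl q w v = j)).card = nn q j.val

/-- LMU (100 lines; uses LPM LSZ). LPM for the subtype of the vertices of class `j` and `R u v`: `u ≠ v`, `lbl u v ∉ L`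
(`lbl u ·` is injective apart from `u`: `GM1_lbl_symm` etc. in `fx/GM1.lean`; so at most `k - 3` partners have a label in
`L`); `nn q j - 1 - (k - 3) ≥ nn q j / 2` as `nn q j / 2 ≥ (q - 2)/3 ≥ k - 2`. -/
def Stmt_LMU : Prop :=
  ∀ (q k w : ℕ) (L : Finset (ZMod (2 * q - 1))), 100 ≤ q → 12 * w ≤ q → 4 * k ≤ q → 3 ≤ k →
    L.card = k - 3 → ∃ μ : VL q → VL q, Mu q w L μ

/-- LG1 (120 lines; uses LSZ; model `fx/GM1.lean`). `rl` is symmetric, `v = μ u ↔ u = μ v`. `minDeg`: label `l`: `x ↦ l - x`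
(`l/2 ↦ ∞`); colour `j`: a vertex `u` of class `j` has `μ u`; a vertex `u` of another class has a partner `v` of the third
class with a label not in `L` (at least `2 (q/3)` vertices of the third class, only `k - 3` have a label in `L`); there
`rl u v = - (cl u + cl v) = j`, `v ≠ μ u`. -/
def Stmt_LG1 : Prop :=
  ∀ (q k w : ℕ) (L : Finset (ZMod (2 * q - 1))) (μ : VL q → VL q), 100 ≤ q → 12 * w ≤ q →
    4 * k ≤ q → 3 ≤ k → L.card = k - 3 → Mu q w L μ → IsFactorization (GW q w L μ)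

/-- LG2 (60 lines; uses LG1; model `fx/GM2.lean`): `card_le_gammaT` with `f = id`, `g u` = the vertex with
`lbl u (g u) = l`. -/
def Stmt_LG2 : Prop :=
  ∀ (q k w : ℕ) (L : Finset (ZMod (2 * q - 1))) (μ : VL q → VL q), 100 ≤ q → 12 * w ≤ q →
    4 * k ≤ q → 3 ≤ k → L.card = k - 3 → Mu q w L μ →
    ∀ l : L, 2 * q ≤ gammaT (GW q w L μ (Sum.inl l))

/-- LG3 (200 lines; uses LSZ LG1; model `fx/GM3.lean`). `S` a total dominating set of the colour `i`, `X_i` the vertices of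
class `i`. A vertex `u ∈ X_i` has only the neighbour `μ u` in the colour `i` (`rl u v ≠ cl u`, `rl u v ≠ cl v` always), so
`X_i ⊆ S`. Suppose `|S| ≤ nn q i + 2r - 1`, `T = S ∖ X_i`, `|T| ≤ 2r - 1`: for one `l ≠ i` the set `T_l` of the vertices
of `T` of class `l` has at most `r - 1` elements (`GM3_half`). `j` the third class. `Gd.gd` gives `v` of class `j` in the zone
`l` with all labels `v, t`, `t ∈ T_l`, in `L`. `v` has no neighbour `s ∈ S` of colour `i`: `s = μ v`: the colour is `j`; `s ∈ X_i`: the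
colour is `l`; `s` of class `l`: `s ∈ T_l`, the label is in `L`; `s` of class `j`: if `i = j + 1` then `l = j + 2`, `v` is in the zone
`j + 2`, the colour is `j + 2 = l`; if `i = j + 2` then `l = j + 1` and the colour is `j + 1 = l` unless `v` or `s` is in the zone
`j + 2`: `v` is not (it is in the zone `j + 1`, the zones are disjoint: starts `0`, `s1 ≥ 2w`, `s2 ≥ s1 + 2w`), and if `s` is then the
label `v, s` is in `L` by `Gd.zz`. -/
def Stmt_LG3 : Prop :=
  ∀ (q k w r : ℕ) (L : Finset (ZMod (2 * q - 1))) (μ : VL q → VL q), 100 ≤ q → 12 * w ≤ q →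
    4 * k ≤ q → 3 ≤ k → L.card = k - 3 → Mu q w L μ → 1 ≤ r → Gd r q w L →
    ∀ j : Fin 3, nn q j.val + 2 * r ≤ gammaT (GW q w L μ (Sum.inr j))

open Classical in
/-- LLB (120 lines), sums of residues; `N' = 2q - 1`, `(x + y).val = x.val + y.val` or `- N'` (`ZMod.val_add`).
First part: zones `0, 0`: sum in `[0, 4w)`; `0, 2`: `[s1, s1 + 4w)`; `0, 1`: `[s2, s2 + 4w)`; `2, 2`: `2 s1 + [0, 4w)`, `2 s1 - s2 = nn 0 -
nn 1 ∈ {0, 2}`; `1, 2`: `s1 + s2 - N' = nn 0 - nn 2 + 1 ∈ {1, 3}`; `1, 1`: `2 s2 - N' = s1 + (nn 1 - nn 2 + 1)`, `nn 1 - nn 2 ∈ {0, 2}`.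
Second part (`t` of class `l`, in no zone): `t = none`, `l = 2`: `lbl = x + x`, `x` in the zone `2`: `DD`; `l = 0`: `x ∈ [0, 2w)`, `y ∈ [2w, s1)`;
`l = 1`: `x ∈ [s2, s2 + 2w)`, `y ∈ [s1 + 2w, s2)`, sum minus `N'` at most `s1 + 2w + 3`; `l = 2`: `x ∈ [s1, s1 + 2w)`, `y ∈ [s2 + 2w, N')`,
sum minus `N'` less than `s1 + 2w`. -/
def Stmt_LLB : Prop :=
  ∀ (q w : ℕ) [Fintype (ZMod (2 * q - 1))], 100 ≤ q → 12 * w ≤ q →
    (∀ (l l' : Fin 3) (u v : VL q), zn q w l u → zn q w l' v → lbl u v ∈ DD q w) ∧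
    (∀ (l : Fin 3) (v t : VL q), zn q w l v → cl q w t = l → (∀ l', ¬ zn q w l' t) →
      lbl v t ∈ DD q w ∨ (t ≠ none ∧ lbl v t ∈ AA q w)) ∧
    (DD q w).card ≤ 12 * w + 12 ∧ (AA q w).card ≤ s1 q + 2 * w + 4 ∧
    ∀ j l : Fin 3, j ≠ l → w ≤ (univ.filter (fun x : ZMod (2 * q - 1) =>
      cl q w (some x) = j ∧ zn q w l (some x))).card

/-- LRL (250 lines; uses `plt.Stmt_RW1` `plt.Stmt_RW2` LLB; model `plt/LBR.lean`, `plt/GRD.lean`). `N = 2q`. From `3k/N ≤ 3/8` and the last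
hypothesis `(8/3)^(r-1) ≤ N`, so `r - 1 ≤ 2 log N`. `w = ⌊N^(1-ε/4)/12⌋`, `d = |DD| ≤ 12w + 12`, so `d/k ≤ 2 N^(-ε/8)`; `δ = ε/32`,
`p = (k - 3 - d)/((1+δ) (s1 + 2w + 4))`, `s1 ≤ N/3 + 2`; `p ≥ (3k/N) (1 - η)/(1+δ)` with `η = C N^(-ε/8)`, and as `r - 1 ≤ 2 log N`:
`(1+δ)^(r-1) ≤ N^(ε/8)`, `(1-η)^(r-1) ≥ 1/2`: `p^(r-1) ≥ N^(-1+7ε/8)/2`. Random subset `L₀` of `ZMod (2q-1)` (RW1; only `L₀ ∩ AA` is used):
(i) mean value of `|L₀ ∩ AA|` `≤ p |AA|`, so `k - 3 - d < |L₀ ∩ AA|` has probability at most `1/(1+δ)` (Markov). (ii) `T` with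
`|T| ≤ r - 1`, `j ≠ l`: `T' = {t ∈ T | t ≠ none, t in no zone}`, `J` a maximal set of `x` with `cl (some x) = j`, `zn l (some x)`
and pairwise disjoint sets `{x + y | some y ∈ T'}`: every `x` excludes at most `(r-1)²` others, so `|J| ≥ w/(r² + 1)`; the
probability that no `x ∈ J` has its label set in `L₀` is at most `exp (- p^(r-1) |J|)` (RW2), `p^(r-1) |J| ≥ N^(ε/2)` for large `q`;
the number of the `(T, j, l)` is at most `9 (N+1)^(r-1) ≤ exp (4 (log (N+1))²)`-like. So some `L₀` satisfies everything;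
`L = DD ∪ (L₀ ∩ AA) ∪` further labels, `k - 3` altogether. `gd`: the labels to the elements of `T` in a zone or `none` are in
`DD` by LLB. (If `T'` is empty every `x` of `J` is good.) `6 w + 3 ≤ k` clear. -/
def Stmt_LRL : Prop :=
  ∀ ε : ℝ, 0 < ε → ε < 1 → ∃ q0 : ℕ, ∀ q k r : ℕ, q0 ≤ q → 1 ≤ r → 4 * k ≤ q →
    (2 * (q : ℝ)) ^ (1 - ε / 8) ≤ k →
    1 ≤ (2 * (q : ℝ)) ^ (1 - ε) * (3 * (k : ℝ) / (2 * q)) ^ (r - 1) →
    ∃ (w : ℕ) (L : Finset (ZMod (2 * q - 1))), 12 * w ≤ q ∧ L.card = k - 3 ∧ Gd r q w L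

/-- LFI (60 lines; uses LRL LMU LG1 LG2 LG3 `fx.Stmt_CLN`). `q = n/2`; `le_P` with `VL q` (`2q` elements) and `L ⊕ Fin 3` (`k` elements)
(model `fx/LOM.lean`); odd `n`: CLN. -/
def Stmt_LFI : Prop :=
  ∀ ε : ℝ, 0 < ε → ε < 1 → ∃ n0 : ℕ, ∀ n k r : ℕ, n0 ≤ n → 1 ≤ r → 8 * k + 8 ≤ n →
    (NN n : ℝ) ^ (1 - ε / 8) ≤ k →
    1 ≤ (NN n : ℝ) ^ (1 - ε) * (3 * (k : ℝ) / NN n) ^ (r - 1) →
    NN n ^ (k - 3) * ((nn (n / 2) 0 + 2 * r) * (nn (n / 2) 1 + 2 * r) * (nn (n / 2) 2 + 2 * r)) ≤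
      P n k

/-- LUN (200 lines; uses LFI `fx.Stmt_LOM` `fx.Stmt_LOU`), the lower half. `ρ = rh n k ≥ 1`. Let `ε₁ = ε/4`. Case 1, `N^(1-ε₁/8) ≤ k`:
`ρ' = log N/(- log (3k/N))`, `r = ⌊(1-ε₁) ρ'⌋ + 1`, so `N^(1-ε₁) (3k/N)^(r-1) ≥ 1`; LFI; `|nn j - N/3| ≤ 2`, so the product is at least
`(N/3 + 2r - 2)^3`, and `2r - 2 ≥ 2 (1-ε₁) ρ' - 2 ≥ 2 (1-ε) ρ` because `ρ' ≥ (1 - ε/8) ρ` for large `n` (`n ≤ N + 1`, `3k/n ≤ 3/8`) and
`ρ ≥ 4/ε` (`log (n/(3k)) ≤ (ε/32) log n`-like). Case 2, `k < N^(1-ε₁/8)`: `ρ ≤ 64/ε` for large `n`. `m = max 2 ⌈(1-ε/2) ρ⌉`, only finitely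
many `m` occur. If `m = 2`: LOU (`28 ≤ k`). If `m ≥ 3`: `(1-ε/2) ρ > m - 1` gives `(n/(3k))^(m-1) < n^(1-ε/2)`, so
`k^(m-1) > 3^(-(m-1)) n^(m-2) n^(ε/2) ≥ C(m) n^(m-2)` for large `n`, and `k ≥ n^(1/2)/3`: LOM. In both cases
`NN n ^ (k-3) * TTm m (n/2) ≤ P n k` (`TT = TTm 2`), and `TTm m q ≥ (N/3 + 2m)^3 - 2 (N/3 + 2m) - 1` (three even numbers
of sum `N + 6m`, each at most `4/3` away from the mean; compute for `q % 3 = 0, 1, 2`) `≥ (N/3 + 2 (1-ε) ρ)^3` as
`m - (1-ε) ρ ≥ (ε/2) ρ ≥ ε/2` and `n` is large. -/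
def Stmt_LUN : Prop :=
  ∀ ε : ℝ, 0 < ε → ε < 1 → ∃ n0 : ℕ, ∀ n k : ℕ, n0 ≤ n → 28 ≤ k → 8 * k + 8 ≤ n →
    (NN n : ℝ) ^ (k - 3) * ((NN n : ℝ) / 3 + 2 * (1 - ε) * rh n k) ^ 3 ≤ (P n k : ℝ)

end Pool.Agent.Work.MP_1ce445_pl3
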