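import Pool.Agent.Work.MP_1ce445_pl3.InterfaceL
import Pool.Agent.Work.MP_1ce445_fx.GM3

/-!
Block LG3 of the first plateau, lower half, for MP_1ce445_co: the total domination numbers of the three special colours.
-/

namespace Pool.Agent.Work.MP_1ce445_pl3

open Finset Pool.Agent.Work.MP_1ce445_co_56 Pool.Agent.Work.MP_1ce445_lin
  Pool.Agent.Work.MP_1ce445_fx

theorem LG3_ne_left {q w : ℕ} (u v : VL q) : rl q w u v ≠ cl q w u := by
  unfold rl
  split_ifs with h1 h2
  · exact GM3_f2 _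
  · exact GM3_f1 _
  · exact (GM3_f3 _ _ h1).1

theorem LG3_ne_right {q w : ℕ} (u v : VL q) : rl q w u v ≠ cl q w v := by
  unfold rl
  split_ifs with h1 h2
  · rw [← h1]
    exact GM3_f2 _
  · rw [← h1]
    exact GM3_f1 _
  · exact (GM3_f3 _ _ h1).2

theorem LG3_symm {q w : ℕ} (u v : VL q) : rl q w u v = rl q w v u := by
  unfold rl
  by_cases h : cl q w u = cl q w v
  · rw [if_pos h, if_pos h.symm, ← h]
    by_cases h2 : zn q w (cl q w u + 2) u ∨ zn q w (cl q w u + 2) v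
    · rw [if_pos h2, if_pos h2.symm]
    · rw [if_neg h2, if_neg (fun h3 => h2 h3.symm)]
  · rw [if_neg h, if_neg (fun h3 => h h3.symm), add_comm]

theorem LG3_adj {q w : ℕ} {L : Finset (ZMod (2 * q - 1))} {μ : VL q → VL q} (hM : Mu q w L μ)
    {J : Fin 3} {u v : VL q} (h : (GW q w L μ (Sum.inr J)).Adj u v) :
    u ≠ v ∧ lbl u v ∉ L ∧ (v = μ u → cl q w u = J) ∧ (v ≠ μ u → rl q w u v = J) := by
  unfold GW at h
  rw [SimpleGraph.fromRel_adj] at h
  obtain ⟨h1, h2⟩ := h
  refine ⟨h1, ?_⟩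
  rcases h2 with h2 | h2
  · obtain ⟨h3, h4⟩ := h2
    refine ⟨h3, fun h5 => ?_, fun h5 => ?_⟩
    · rwa [if_pos h5] at h4
    · rwa [if_neg h5] at h4
  · obtain ⟨h3, h4⟩ := h2
    have h3' : lbl u v ∉ L := by
      rw [GM1_lbl_symm]
      exact h3
    refine ⟨h3', fun h5 => ?_, fun h5 => ?_⟩
    · have h6 : u = μ v := by rw [h5, (hM u).2.1]
      rw [if_pos h6] at h4
      rw [h6, (hM v).2.2.1]
      exact h4
    · have h6 : u ≠ μ v := by
        intro h7
        apply h5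
        rw [h7, (hM v).2.1]
      rw [if_neg h6] at h4
      rw [LG3_symm]
      exact h4

theorem LG3_zdis {q w : ℕ} (hq : 100 ≤ q) (hw : 12 * w ≤ q) {l l' : Fin 3} {v : VL q}
    (h : zn q w l v) (h' : zn q w l' v) : l = l' := by
  obtain ⟨x, hx, h1, h2⟩ := h
  obtain ⟨y, hy, h3, h4⟩ := h'
  have hxy : x = y := by
    rw [hx] at hy
    exact Option.some.inj hy
  subst hxy
  have e1 : s1 q = 2 * ((q + 2 - 0) / 3) := rfl
  have e2 : s2 q = 2 * ((q + 2 - 0) / 3) + 2 * ((q + 2 - 1) / 3) := rfl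
  have z0 : zs q 0 = 0 := rfl
  have z1 : zs q 1 = s2 q := rfl
  have z2 : zs q 2 = s1 q := rfl
  have hl : ∀ a : Fin 3, a = 0 ∨ a = 1 ∨ a = 2 := by decide
  rcases hl l with e | e | e <;> rcases hl l' with e' | e' | e' <;> subst e <;> subst e' <;>
    first
    | rfl
    | (exfalso
       simp only [z0, z1, z2] at h1 h2 h3 h4
       omega)

theorem LG3_f7 : ∀ j l J : Fin 3, j ≠ J → l ≠ J → j ≠ l →
    (l = j + 2 ∧ J = j + 1) ∨ (l = j + 1 ∧ J = j + 2) := by decide

theorem stmt_LG3 : Stmt_LSZ → Stmt_LG1 → Stmt_LG3 := by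
  intro hLSZ hLG1 q k w r L μ hq hw hkq hk hL hM hr hG J
  classical
  haveI : NeZero (2 * q - 1) := ⟨by omega⟩
  have hF := hLG1 q k w L μ hq hw hkq hk hL hM
  obtain ⟨S, hS, hSc⟩ := exists_tds (hF.minDeg (Sum.inr J))
  have hXc := hLSZ q w (by omega) hw J
  set X : Finset (VL q) := univ.filter (fun v => cl q w v = J) with hX
  have hmemX : ∀ v, v ∈ X ↔ cl q w v = J := by
    intro v
    simp [hX]
  have hXS : X ⊆ S := by
    intro v hv
    rw [hmemX] at hv
    obtain ⟨s, hsS, hs⟩ := hS (μ v)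
    have ha := LG3_adj hM hs
    have hc : cl q w (μ v) = J := (hM v).2.2.1.trans hv
    by_cases hsv : s = μ (μ v)
    · rw [(hM v).2.1] at hsv
      rw [← hsv]
      exact hsS
    · exfalso
      apply LG3_ne_left (w := w) (μ v) s
      rw [ha.2.2.2 hsv, hc]
  by_contra hcon
  set T := S \ X with hT
  have hTc : T.card + X.card = S.card := Finset.card_sdiff_add_card_eq_card hXS
  have hT3 : T.card ≤ 2 * r - 1 := by omega
  have key : ∀ j l : Fin 3, j ≠ J → l ≠ J → j ≠ l →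
      (T.filter (fun v => cl q w v = l)).card ≤ r - 1 → False := by
    intro j l hjJ hlJ hjl hl1
    obtain ⟨v, hv1, hv2, hv3⟩ := hG.gd (T.filter (fun v => cl q w v = l)) j l hjl hl1
      (fun t ht => (mem_filter.1 ht).2)
    obtain ⟨s, hsS, hs⟩ := hS v
    have ha := LG3_adj hM hs
    have hsv : s ≠ μ v := fun h => hjJ (hv1.symm.trans (ha.2.2.1 h))
    have hrl := ha.2.2.2 hsv
    by_cases hsJ : cl q w s = J
    · exact LG3_ne_right (w := w) v s (hrl.trans hsJ.symm)
    · have hsT : s ∈ T := by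
        rw [hT, Finset.mem_sdiff, hmemX]
        exact ⟨hsS, hsJ⟩
      rcases GM3_f4 (cl q w s) J j l hjJ hlJ hjl with h | h | h
      · exact hsJ h
      · unfold rl at hrl
        rw [if_pos (hv1.trans h.symm), hv1] at hrl
        rcases LG3_f7 j l J hjJ hlJ hjl with ⟨e1, e2⟩ | ⟨e1, e2⟩
        · rw [if_pos (Or.inl (e1 ▸ hv2))] at hrl
          exact hlJ (e1.trans hrl)
        · by_cases hz : zn q w (j + 2) v ∨ zn q w (j + 2) s
          · rcases hz with hz | hz
            · have := LG3_zdis hq hw hv2 hz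
              rw [e1] at this
              exact GM3_f6 j this
            · exact ha.2.1 (hG.zz l (j + 2) v s hv2 hz)
          · rw [if_neg hz] at hrl
            exact hlJ (e1.trans hrl)
      · exact ha.2.1 (hv3 s (mem_filter.2 ⟨hsT, h⟩))
  rcases GM3_half (cl q w) T r J hr hT3 with h | h
  · exact key (J + 2) (J + 1) (GM3_f2 J) (GM3_f1 J) (Ne.symm (GM3_f6 J)) h
  · exact key (J + 1) (J + 2) (GM3_f1 J) (GM3_f2 J) (GM3_f6 J) h

end Pool.Agent.Work.MP_1ce445_pl3
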