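import Pool.Agent.Work.MP_1ce445_fx.GM3
import Pool.Agent.Work.MP_1ce445_fx.CNM
import Pool.Agent.Work.MP_1ce445_fx.CLN
import Pool.Agent.Work.MP_1ce445_fx.InterfaceL

/-!
The trivial step `m = 1` of the first staircase: `N^(k-3) TTm 1 (n/2) ≤ P n k` for all `k ≥ 3`.
-/

namespace Pool.Agent.Work.MP_1ce445_pl3

open Finset Pool.Agent.Work.MP_1ce445_co_56 Pool.Agent.Work.MP_1ce445_lin
  Pool.Agent.Work.MP_1ce445_fx

theorem LM1_g (q k R : ℕ) (hR : 0 < R) (B : Fin R → Fin R → Bool) (L : Finset (ZMod (2 * q - 1)))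
    (hq : 100 ≤ q) (hk : 3 ≤ k) (hkq : 2 * k ≤ q) (hL : L.card = k - 3)
    (h0L : (0 : ZMod (2 * q - 1)) ∉ L) (hB : ∀ a b, B a b = B b a) (J : Fin 3) :
    2 * ((q + 2 - J.val) / 3) + 2 ≤ gammaT (GM R hR B L (Sum.inr J)) := by
  classical
  haveI : NeZero (2 * q - 1) := ⟨by omega⟩
  have hq1 : 1 ≤ q := by omega
  have hF := stmt_GM1 q k R hR B L hq hk hkq hL h0L hB
  obtain ⟨S, hS, hSc⟩ := exists_tds (hF.minDeg (Sum.inr J))
  have hXc := stmt_CNM q hq1 J
  set X : Finset (Option (ZMod (2 * q - 1))) := univ.filter (fun v => cls v = J) with hX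
  have hmemX : ∀ v, v ∈ X ↔ cls v = J := by
    intro v
    simp [hX]
  have hXS : X ⊆ S := by
    intro v hv
    rw [hmemX] at hv
    obtain ⟨u, hne, hu⟩ := GM1_ex0 hq1 v
    obtain ⟨w, hwS, hw⟩ := hS u
    rw [GM1_adjr hq1 hB] at hw
    have hcu : cls u = J := by rw [← GM1_cls hq1 hu hne, hv]
    have h0 : lbl u w = 0 := by
      by_contra h
      have h2 := hw.2.2.2 h
      rw [← hcu] at h2
      exact GM3_rule u w h2
    have h0' : lbl u v = 0 := by rw [GM1_lbl_symm, hu]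
    have hwv : w = v := (GM2_eq hq1 0 u w hw.1 h0).trans (GM2_eq hq1 0 u v (Ne.symm hne) h0').symm
    rw [← hwv]
    exact hwS
  by_contra hcon
  set T := S \ X with hT
  have hTc : T.card + X.card = S.card := Finset.card_sdiff_add_card_eq_card hXS
  have hT3 : T.card ≤ 1 := by omega
  obtain ⟨v, hvJ, hvT⟩ : ∃ v : Option (ZMod (2 * q - 1)), cls v ≠ J ∧ ∀ w ∈ T, w = v := by
    rcases T.eq_empty_or_nonempty with he | ⟨v, hv⟩
    · have h1 := stmt_CNM q hq1 (J + 1)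
      have h2 : 0 < (univ.filter (fun v : Option (ZMod (2 * q - 1)) => cls v = J + 1)).card := by
        rw [h1]
        have h3 : (J + 1).val ≤ 2 := by omega
        omega
      obtain ⟨v, hv⟩ := card_pos.1 h2
      refine ⟨v, ?_, fun w hw => ?_⟩
      · rw [(mem_filter.1 hv).2]
        exact GM3_f1 J
      · rw [he] at hw
        exact absurd hw (notMem_empty _)
    · refine ⟨v, ?_, fun w hw => card_le_one.1 hT3 w hw v hv⟩
      rw [hT, mem_sdiff, hmemX] at hv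
      exact hv.2
  obtain ⟨w, hwS, hw⟩ := hS v
  rw [GM1_adjr hq1 hB] at hw
  have h0 : lbl v w ≠ 0 := by
    intro h
    exact hvJ (hw.2.2.1 h)
  have hr := hw.2.2.2 h0
  by_cases hwJ : cls w = J
  · apply GM3_rule2 v w _ (hr.trans hwJ.symm)
    rw [hwJ]
    exact hvJ
  · have hwT : w ∈ T := by
      rw [hT, Finset.mem_sdiff, hmemX]
      exact ⟨hwS, hwJ⟩
    exact hw.1 (hvT w hwT).symm

theorem LM1_even (q k : ℕ) (h100 : 100 ≤ q) (h3 : 3 ≤ k) (h4 : 2 * k ≤ q) :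
    (2 * q) ^ (k - 3) * TTm 1 q ≤ P (2 * q) k := by
  classical
  haveI : NeZero (2 * q - 1) := ⟨by omega⟩
  obtain ⟨L, hLs, hLc⟩ : ∃ L : Finset (ZMod (2 * q - 1)),
      L ⊆ univ.erase (0 : ZMod (2 * q - 1)) ∧ L.card = k - 3 := by
    apply exists_subset_card_eq
    rw [card_erase_of_mem (mem_univ _), card_univ, ZMod.card]
    omega
  have h0L : (0 : ZMod (2 * q - 1)) ∉ L := fun h => by
    have := hLs h
    simp at this
  have hR : 0 < 1 := by norm_num
  have hB : ∀ a b : Fin 1, (fun _ _ => true : Fin 1 → Fin 1 → Bool) a b =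
      (fun _ _ => true : Fin 1 → Fin 1 → Bool) b a := fun _ _ => rfl
  have hfac := stmt_GM1 q k 1 hR (fun _ _ => true) L h100 h3 h4 hLc h0L hB
  have hg2 := stmt_GM2 stmt_GM1 q k 1 hR (fun _ _ => true) L h100 h3 h4 hLc h0L hB
  have hg3 := LM1_g q k 1 hR (fun _ _ => true) L h100 h3 h4 hLc h0L hB
  have hV : Fintype.card (Option (ZMod (2 * q - 1))) = 2 * q := by
    rw [Fintype.card_option, ZMod.card]; omega
  have hι : Fintype.card (L ⊕ Fin 3) = k := by
    rw [Fintype.card_sum, Fintype.card_coe, hLc, Fintype.card_fin]; omega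
  refine le_trans ?_ (le_P hV hι hfac)
  rw [Fintype.prod_sum_type]
  have er : (2 * q) ^ (k - 3) ≤ ∏ l : L, gammaT (GM 1 hR (fun _ _ => true) L (Sum.inl l)) := by
    calc (2 * q) ^ (k - 3) = ∏ _l : L, 2 * q := by
          rw [prod_const, card_univ, Fintype.card_coe, hLc]
      _ ≤ _ := Finset.prod_le_prod' fun l _ => hg2 l
  have e0 := hg3 0
  have e1 := hg3 1
  have e2 := hg3 2
  have v0 : ((0 : Fin 3) : Fin 3).val = 0 := rfl
  have v1 : ((1 : Fin 3) : Fin 3).val = 1 := rfl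
  have v2 : ((2 : Fin 3) : Fin 3).val = 2 := rfl
  rw [v0] at e0
  rw [v1] at e1
  rw [v2] at e2
  have a0 : 2 * ((q + 3 * 1 + 2) / 3) ≤ gammaT (GM 1 hR (fun _ _ => true) L (Sum.inr 0)) := by omega
  have a1 : 2 * ((q + 3 * 1 + 1) / 3) ≤ gammaT (GM 1 hR (fun _ _ => true) L (Sum.inr 1)) := by omega
  have a2 : 2 * ((q + 3 * 1) / 3) ≤ gammaT (GM 1 hR (fun _ _ => true) L (Sum.inr 2)) := by omega
  rw [Fin.prod_univ_three]
  calc (2 * q) ^ (k - 3) * TTm 1 q
      = (2 * q) ^ (k - 3) * (2 * ((q + 3 * 1 + 2) / 3) * (2 * ((q + 3 * 1 + 1) / 3)) *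
        (2 * ((q + 3 * 1) / 3))) := by
        unfold TTm; ring
    _ ≤ _ := Nat.mul_le_mul er (Nat.mul_le_mul (Nat.mul_le_mul a0 a1) a2)

/-- The step `m = 1`. -/
theorem LM1 (n k : ℕ) (h1 : 201 ≤ n) (h3 : 3 ≤ k) (h5 : 5 * k ≤ n) :
    NN n ^ (k - 3) * TTm 1 (n / 2) ≤ P n k := by
  have h8 := LM1_even (n / 2) k (by omega) h3 (by omega)
  have hNN : NN n = 2 * (n / 2) := rfl
  rw [hNN]
  refine h8.trans ?_
  rcases Nat.even_or_odd' n with ⟨s, hs | hs⟩
  · have : 2 * (n / 2) = n := by omega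
    rw [this]
  · have : n = 2 * (n / 2) + 1 := by omega
    calc P (2 * (n / 2)) k ≤ P (2 * (n / 2) + 1) k := stmt_CLN _ _ (by omega) (by omega)
      _ = P n k := by rw [← this]

end Pool.Agent.Work.MP_1ce445_pl3
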