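import Pool.Agent.Work.MP_1ce445_pl3.LM1
import Pool.Agent.Work.MP_1ce445_pl3.PL1

/-!
The two-sided statement on the first plateau for all `3 ≤ k ≤ n/120`.
-/

namespace Pool.Agent.Work.MP_1ce445_pl3

open Finset Pool.Agent.Work.MP_1ce445_co_56 Pool.Agent.Work.MP_1ce445_lin
  Pool.Agent.Work.MP_1ce445_fx

/-- `rh` as a quotient -/
lemma PL3_rh {n k : ℕ} (hk : 3 ≤ k) (hn : 0 < n) :
    rh n k = Real.log n / (Real.log n - Real.log (3 * k)) := by
  have hk0 : (0 : ℝ) < 3 * k := by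
    have : (3 : ℝ) ≤ k := by exact_mod_cast hk
    linarith
  have hn0 : (0 : ℝ) < n := by exact_mod_cast hn
  unfold rh
  rw [Real.log_div hk0.ne' hn0.ne']
  congr 1
  ring

lemma PL3_rh0 {n k : ℕ} (hk : 3 ≤ k) (hn : 120 * k ≤ n) : 0 ≤ rh n k := by
  have hk' : (3 : ℝ) ≤ k := by exact_mod_cast hk
  have hn' : (120 : ℝ) * k ≤ n := by exact_mod_cast hn
  rw [PL3_rh hk (by omega)]
  have h1 : Real.log (3 * k) ≤ Real.log n := Real.log_le_log (by linarith) (by linarith)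
  apply div_nonneg
  · exact Real.log_nonneg (by linarith)
  · linarith

lemma PL3_mono {N k : ℕ} (hk : 3 ≤ k) (hN : 120 * k ≤ N) : rh (N + 1) k ≤ rh N k := by
  have hk' : (3 : ℝ) ≤ k := by exact_mod_cast hk
  have hN' : 120 * (k : ℝ) ≤ N := by exact_mod_cast hN
  have hk0 : (0 : ℝ) < 3 * k := by linarith
  have hN0 : (0 : ℝ) < N := by linarith
  have ha : 0 ≤ Real.log (3 * k) := Real.log_nonneg (by linarith)
  have hxy : Real.log N ≤ Real.log ((N + 1 : ℕ) : ℝ) :=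
    Real.log_le_log hN0 (by push_cast; linarith)
  have hya : Real.log (3 * k) < Real.log N := Real.log_lt_log hk0 (by linarith)
  rw [PL3_rh hk (by omega), PL3_rh hk (by omega)]
  generalize Real.log ((N + 1 : ℕ) : ℝ) = x at *
  generalize Real.log (N : ℝ) = y at *
  generalize Real.log (3 * (k : ℝ)) = a at *
  rw [div_le_div_iff₀ (by linarith) (by linarith)]
  nlinarith

/-- small `k` -/
theorem LSQ (hT : Stmt_LTT) : ∀ ε : ℝ, 0 < ε → ε < 1 → ∃ n0 : ℕ, ∀ n k : ℕ, n0 ≤ n → Even n →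
    3 ≤ k → k ≤ 28 →
    (n : ℝ) ^ (k - 3) * ((n : ℝ) / 3 + 2 * (1 - ε) * rh n k) ^ 3 ≤ (P n k : ℝ) := by
  intro ε hε hε1
  obtain ⟨q0, hq⟩ := hT ε hε
  obtain ⟨n1, hn1⟩ := exists_nat_gt (Real.exp (10 / ε))
  refine ⟨n1 + 2 * q0 + 4000, ?_⟩
  intro n k hn hev hk hk28
  obtain ⟨q, rfl⟩ := hev
  have e0 : q + q = 2 * q := by ring
  rw [e0] at hn ⊢
  have hNN : NN (2 * q) = 2 * q := by
    unfold NN
    omega
  have h1 := LM1 (2 * q) k (by omega) hk (by omega)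
  have e1 : 2 * q / 2 = q := by omega
  rw [hNN, e1] at h1
  have h2 := hq q 1 (by omega)
  have hk' : (3 : ℝ) ≤ k := by exact_mod_cast hk
  have hk28' : (k : ℝ) ≤ 28 := by exact_mod_cast hk28
  have hlogn : 10 / ε ≤ Real.log ((2 * q : ℕ) : ℝ) := by
    rw [← Real.log_exp (10 / ε)]
    apply Real.log_le_log (Real.exp_pos _)
    have h3 : ((n1 : ℕ) : ℝ) ≤ ((2 * q : ℕ) : ℝ) := by exact_mod_cast (by omega : n1 ≤ 2 * q)
    linarith
  have hlogk : Real.log (3 * (k : ℝ)) ≤ 5 := by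
    have h84 : 3 * (k : ℝ) ≤ Real.exp 5 := by
      have h3 : (2.7 : ℝ) ^ 5 ≤ Real.exp 1 ^ 5 :=
        pow_le_pow_left₀ (by norm_num) (by linarith [Real.exp_one_gt_d9]) _
      have h4 : Real.exp 1 ^ 5 = Real.exp 5 := by
        rw [← Real.exp_nat_mul]
        norm_num
      rw [h4] at h3
      have h5 : (84 : ℝ) ≤ 2.7 ^ 5 := by norm_num
      linarith
    calc Real.log (3 * (k : ℝ)) ≤ Real.log (Real.exp 5) := Real.log_le_log (by linarith) h84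
      _ = 5 := Real.log_exp 5
  have hrh : (1 - ε) * rh (2 * q) k ≤ 1 - ε / 2 := by
    rw [PL3_rh hk (by omega)]
    have hL : 10 ≤ ε * Real.log ((2 * q : ℕ) : ℝ) := by
      rw [div_le_iff₀ hε] at hlogn
      linarith
    have hL2 : 10 ≤ Real.log ((2 * q : ℕ) : ℝ) := by nlinarith
    have hd : 0 < Real.log ((2 * q : ℕ) : ℝ) - Real.log (3 * (k : ℝ)) := by linarith
    rw [← mul_div_assoc, div_le_iff₀ hd]
    generalize Real.log ((2 * q : ℕ) : ℝ) = x at *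
    generalize Real.log (3 * (k : ℝ)) = a at *
    nlinarith
  have h0 := PL3_rh0 hk (n := 2 * q) (by omega)
  have h1' : (((2 * q : ℕ) : ℝ)) ^ (k - 3) * (TTm 1 q : ℝ) ≤ (P (2 * q) k : ℝ) := by
    exact_mod_cast h1
  refine le_trans ?_ h1'
  apply mul_le_mul_of_nonneg_left _ (by positivity)
  refine le_trans ?_ h2
  apply pow_le_pow_left₀
  · have : 0 ≤ (1 - ε) * rh (2 * q) k := mul_nonneg (by linarith) h0
    have h5 : (0 : ℝ) ≤ ((2 * q : ℕ) : ℝ) / 3 := by positivity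
    linarith
  · push_cast
    nlinarith

/-- the lower half for all `n` and `k ≥ 3` -/
theorem LW3 (hT : Stmt_LTT) (hG : Stmt_LWG) : ∀ ε : ℝ, 0 < ε → ε < 1 → ∃ n0 : ℕ, ∀ n k : ℕ,
    n0 ≤ n → 3 ≤ k → 120 * k ≤ n →
    (NN n : ℝ) ^ (k - 3) * ((NN n : ℝ) / 3 + 2 * (1 - ε) * rh n k) ^ 3 ≤ (P n k : ℝ) := by
  intro ε hε hε1
  obtain ⟨n0, h⟩ := hG ε hε hε1
  obtain ⟨n1, h'⟩ := LSQ hT ε hε hε1
  have main : ∀ n k : ℕ, n0 + n1 ≤ n → Even n → 3 ≤ k → 120 * k ≤ n →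
      (n : ℝ) ^ (k - 3) * ((n : ℝ) / 3 + 2 * (1 - ε) * rh n k) ^ 3 ≤ (P n k : ℝ) := by
    intro n k hn hev hk hkn
    rcases le_total 28 k with h28 | h28
    · exact h n k (by omega) hev h28 hkn
    · exact h' n k (by omega) hev hk h28
  refine ⟨n0 + n1 + 1, ?_⟩
  intro n k hn hk hkn
  rcases Nat.even_or_odd n with hev | hodd
  · have hNN : NN n = n := by
      obtain ⟨q, rfl⟩ := hev
      unfold NN
      omega
    rw [hNN]
    exact main n k (by omega) hev hk hkn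
  · obtain ⟨q, rfl⟩ := hodd
    have hNN : NN (2 * q + 1) = 2 * q := by
      unfold NN
      omega
    rw [hNN]
    have h1 := main (2 * q) k (by omega) (even_two_mul q) hk (by omega)
    have h2 := stmt_CLN (2 * q) k (by omega) (by omega)
    have r0 := PL3_rh0 hk hkn
    have r1 := PL3_mono (N := 2 * q) hk (by omega)
    refine le_trans ?_ (h1.trans (by exact_mod_cast h2))
    apply mul_le_mul_of_nonneg_left _ (by positivity)
    have h4 : 0 ≤ 2 * (1 - ε) := by linarith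
    apply pow_le_pow_left₀
    · have h3 : 0 ≤ 2 * (1 - ε) * rh (2 * q + 1) k := mul_nonneg h4 r0
      positivity
    · have h3 := mul_le_mul_of_nonneg_left r1 h4
      linarith

/-- The two-sided statement for all `3 ≤ k ≤ n/120`. -/
def Stmt_PL3 : Prop :=
  ∀ ε : ℝ, 0 < ε → ε < 1 → ∃ n0 : ℕ, ∀ n k : ℕ, n0 ≤ n → 3 ≤ k → 120 * k ≤ n →
    ∃ R : ℝ, (P n k : ℝ) = (NN n : ℝ) ^ (k - 3) * ((NN n : ℝ) / 3 + R) ^ 3 ∧
      2 * (1 - ε) * rh n k ≤ R ∧ R ≤ 2 * (1 + ε) * rh n k + 2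

theorem stmt_PL3 : Stmt_UPY → Stmt_LTT → Stmt_LWG → Stmt_PL3 := by
  intro hU hT hG ε h0 h1
  obtain ⟨n0, hn0⟩ := hU ε h0 h1
  obtain ⟨n1, hn1⟩ := LW3 hT hG ε h0 h1
  refine ⟨max n0 n1, fun n k hn hk hkn => ?_⟩
  have hu := hn0 n k (le_trans (le_max_left _ _) hn) hk hkn
  have hl := hn1 n k (le_trans (le_max_right _ _) hn) hk hkn
  have hr := PL3_rh0 hk hkn
  have hN : 0 < NN n := by
    unfold NN
    omega
  have hN' : (0 : ℝ) < NN n := by exact_mod_cast hN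
  have hA : (0 : ℝ) < (NN n : ℝ) ^ (k - 3) := by positivity
  have ha : 0 ≤ (NN n : ℝ) / 3 + 2 * (1 - ε) * rh n k := by
    have : 0 ≤ (1 - ε) * rh n k := mul_nonneg (by linarith) hr
    linarith
  have hb : 0 ≤ (NN n : ℝ) / 3 + 2 * (1 + ε) * rh n k + 2 := by
    have : 0 ≤ (1 + ε) * rh n k := mul_nonneg (by linarith) hr
    linarith
  have e1 : ((NN n : ℝ) / 3 + 2 * (1 - ε) * rh n k) ^ 3 ≤ (P n k : ℝ) / (NN n : ℝ) ^ (k - 3) := by
    rw [le_div_iff₀ hA, mul_comm]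
    exact hl
  have e2 : (P n k : ℝ) / (NN n : ℝ) ^ (k - 3) ≤
      ((NN n : ℝ) / 3 + 2 * (1 + ε) * rh n k + 2) ^ 3 := by
    rw [div_le_iff₀ hA, mul_comm]
    exact hu
  obtain ⟨x, hx, hx1, hx2⟩ := PL1_root ha hb e1 e2
  refine ⟨x - (NN n : ℝ) / 3, ?_, by linarith, by linarith⟩
  have e3 : (NN n : ℝ) / 3 + (x - (NN n : ℝ) / 3) = x := by ring
  rw [e3, ← hx]
  field_simp

end Pool.Agent.Work.MP_1ce445_pl3
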